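import Mathlib

/-!
# Immersions into the unit sphere and mean curvature flow: definitions

Throughout, `M` is an `n`-dimensional manifold (charted on `ℝ^n`), and `F : M → ℝ^m` is a map with
values in the unit sphere of `ℝ^m`.
-/

namespace Pool.Agent.H15.MCF

open scoped Manifold ContDiff RealInnerProductSpace

/-- Euclidean space of dimension `m`. -/
abbrev Euc (m : ℕ) : Type := EuclideanSpace ℝ (Fin m)

section Geometry

variable (n : ℕ) {m : ℕ} {M : Type} [TopologicalSpace M] [ChartedSpace (Euc n) M]

/-- The map `F : M → ℝ^m` written in the chart around `x`. -/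
noncomputable def coordRep (F : M → Euc m) (x : M) : Euc n → Euc m :=
  fun y => F ((chartAt (Euc n) x).symm y)

/-- The differential of `F` at `x`, written in the chart around `x`. -/
noncomputable def diff1 (F : M → Euc m) (x : M) : Euc n →L[ℝ] Euc m :=
  fderiv ℝ (coordRep n F x) (chartAt (Euc n) x x)

/-- The second derivative of `F` at `x`, written in the chart around `x`. -/
noncomputable def diff2 (F : M → Euc m) (x : M) : Euc n →L[ℝ] Euc n →L[ℝ] Euc m :=
  fderiv ℝ (fderiv ℝ (coordRep n F x)) (chartAt (Euc n) x x)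

/-- `F` is a smooth immersion of `M` into the unit sphere of `ℝ^m`. -/
structure IsSphereImmersion (F : M → Euc m) : Prop where
  smooth : ContMDiff (𝓡 n) 𝓘(ℝ, Euc m) ∞ F
  norm_eq_one : ∀ x, ‖F x‖ = 1
  injective : ∀ x, Function.Injective (diff1 n F x)

/-- The metric induced by `F`, at the point `x`. -/
noncomputable def metric (F : M → Euc m) (x : M) (v w : Euc n) : ℝ :=
  ⟪diff1 n F x v, diff1 n F x w⟫

/-- The normal space at `x` of the immersion `F` into the unit sphere: all vectors of `ℝ^m`
orthogonal to the position vector `F x` and to the image of the differential of `F` at `x`. -/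
noncomputable def normalSpace (F : M → Euc m) (x : M) : Submodule ℝ (Euc m) :=
  (Submodule.span ℝ {F x} ⊔ (diff1 n F x).range)ᗮ

/-- The second fundamental form at `x` of the immersion `F` into the unit sphere: the orthogonal
projection of the second derivative to the normal space. -/
noncomputable def secondForm (F : M → Euc m) (x : M) (v w : Euc n) : Euc m :=
  (normalSpace n F x).starProjection (diff2 n F x v w)

/-- The Gram matrix `g_ij` of the induced metric at `x` (in the chart around `x`). -/
noncomputable def gram (F : M → Euc m) (x : M) : Matrix (Fin n) (Fin n) ℝ :=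
  Matrix.of fun i j => metric n F x (EuclideanSpace.single i 1) (EuclideanSpace.single j 1)

/-- The mean curvature vector `H = g^ij h_ij` (unnormalised trace of the second fundamental
form). -/
noncomputable def meanCurvature (F : M → Euc m) (x : M) : Euc m :=
  ∑ i, ∑ j, (gram n F x)⁻¹ i j •
    secondForm n F x (EuclideanSpace.single i 1) (EuclideanSpace.single j 1)

/-- The sectional curvature of the metric induced by the immersion `F` into the unit sphere, of the
plane spanned by `v` and `w` (Gauss equation). -/
noncomputable def sectional (F : M → Euc m) (x : M) (v w : Euc n) : ℝ :=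
  1 + (⟪secondForm n F x v v, secondForm n F x w w⟫ - ‖secondForm n F x v w‖ ^ 2) /
    (metric n F x v v * metric n F x w w - metric n F x v w ^ 2)

/-- The time interval `[0, T)`, where `T` may be infinite. -/
def timeDomain (T : EReal) : Set ℝ := {t : ℝ | 0 ≤ t ∧ (t : EReal) < T}

/-- `F` is a smooth solution on `[0, T)` of the mean curvature flow in the unit sphere of `ℝ^m`
starting from the immersion `F₀`. -/
structure IsMCF (F₀ : M → Euc m) (T : EReal) (F : ℝ → M → Euc m) : Prop where
  pos : 0 < T
  initial : F 0 = F₀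
  smooth : ContMDiffOn (𝓘(ℝ, ℝ).prod (𝓡 n)) 𝓘(ℝ, Euc m) ∞ (fun p : ℝ × M => F p.1 p.2)
    (timeDomain T ×ˢ Set.univ)
  immersion : ∀ t ∈ timeDomain T, IsSphereImmersion n (F t)
  flow : ∀ t ∈ timeDomain T, ∀ x,
    HasDerivWithinAt (fun s => F s x) (meanCurvature n (F t) x) (timeDomain T) t

/-- `F` is the unique smooth solution of the mean curvature flow starting from `F₀`, and `[0, T)` is
its maximal time interval. -/
def IsUniqueMaximalMCF (F₀ : M → Euc m) (T : EReal) (F : ℝ → M → Euc m) : Prop :=
  IsMCF n F₀ T F ∧
    ∀ (T' : EReal) (F' : ℝ → M → Euc m), IsMCF n F₀ T' F' →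
      T' ≤ T ∧ ∀ t ∈ timeDomain T', F' t = F t

/-- The images `F t M` shrink to the point `p` as `t → T`. -/
def ShrinksTo (T : EReal) (F : ℝ → M → Euc m) (p : Euc m) : Prop :=
  ∀ ε > 0, ∃ t₀ ∈ timeDomain T, ∀ t ∈ timeDomain T, t₀ ≤ t → ∀ x, dist (F t x) p < ε

/-- The constant `k(q, n) = min (q * sgn (q - 1)) n` of Gu and Xu (for `q ≥ 1`). -/
def kConst (q n : ℕ) : ℕ := min (q * (if q = 1 then 0 else 1)) n

/-- The hypothesis of the conjecture of Gu and Xu, for an immersion into the unit sphere
(`c = 1`) of dimension `n + q`. -/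
def GuXuHypothesis (q : ℕ) (F₀ : M → Euc (n + q + 1)) : Prop :=
  (∀ x, 0 < (n : ℝ) ^ 2 + ‖meanCurvature n F₀ x‖ ^ 2) ∧
    ∀ (x : M) (v w : Euc n), LinearIndependent ℝ ![v, w] →
      (kConst q n : ℝ) * (1 + ‖meanCurvature n F₀ x‖ ^ 2 / (n : ℝ) ^ 2) /
        (2 * ((kConst q n : ℝ) + 1)) < sectional n F₀ x v w

/-- A weak form of the conclusion of the conjecture of Gu and Xu: there is a smooth solution on
some interval `[0, T)` such that either `T < ∞` and the solution shrinks to a point, or `T = ∞`. -/
def WeakGuXuConclusion (F₀ : M → Euc m) : Prop :=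
  ∃ (T : EReal) (F : ℝ → M → Euc m), IsMCF n F₀ T F ∧
    ((T < ⊤ ∧ ∃ p, ShrinksTo T F p) ∨ T = ⊤)

end Geometry

end Pool.Agent.H15.MCF
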