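import Mathlib
import Pool.Agent.H15.MCF.Defs

/-!
# Calculus lemmas
-/

namespace Pool.Agent.H15.MCF

open scoped Manifold ContDiff RealInnerProductSpace Topology

section Comp

variable {V W E : Type} [NormedAddCommGroup V] [NormedSpace ℝ V] [NormedAddCommGroup W]
  [NormedSpace ℝ W] [NormedAddCommGroup E] [NormedSpace ℝ E]

/-- Second derivative of a composition. -/
lemma fderiv2_comp {f : W → E} {ψ : V → W} {a : V} (hf : ContDiffAt ℝ 2 f (ψ a))
    (hψ : ContDiffAt ℝ 2 ψ a) (v w : V) :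
    fderiv ℝ (fderiv ℝ (f ∘ ψ)) a v w =
      fderiv ℝ (fderiv ℝ f) (ψ a) (fderiv ℝ ψ a v) (fderiv ℝ ψ a w) +
        fderiv ℝ f (ψ a) (fderiv ℝ (fderiv ℝ ψ) a v w) := by
  have h1 : fderiv ℝ (f ∘ ψ) =ᶠ[𝓝 a] fun y => (fderiv ℝ f (ψ y)).comp (fderiv ℝ ψ y) := by
    have e1 : ∀ᶠ y in 𝓝 a, DifferentiableAt ℝ ψ y := by
      have := hψ.eventually (by simp)
      filter_upwards [this] with y hy
      exact hy.differentiableAt (by norm_num)
    have e2 : ∀ᶠ y in 𝓝 a, DifferentiableAt ℝ f (ψ y) := by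
      have h := hf.eventually (by simp)
      have := hψ.continuousAt.eventually h
      filter_upwards [this] with y hy
      exact hy.differentiableAt (by norm_num)
    filter_upwards [e1, e2] with y h1 h2
    exact fderiv_comp y h2 h1
  rw [h1.fderiv_eq]
  have d1 : HasFDerivAt (fderiv ℝ f) (fderiv ℝ (fderiv ℝ f) (ψ a)) (ψ a) :=
    ((hf.fderiv_right (m := 1) (by norm_num)).differentiableAt (by norm_num)).hasFDerivAt
  have d2 : HasFDerivAt ψ (fderiv ℝ ψ a) a :=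
    (hψ.differentiableAt (by norm_num)).hasFDerivAt
  have d3 : HasFDerivAt (fderiv ℝ ψ) (fderiv ℝ (fderiv ℝ ψ) a) a :=
    ((hψ.fderiv_right (m := 1) (by norm_num)).differentiableAt (by norm_num)).hasFDerivAt
  have d4 := (d1.comp a d2).clm_comp d3
  have d5 : fderiv ℝ (fun y => (fderiv ℝ f (ψ y)).comp (fderiv ℝ ψ y)) a = _ := d4.fderiv
  rw [d5]
  simp [add_comm]

end Comp

section SphereValued

variable {V E : Type} [NormedAddCommGroup V] [NormedSpace ℝ V] [NormedAddCommGroup E]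
  [InnerProductSpace ℝ E]

lemma inner_fderiv_eq_zero {f : V → E} {a : V} (hf : DifferentiableAt ℝ f a)
    (h1 : ∀ᶠ y in 𝓝 a, ‖f y‖ = 1) (v : V) : ⟪f a, fderiv ℝ f a v⟫ = 0 := by
  have h := (hf.hasFDerivAt.inner ℝ hf.hasFDerivAt)
  have hc : (fun y => ⟪f y, f y⟫) =ᶠ[𝓝 a] fun _ => (1 : ℝ) := by
    filter_upwards [h1] with y hy
    rw [real_inner_self_eq_norm_sq, hy]
    norm_num
  have h2 := congrArg (fun L => L v) (h.unique ((hasFDerivAt_const (1 : ℝ) a).congr_of_eventuallyEq hc))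
  simp [real_inner_comm] at h2
  exact h2

lemma inner_fderiv2 {f : V → E} {a : V} (hf : ContDiffAt ℝ 2 f a)
    (h1 : ∀ᶠ y in 𝓝 a, ‖f y‖ = 1) (v w : V) :
    ⟪f a, fderiv ℝ (fderiv ℝ f) a v w⟫ = - ⟪fderiv ℝ f a v, fderiv ℝ f a w⟫ := by
  have e1 : ∀ᶠ y in 𝓝 a, ContDiffAt ℝ 2 f y := hf.eventually (by simp)
  have hc : (fun y => ⟪f y, fderiv ℝ f y w⟫) =ᶠ[𝓝 a] fun _ => (0 : ℝ) := by
    filter_upwards [e1, h1.eventually_nhds] with y hy hy1
    exact inner_fderiv_eq_zero (hy.differentiableAt (by norm_num)) hy1 w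
  have d1 : HasFDerivAt (fderiv ℝ f) (fderiv ℝ (fderiv ℝ f) a) a :=
    ((hf.fderiv_right (m := 1) (by norm_num)).differentiableAt (by norm_num)).hasFDerivAt
  have d2 : HasFDerivAt (fun y => fderiv ℝ f y w) ((fderiv ℝ (fderiv ℝ f) a).flip w) a := by
    have := d1.clm_apply (hasFDerivAt_const w a)
    simpa using this
  have d3 : HasFDerivAt f (fderiv ℝ f a) a := (hf.differentiableAt (by norm_num)).hasFDerivAt
  have h := d3.inner ℝ d2
  have h2 := congrArg (fun L => L v) (h.unique ((hasFDerivAt_const (0 : ℝ) a).congr_of_eventuallyEq hc))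
  simp at h2
  linarith

end SphereValued

section LocalMax

lemma deriv_deriv_nonpos {h : ℝ → ℝ} {a : ℝ} (hmax : IsLocalMax h a) (hc : ContinuousAt h a) :
    deriv (deriv h) a ≤ 0 := by
  by_contra hcon
  push Not at hcon
  have h0 : deriv h a = 0 := hmax.deriv_eq_zero
  have hmin := isLocalMin_of_deriv_deriv_pos hcon h0 hc
  have he : h =ᶠ[𝓝 a] fun _ => h a := by
    filter_upwards [hmax, hmin] with y h1 h2
    exact le_antisymm h1 h2
  have h2 : deriv h =ᶠ[𝓝 a] fun _ => 0 := by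
    have := he.deriv
    simpa using this
  have h3 := h2.deriv_eq
  simp at h3
  linarith

variable {V : Type} [NormedAddCommGroup V] [NormedSpace ℝ V]

lemma fderiv2_nonpos {g : V → ℝ} {a : V} (hg : ContDiffAt ℝ 2 g a) (hmax : IsLocalMax g a)
    (v : V) : fderiv ℝ (fderiv ℝ g) a v v ≤ 0 := by
  have hline : HasDerivAt (fun s : ℝ => a + s • v) v 0 := by
    have := ((hasDerivAt_id (0 : ℝ)).smul_const v).const_add a
    simpa using this
  have hlinec : ContinuousAt (fun s : ℝ => a + s • v) 0 := hline.continuousAt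
  have e1 : ∀ᶠ y in 𝓝 a, ContDiffAt ℝ 2 g y := hg.eventually (by simp)
  have hd : deriv (fun s : ℝ => g (a + s • v)) =ᶠ[𝓝 0] fun s => fderiv ℝ g (a + s • v) v := by
    have e2 : ∀ᶠ s in 𝓝 (0 : ℝ), ContDiffAt ℝ 2 g (a + s • v) := by
      apply hlinec.eventually
      simpa using e1
    filter_upwards [e2] with s hs
    have hl : HasDerivAt (fun s : ℝ => a + s • v) v s := by
      have := ((hasDerivAt_id s).smul_const v).const_add a
      simpa using this
    exact ((hs.differentiableAt (by norm_num)).hasFDerivAt.comp_hasDerivAt s hl).deriv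
  have hz : a + (0 : ℝ) • v = a := by simp
  have hm : IsLocalMax (fun s : ℝ => g (a + s • v)) 0 := by
    have ht : Filter.Tendsto (fun s : ℝ => a + s • v) (𝓝 0) (𝓝 a) := by
      have := hlinec.tendsto
      rwa [hz] at this
    have := ht.eventually hmax
    filter_upwards [this] with s hs
    rw [hz]
    exact hs
  have hcc : ContinuousAt (fun s : ℝ => g (a + s • v)) 0 := by
    have : ContinuousAt g ((fun s : ℝ => a + s • v) 0) := by
      show ContinuousAt g (a + (0 : ℝ) • v)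
      rw [hz]; exact hg.continuousAt
    exact ContinuousAt.comp this hlinec
  have h1 := deriv_deriv_nonpos hm hcc
  rw [hd.deriv_eq] at h1
  have d1 : HasFDerivAt (fderiv ℝ g) (fderiv ℝ (fderiv ℝ g) a) (a + (0 : ℝ) • v) := by
    simpa using ((hg.fderiv_right (m := 1) (by norm_num)).differentiableAt
      (by norm_num)).hasFDerivAt
  have d2 := (d1.comp_hasDerivAt 0 hline).clm_apply (hasDerivAt_const (0 : ℝ) v)
  have d3 := d2.deriv
  simp at d3
  have d4 : deriv (fun s : ℝ => fderiv ℝ g (a + s • v) v) 0 = fderiv ℝ (fderiv ℝ g) a v v := d3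
  rw [d4] at h1
  exact h1

end LocalMax

section Jet

variable {n m : ℕ} {M : Type} [TopologicalSpace M] [ChartedSpace (Euc n) M]
variable {V : Type} [NormedAddCommGroup V] [NormedSpace ℝ V]

lemma two_le_infty : (2 : WithTop ℕ∞) ≤ ∞ := by
  exact WithTop.coe_le_coe.2 le_top

lemma contDiffAt_coordRep {F : M → Euc m} {x : M}
    (hF : ContMDiffAt (𝓡 n) 𝓘(ℝ, Euc m) ∞ F x) :
    ContDiffAt ℝ ∞ (coordRep n F x) (chartAt (Euc n) x x) := by
  rw [contMDiffAt_iff] at hF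
  have := hF.2
  simp at this
  exact this

lemma contDiffAt_chart_comp {ψ : V → M} {a : V}
    (hψ : ContMDiffAt 𝓘(ℝ, V) (𝓡 n) ∞ ψ a) :
    ContDiffAt ℝ ∞ (fun y => chartAt (Euc n) (ψ a) (ψ y)) a := by
  rw [contMDiffAt_iff] at hψ
  have := hψ.2
  simp at this
  exact this

lemma comp_eventuallyEq {F : M → Euc m} {ψ : V → M} {a : V}
    (hψ : ContMDiffAt 𝓘(ℝ, V) (𝓡 n) ∞ ψ a) :
    (fun y => F (ψ y)) =ᶠ[𝓝 a]
      (coordRep n F (ψ a) ∘ fun y => chartAt (Euc n) (ψ a) (ψ y)) := by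
  have h : ∀ᶠ y in 𝓝 a, ψ y ∈ (chartAt (Euc n) (ψ a)).source :=
    hψ.continuousAt.eventually ((chartAt (Euc n) (ψ a)).open_source.mem_nhds
      (mem_chart_source _ _))
  filter_upwards [h] with y hy
  simp [coordRep, (chartAt (Euc n) (ψ a)).left_inv hy]

/-- First derivative of `F ∘ ψ`. -/
lemma jet1 {F : M → Euc m} {ψ : V → M} {a : V}
    (hF : ContMDiffAt (𝓡 n) 𝓘(ℝ, Euc m) ∞ F (ψ a))
    (hψ : ContMDiffAt 𝓘(ℝ, V) (𝓡 n) ∞ ψ a) (v : V) :
    fderiv ℝ (fun y => F (ψ y)) a v =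
      diff1 n F (ψ a) (fderiv ℝ (fun y => chartAt (Euc n) (ψ a) (ψ y)) a v) := by
  rw [(comp_eventuallyEq hψ).fderiv_eq]
  have h1 := (contDiffAt_coordRep hF).differentiableAt (by simp)
  have h2 := (contDiffAt_chart_comp hψ).differentiableAt (by simp)
  rw [fderiv_comp a h1 h2]
  rfl

/-- Second derivative of `F ∘ ψ`. -/
lemma jet2 {F : M → Euc m} {ψ : V → M} {a : V}
    (hF : ContMDiffAt (𝓡 n) 𝓘(ℝ, Euc m) ∞ F (ψ a))
    (hψ : ContMDiffAt 𝓘(ℝ, V) (𝓡 n) ∞ ψ a) (v w : V) :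
    fderiv ℝ (fderiv ℝ (fun y => F (ψ y))) a v w =
      diff2 n F (ψ a) (fderiv ℝ (fun y => chartAt (Euc n) (ψ a) (ψ y)) a v)
          (fderiv ℝ (fun y => chartAt (Euc n) (ψ a) (ψ y)) a w) +
        diff1 n F (ψ a)
          (fderiv ℝ (fderiv ℝ (fun y => chartAt (Euc n) (ψ a) (ψ y))) a v w) := by
  have h1 : ContDiffAt ℝ 2 (coordRep n F (ψ a)) ((fun y => chartAt (Euc n) (ψ a) (ψ y)) a) :=
    (contDiffAt_coordRep hF).of_le two_le_infty
  have h2 := (contDiffAt_chart_comp hψ).of_le (m := 2) two_le_infty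
  rw [Filter.EventuallyEq.fderiv_eq (comp_eventuallyEq hψ).fderiv]
  exact fderiv2_comp (ψ := fun y => chartAt (Euc n) (ψ a) (ψ y)) h1 h2 v w

end Jet

end Pool.Agent.H15.MCF
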