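import Mathlib
import Pool.Agent.H15.MCF.Calc

/-!
# Elementary properties of the second fundamental form and of the mean curvature vector
-/

namespace Pool.Agent.H15.MCF

open scoped Manifold ContDiff RealInnerProductSpace Topology

variable {n m : ℕ} {M : Type} [TopologicalSpace M] [ChartedSpace (Euc n) M]

lemma mem_normalSpace {F : M → Euc m} {x : M} {a : Euc m} :
    a ∈ normalSpace n F x ↔ ⟪F x, a⟫ = 0 ∧ ∀ v, ⟪diff1 n F x v, a⟫ = 0 := by
  unfold normalSpace
  rw [← Submodule.inf_orthogonal, Submodule.mem_inf, Submodule.mem_orthogonal_singleton_iff_inner_right,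
    Submodule.mem_orthogonal]
  constructor
  · rintro ⟨h1, h2⟩
    exact ⟨h1, fun v => h2 _ ⟨v, rfl⟩⟩
  · rintro ⟨h1, h2⟩
    refine ⟨h1, ?_⟩
    rintro _ ⟨v, rfl⟩
    exact h2 v

/-- The orthogonal projection to the normal space. -/
noncomputable abbrev nproj (F : M → Euc m) (x : M) : Euc m →L[ℝ] Euc m :=
  (normalSpace n F x).starProjection

lemma nproj_mem (F : M → Euc m) (x : M) (a : Euc m) :
    (normalSpace n F x).starProjection a ∈ normalSpace n F x :=
  Submodule.starProjection_apply_mem _ _

lemma nproj_self (F : M → Euc m) (x : M) :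
    (normalSpace n F x).starProjection (F x) = 0 := by
  rw [Submodule.starProjection_apply_eq_zero_iff]
  rw [Submodule.mem_orthogonal]
  intro u hu
  rw [mem_normalSpace] at hu
  rw [real_inner_comm]
  exact hu.1

lemma nproj_diff1 (F : M → Euc m) (x : M) (v : Euc n) :
    (normalSpace n F x).starProjection (diff1 n F x v) = 0 := by
  rw [Submodule.starProjection_apply_eq_zero_iff]
  rw [Submodule.mem_orthogonal]
  intro u hu
  rw [mem_normalSpace] at hu
  rw [real_inner_comm]
  exact hu.2 v

lemma inner_nproj (F : M → Euc m) (x : M) (a b : Euc m) :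
    ⟪(normalSpace n F x).starProjection a, b⟫ = ⟪a, (normalSpace n F x).starProjection b⟫ :=
  Submodule.inner_starProjection_left_eq_right _ _ _

lemma secondForm_mem (F : M → Euc m) (x : M) (v w : Euc n) :
    secondForm n F x v w ∈ normalSpace n F x := nproj_mem _ _ _

lemma secondForm_add_left (F : M → Euc m) (x : M) (v v' w : Euc n) :
    secondForm n F x (v + v') w = secondForm n F x v w + secondForm n F x v' w := by
  simp [secondForm]

lemma secondForm_add_right (F : M → Euc m) (x : M) (v w w' : Euc n) :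
    secondForm n F x v (w + w') = secondForm n F x v w + secondForm n F x v w' := by
  simp [secondForm]

lemma secondForm_smul_left (F : M → Euc m) (x : M) (c : ℝ) (v w : Euc n) :
    secondForm n F x (c • v) w = c • secondForm n F x v w := by
  simp [secondForm]

lemma secondForm_smul_right (F : M → Euc m) (x : M) (c : ℝ) (v w : Euc n) :
    secondForm n F x v (c • w) = c • secondForm n F x v w := by
  simp [secondForm]

lemma secondForm_sum_left {ι : Type} (s : Finset ι) (F : M → Euc m) (x : M) (v : ι → Euc n)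
    (w : Euc n) :
    secondForm n F x (∑ i ∈ s, v i) w = ∑ i ∈ s, secondForm n F x (v i) w := by
  simp [secondForm]

lemma secondForm_sum_right {ι : Type} (s : Finset ι) (F : M → Euc m) (x : M) (v : Euc n)
    (w : ι → Euc n) :
    secondForm n F x v (∑ i ∈ s, w i) = ∑ i ∈ s, secondForm n F x v (w i) := by
  simp [secondForm]

lemma diff2_symm {F : M → Euc m} {x : M} (hF : ContMDiffAt (𝓡 n) 𝓘(ℝ, Euc m) ∞ F x)
    (v w : Euc n) : diff2 n F x v w = diff2 n F x w v := by
  have h := (contDiffAt_coordRep hF)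
  exact (h.isSymmSndFDerivAt (by simp [two_le_infty])).eq v w

lemma secondForm_symm {F : M → Euc m} {x : M} (hF : ContMDiffAt (𝓡 n) 𝓘(ℝ, Euc m) ∞ F x)
    (v w : Euc n) : secondForm n F x v w = secondForm n F x w v := by
  unfold secondForm
  rw [diff2_symm hF]

lemma eq_sum_single (v : Euc n) : v = ∑ i, v i • EuclideanSpace.single i (1 : ℝ) := by
  ext j
  simp [Finset.sum_apply, Pi.single_apply]

/-- The mean curvature vector in terms of an orthonormal frame. -/
lemma meanCurvature_eq_sum (F : M → Euc m) (x : M) (e : Fin n → Euc n)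
    (he : Orthonormal ℝ (fun i => diff1 n F x (e i))) :
    meanCurvature n F x = ∑ i, secondForm n F x (e i) (e i) := by
  classical
  let P : Matrix (Fin n) (Fin n) ℝ := Matrix.of fun k i => e k i
  have hP : P * gram n F x * P.transpose = 1 := by
    ext k l
    have h1 := orthonormal_iff_ite.1 he k l
    rw [Matrix.one_apply, ← h1]
    conv_rhs => rw [eq_sum_single (e k), eq_sum_single (e l)]
    simp only [map_sum, map_smul, sum_inner, inner_sum, inner_smul_left, inner_smul_right,
      Matrix.mul_apply, Matrix.transpose_apply, P, Matrix.of_apply, gram, metric,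
      Finset.sum_mul, conj_trivial, Finset.mul_sum]
    refine Finset.sum_congr rfl fun i _ => Finset.sum_congr rfl fun j _ => ?_
    ring
  have hinv : (gram n F x)⁻¹ = P.transpose * P := by
    apply Matrix.inv_eq_right_inv
    have h2 : P * (gram n F x * P.transpose) = 1 := by rw [← Matrix.mul_assoc]; exact hP
    have h3 := mul_eq_one_comm.1 h2
    rw [← Matrix.mul_assoc]
    exact h3
  unfold meanCurvature
  rw [hinv]
  have h4 : ∀ k, secondForm n F x (e k) (e k) = ∑ i, ∑ j, (e k i * e k j) •
      secondForm n F x (EuclideanSpace.single i 1) (EuclideanSpace.single j 1) := by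
    intro k
    conv_lhs => rw [eq_sum_single (e k)]
    rw [secondForm_sum_left]
    refine Finset.sum_congr rfl fun i _ => ?_
    rw [secondForm_sum_right]
    refine Finset.sum_congr rfl fun j _ => ?_
    rw [secondForm_smul_left, secondForm_smul_right, smul_smul]
  simp only [h4]
  simp only [Matrix.mul_apply, Matrix.transpose_apply, P, Matrix.of_apply, Finset.sum_smul]
  have h5 : ∀ i, (∑ j, ∑ k, (e k i * e k j) • secondForm n F x (EuclideanSpace.single i 1)
      (EuclideanSpace.single j 1)) = ∑ k, ∑ j, (e k i * e k j) •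
        secondForm n F x (EuclideanSpace.single i 1) (EuclideanSpace.single j 1) :=
    fun i => Finset.sum_comm
  simp only [h5]
  exact Finset.sum_comm

lemma exists_frame {F : M → Euc m} {x : M} (h : Function.Injective (diff1 n F x)) :
    ∃ e : Fin n → Euc n, Orthonormal ℝ (fun i => diff1 n F x (e i)) := by
  have hfr : Module.finrank ℝ (diff1 n F x).range = n := by
    have := LinearMap.finrank_range_of_inj (f := (diff1 n F x : Euc n →ₗ[ℝ] Euc m)) h
    simpa using this
  let b := (stdOrthonormalBasis ℝ (diff1 n F x).range).reindex (finCongr hfr)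
  have hb : ∀ i, ∃ v, diff1 n F x v = (b i : Euc m) := fun i => (b i).2
  choose e he using hb
  refine ⟨e, ?_⟩
  have h2 : (fun i => diff1 n F x (e i)) = (fun i => ((b i : (diff1 n F x).range) : Euc m)) := by
    funext i; exact he i
  rw [h2]
  exact b.orthonormal.comp_linearIsometry (Submodule.subtypeₗᵢ _)

lemma meanCurvature_mem (F : M → Euc m) (x : M) : meanCurvature n F x ∈ normalSpace n F x := by
  unfold meanCurvature
  refine Submodule.sum_mem _ fun i _ => Submodule.sum_mem _ fun j _ => Submodule.smul_mem _ _ ?_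
  exact secondForm_mem _ _ _ _

section Sphere

variable {F : M → Euc m} {x : M}

lemma inner_self_diff1 (hF : ContMDiffAt (𝓡 n) 𝓘(ℝ, Euc m) ∞ F x) (h1 : ∀ y, ‖F y‖ = 1)
    (v : Euc n) : ⟪F x, diff1 n F x v⟫ = 0 := by
  have hd := (contDiffAt_coordRep hF).differentiableAt (by simp)
  have h := inner_fderiv_eq_zero hd (Filter.Eventually.of_forall fun y => h1 _) v
  have hx : coordRep n F x (chartAt (Euc n) x x) = F x := by simp [coordRep]
  rw [hx] at h
  exact h

lemma inner_self_diff2 (hF : ContMDiffAt (𝓡 n) 𝓘(ℝ, Euc m) ∞ F x) (h1 : ∀ y, ‖F y‖ = 1)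
    (v w : Euc n) : ⟪F x, diff2 n F x v w⟫ = - ⟪diff1 n F x v, diff1 n F x w⟫ := by
  have hd := (contDiffAt_coordRep hF).of_le two_le_infty
  have h := inner_fderiv2 hd (Filter.Eventually.of_forall fun y => h1 _) v w
  have hx : coordRep n F x (chartAt (Euc n) x x) = F x := by simp [coordRep]
  rw [hx] at h
  exact h

lemma localMax_diff (hF : ContMDiffAt (𝓡 n) 𝓘(ℝ, Euc m) ∞ F x) (a : Euc m)
    (hmax : IsLocalMax (fun y => ⟪F y, a⟫) x) :
    (∀ v, ⟪diff1 n F x v, a⟫ = 0) ∧ ∀ v, ⟪diff2 n F x v v, a⟫ ≤ 0 := by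
  have hc := contDiffAt_coordRep hF
  have hc2 := hc.of_le two_le_infty
  set y0 := chartAt (Euc n) x x with hy0
  have hx : (chartAt (Euc n) x).symm y0 = x := by simp [hy0]
  have ht : Filter.Tendsto (chartAt (Euc n) x).symm (𝓝 y0) (𝓝 x) := by
    have h := (chartAt (Euc n) x).continuousAt_symm (x := y0) (by simp [hy0])
    unfold ContinuousAt at h
    rwa [hx] at h
  have hg : IsLocalMax (fun y => ⟪coordRep n F x y, a⟫) y0 := by
    have := ht.eventually hmax
    filter_upwards [this] with y hy
    simpa [coordRep, hx] using hy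
  have hgc : ContDiffAt ℝ 2 (fun y => ⟪coordRep n F x y, a⟫) y0 := hc2.inner ℝ contDiffAt_const
  have e1 : ∀ᶠ y in 𝓝 y0, ContDiffAt ℝ 2 (coordRep n F x) y := hc2.eventually (by simp)
  have hfd : ∀ᶠ y in 𝓝 y0, ∀ v, fderiv ℝ (fun y => ⟪coordRep n F x y, a⟫) y v =
      ⟪fderiv ℝ (coordRep n F x) y v, a⟫ := by
    filter_upwards [e1] with y hy v
    have h := ((hy.differentiableAt (by norm_num)).hasFDerivAt.inner ℝ
      (hasFDerivAt_const a y)).fderiv
    rw [h]
    simp
  constructor
  · intro v
    have h1 := hfd.self_of_nhds v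
    rw [hg.fderiv_eq_zero] at h1
    simpa [diff1] using h1.symm
  · intro v
    have h1 := fderiv2_nonpos hgc hg v
    have d1 : HasFDerivAt (fderiv ℝ (coordRep n F x)) (diff2 n F x) y0 :=
      ((hc2.fderiv_right (m := 1) (by norm_num)).differentiableAt (by norm_num)).hasFDerivAt
    have d2 : HasFDerivAt (fun y => fderiv ℝ (coordRep n F x) y v) ((diff2 n F x).flip v) y0 := by
      have := d1.clm_apply (hasFDerivAt_const v y0)
      simpa using this
    have d3 := (d2.inner ℝ (hasFDerivAt_const a y0)).fderiv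
    have hgc1 : DifferentiableAt ℝ (fderiv ℝ (fun y => ⟪coordRep n F x y, a⟫)) y0 :=
      (hgc.fderiv_right (m := 1) (by norm_num)).differentiableAt (by norm_num)
    have d4 : HasFDerivAt (fun y => fderiv ℝ (fun y => ⟪coordRep n F x y, a⟫) y v)
        ((fderiv ℝ (fderiv ℝ (fun y => ⟪coordRep n F x y, a⟫)) y0).flip v) y0 := by
      have := hgc1.hasFDerivAt.clm_apply (hasFDerivAt_const v y0)
      simpa using this
    have he : (fun y => fderiv ℝ (fun y => ⟪coordRep n F x y, a⟫) y v) =ᶠ[𝓝 y0]
        fun y => ⟪fderiv ℝ (coordRep n F x) y v, a⟫ := by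
      filter_upwards [hfd] with y hy using hy v
    have d5 := congrArg (fun L => L v) (he.fderiv_eq.symm.trans d4.fderiv)
    rw [d3] at d5
    simp at d5
    rw [← d5] at h1
    exact h1

lemma inner_secondForm_self (hF : ContMDiffAt (𝓡 n) 𝓘(ℝ, Euc m) ∞ F x) (h1 : ∀ y, ‖F y‖ = 1)
    (a : Euc m) (ha : ∀ v, ⟪diff1 n F x v, a⟫ = 0) (v w : Euc n) :
    ⟪secondForm n F x v w, a⟫ = ⟪diff2 n F x v w, a⟫ +
      ⟪F x, a⟫ * ⟪diff1 n F x v, diff1 n F x w⟫ := by
  have hN : a - ⟪F x, a⟫ • F x ∈ normalSpace n F x := by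
    rw [mem_normalSpace]
    constructor
    · rw [inner_sub_right, inner_smul_right, real_inner_self_eq_norm_sq, h1]
      ring
    · intro u
      rw [inner_sub_right, inner_smul_right, ha u, real_inner_comm (F x) (diff1 n F x u),
        inner_self_diff1 hF h1]
      ring
  have hp : (normalSpace n F x).starProjection a = a - ⟪F x, a⟫ • F x := by
    have h2 := Submodule.starProjection_eq_self_iff.2 hN
    rw [map_sub, map_smul, nproj_self, smul_zero, sub_zero] at h2
    exact h2
  unfold secondForm
  rw [inner_nproj, hp, inner_sub_right, inner_smul_right, real_inner_comm (F x),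
    inner_self_diff2 hF h1]
  ring

/-- At a local maximum of a linear function `⟪F, a⟫` the mean curvature vector satisfies
`⟪H, a⟫ ≤ n ⟪F, a⟫`. -/
lemma inner_meanCurvature_le (hF : IsSphereImmersion n F) (a : Euc m)
    (hmax : IsLocalMax (fun y => ⟪F y, a⟫) x) :
    ⟪meanCurvature n F x, a⟫ ≤ n * ⟪F x, a⟫ := by
  obtain ⟨h1, h2⟩ := localMax_diff (hF.smooth x) a hmax
  obtain ⟨e, he⟩ := exists_frame (hF.injective x)
  rw [meanCurvature_eq_sum F x e he, sum_inner]
  have h3 : ∀ i, ⟪secondForm n F x (e i) (e i), a⟫ ≤ ⟪F x, a⟫ := by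
    intro i
    rw [inner_secondForm_self (hF.smooth x) hF.norm_eq_one a h1]
    have h4 := he.1 i
    rw [real_inner_self_eq_norm_sq, h4]
    have := h2 (e i)
    linarith
  calc ∑ i, ⟪secondForm n F x (e i) (e i), a⟫ ≤ ∑ _i : Fin n, ⟪F x, a⟫ :=
        Finset.sum_le_sum fun i _ => h3 i
    _ = n * ⟪F x, a⟫ := by simp

end Sphere

end Pool.Agent.H15.MCF
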