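import Mathlib
import Pool.Agent.H15.MCF.Geom

/-!
# Maximum principle for linear functions along the mean curvature flow
-/

namespace Pool.Agent.H15.MCF

open scoped Manifold ContDiff RealInnerProductSpace Topology
open Set

lemma timeDomain_Icc {T : EReal} {t : ℝ} (ht : t ∈ timeDomain T) : Icc 0 t ⊆ timeDomain T := by
  intro s hs
  refine ⟨hs.1, lt_of_le_of_lt ?_ ht.2⟩
  exact_mod_cast hs.2

lemma zero_mem_timeDomain {T : EReal} (hT : 0 < T) : (0 : ℝ) ∈ timeDomain T := ⟨le_rfl, by simpa using hT⟩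

/-- A function with a maximum at the right end of an interval has nonnegative left derivative. -/
lemma deriv_nonneg_of_max {g : ℝ → ℝ} {D t : ℝ} (ht : 0 < t)
    (hd : HasDerivWithinAt g D (Icc 0 t) t) (hmax : ∀ s ∈ Icc 0 t, g s ≤ g t) : 0 ≤ D := by
  have h1 : HasDerivWithinAt g D (Ico 0 t) t := hd.mono Ico_subset_Icc_self
  rw [hasDerivWithinAt_iff_tendsto_slope' (by simp)] at h1
  have hne : (𝓝[Ico 0 t] t).NeBot := by
    rw [← mem_closure_iff_nhdsWithin_neBot, closure_Ico ht.ne]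
    exact ⟨ht.le, le_rfl⟩
  refine ge_of_tendsto h1 ?_
  filter_upwards [self_mem_nhdsWithin] with s hs
  rw [slope_def_field]
  have h2 := hmax s ⟨hs.1, hs.2.le⟩
  exact div_nonneg_of_nonpos (by linarith) (by linarith [hs.2])

variable {n m : ℕ} {M : Type} [TopologicalSpace M] [ChartedSpace (Euc n) M]

/-- Maximum principle for a linear function on a compact subset `K` of `M`. -/
lemma max_principle {F₀ : M → Euc m} {T : EReal} {F : ℝ → M → Euc m} (hF : IsMCF n F₀ T F)
    (a : Euc m) {C : ℝ} (hC : 0 ≤ C) {K : Set M} (hK : IsCompact K)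
    (h0 : ∀ x ∈ K, ⟪F₀ x, a⟫ ≤ C)
    (hb : ∀ t ∈ timeDomain T, ∀ x ∈ K, x ∈ interior K ∨ ⟪F t x, a⟫ ≤ C)
    {t : ℝ} (ht : t ∈ timeDomain T) {x : M} (hx : x ∈ K) :
    ⟪F t x, a⟫ ≤ C * Real.exp (n * t) := by
  by_contra hcon
  push Not at hcon
  have ht0 : 0 ≤ t := ht.1
  have hsub := timeDomain_Icc ht
  have h1 : C < Real.exp (-(n * t)) * ⟪F t x, a⟫ := by
    have h2 : C = Real.exp (-(n * t)) * (C * Real.exp (n * t)) := by
      rw [mul_comm C, ← mul_assoc, ← Real.exp_add]
      simp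
    rw [h2]
    exact mul_lt_mul_of_pos_left hcon (Real.exp_pos _)
  set ε := (Real.exp (-(n * t)) * ⟪F t x, a⟫ - C) / (2 * (t + 1)) with hε
  have hε0 : 0 < ε := by
    rw [hε]
    apply div_pos <;> linarith
  let g : ℝ × M → ℝ := fun p => Real.exp (-(n * p.1)) * ⟪F p.1 p.2, a⟫ - ε * p.1
  have hgc : ContinuousOn g (Icc 0 t ×ˢ K) := by
    have h3 : ContinuousOn (fun p : ℝ × M => F p.1 p.2) (Icc 0 t ×ˢ K) :=
      hF.smooth.continuousOn.mono (prod_mono hsub (subset_univ _))
    have h4 : ContinuousOn (fun p : ℝ × M => ⟪F p.1 p.2, a⟫) (Icc 0 t ×ˢ K) :=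
      h3.inner continuousOn_const
    have h5 : ContinuousOn (fun p : ℝ × M => Real.exp (-(n * p.1))) (Icc 0 t ×ˢ K) := by
      fun_prop
    have h6 : ContinuousOn (fun p : ℝ × M => ε * p.1) (Icc 0 t ×ˢ K) := by fun_prop
    exact (h5.mul h4).sub h6
  obtain ⟨⟨s, y⟩, ⟨hs, hy⟩, hmax⟩ := (isCompact_Icc.prod hK).exists_isMaxOn
    ⟨(t, x), ⟨⟨ht0, le_rfl⟩, hx⟩⟩ hgc
  have hst : s ∈ timeDomain T := hsub hs
  have hgt : C < g (s, y) := by
    have h2 : g (t, x) ≤ g (s, y) := hmax ⟨⟨ht0, le_rfl⟩, hx⟩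
    have h3 : g (t, x) = C + ε * (2 * (t + 1)) - ε * t := by
      have : ε * (2 * (t + 1)) = Real.exp (-(n * t)) * ⟪F t x, a⟫ - C := by
        rw [hε]; field_simp
      rw [this]
      simp only [g]
      ring
    have h4 : 0 < ε * (2 * (t + 1)) - ε * t := by
      have : ε * (2 * (t + 1)) - ε * t = ε * (t + 2) := by ring
      rw [this]
      positivity
    linarith
  have hs0 : 0 < s := by
    rcases lt_or_eq_of_le hs.1 with h | h
    · exact h
    · exfalso
      simp only at h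
      subst h
      have h2 := h0 y hy
      simp only [g, hF.initial] at hgt
      simp at hgt
      linarith
  have hexp : Real.exp (-(n * s)) ≤ 1 := by
    rw [Real.exp_le_one_iff]
    have : 0 ≤ (n : ℝ) * s := by positivity
    linarith
  have hyint : y ∈ interior K := by
    rcases hb s hst y hy with h | h
    · exact h
    · exfalso
      have h2 : Real.exp (-(n * s)) * ⟪F s y, a⟫ ≤ C := by
        calc Real.exp (-(n * s)) * ⟪F s y, a⟫ ≤ Real.exp (-(n * s)) * C :=
              mul_le_mul_of_nonneg_left h (Real.exp_pos _).le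
          _ ≤ 1 * C := mul_le_mul_of_nonneg_right hexp hC
          _ = C := one_mul C
      have h3 : 0 < ε * s := mul_pos hε0 hs0
      simp only [g] at hgt
      linarith
  have hlocal : IsLocalMax (fun z => ⟪F s z, a⟫) y := by
    filter_upwards [mem_interior_iff_mem_nhds.1 hyint] with z hz
    have h2 : g (s, z) ≤ g (s, y) := hmax ⟨hs, hz⟩
    simp only [g] at h2
    have h3 : Real.exp (-(n * s)) * ⟪F s z, a⟫ ≤ Real.exp (-(n * s)) * ⟪F s y, a⟫ := by linarith
    exact le_of_mul_le_mul_left h3 (Real.exp_pos _)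
  have hH := inner_meanCurvature_le (hF.immersion s hst) a hlocal
  have hflow := hF.flow s hst y
  have hd1 : HasDerivWithinAt (fun r => F r y) (meanCurvature n (F s) y) (Icc 0 s) s :=
    hflow.mono (timeDomain_Icc hst)
  have hd2 := hd1.inner ℝ (hasDerivWithinAt_const s (Icc 0 s) a)
  have hd3 : HasDerivWithinAt (fun r => Real.exp (-(n * r))) (Real.exp (-(n * s)) * (-(n * 1)))
      (Icc 0 s) s := by
    exact ((((hasDerivAt_id s).const_mul (n : ℝ)).neg).exp).hasDerivWithinAt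
  have hd4 := (hd3.mul hd2).sub (((hasDerivWithinAt_id s (Icc 0 s)).const_mul ε))
  have hle := deriv_nonneg_of_max (g := fun r => g (r, y)) hs0 hd4 (fun r hr => by
    exact hmax ⟨⟨hr.1, hr.2.trans hs.2⟩, hy⟩)
  simp only [inner_zero_right, zero_add, mul_one] at hle
  have h5 : Real.exp (-(n * s)) * (⟪meanCurvature n (F s) y, a⟫ - n * ⟪F s y, a⟫) ≤ 0 :=
    mul_nonpos_of_nonneg_of_nonpos (Real.exp_pos _).le (by linarith)
  have h6 : Real.exp (-(n * s)) * (⟪meanCurvature n (F s) y, a⟫ - n * ⟪F s y, a⟫) =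
    Real.exp (-(n * s)) * -(n : ℝ) * ⟪F s y, a⟫ +
      Real.exp (-(n * s)) * ⟪meanCurvature n (F s) y, a⟫ := by ring
  linarith

end Pool.Agent.H15.MCF
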