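import Mathlib
import Pool.Agent.H15.MCF.Geom

/-!
# Invariance of the mean curvature flow under diffeomorphisms of the source and isometries of the
target
-/

namespace Pool.Agent.H15.MCF

open scoped Manifold ContDiff RealInnerProductSpace Topology

variable {n m : ℕ} {M : Type} [TopologicalSpace M] [ChartedSpace (Euc n) M]
variable {V : Type} [NormedAddCommGroup V] [NormedSpace ℝ V]

lemma jet1' {F : M → Euc m} {ψ : V → M} {a : V} {p : M} (hp : ψ a = p)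
    (hF : ContMDiffAt (𝓡 n) 𝓘(ℝ, Euc m) ∞ F p)
    (hψ : ContMDiffAt 𝓘(ℝ, V) (𝓡 n) ∞ ψ a) (v : V) :
    fderiv ℝ (fun y => F (ψ y)) a v =
      diff1 n F p (fderiv ℝ (fun y => chartAt (Euc n) p (ψ y)) a v) := by
  subst hp
  exact jet1 hF hψ v

lemma jet2' {F : M → Euc m} {ψ : V → M} {a : V} {p : M} (hp : ψ a = p)
    (hF : ContMDiffAt (𝓡 n) 𝓘(ℝ, Euc m) ∞ F p)
    (hψ : ContMDiffAt 𝓘(ℝ, V) (𝓡 n) ∞ ψ a) (v w : V) :
    fderiv ℝ (fderiv ℝ (fun y => F (ψ y))) a v w =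
      diff2 n F p (fderiv ℝ (fun y => chartAt (Euc n) p (ψ y)) a v)
          (fderiv ℝ (fun y => chartAt (Euc n) p (ψ y)) a w) +
        diff1 n F p
          (fderiv ℝ (fderiv ℝ (fun y => chartAt (Euc n) p (ψ y))) a v w) := by
  subst hp
  exact jet2 hF hψ v w

section

variable [IsManifold (𝓡 n) ∞ M]

lemma contMDiffAt_comp_symm {τ : M → M} (hτ : ContMDiff (𝓡 n) (𝓡 n) ∞ τ) (x : M) :
    ContMDiffAt 𝓘(ℝ, Euc n) (𝓡 n) ∞ (fun z => τ ((chartAt (Euc n) x).symm z))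
      (chartAt (Euc n) x x) := by
  have h1 : ContMDiffAt 𝓘(ℝ, Euc n) (𝓡 n) ∞ ((chartAt (Euc n) x).symm)
      (chartAt (Euc n) x x) := by
    have := contMDiffOn_chart_symm (I := 𝓡 n) (n := ∞) (x := x)
    exact (this _ (by simp)).contMDiffAt ((chartAt (Euc n) x).open_target.mem_nhds (by simp))
  have h2 := hτ.contMDiffAt (x := (chartAt (Euc n) x).symm (chartAt (Euc n) x x))
  exact h2.comp _ h1

/-- The differential of `τ` at `x`, in charts. -/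
noncomputable def dmap (n : ℕ) {M : Type} [TopologicalSpace M] [ChartedSpace (Euc n) M]
    (τ : M → M) (x : M) : Euc n →L[ℝ] Euc n :=
  fderiv ℝ (fun z => chartAt (Euc n) (τ x) (τ ((chartAt (Euc n) x).symm z)))
    (chartAt (Euc n) x x)

/-- The second derivative of `τ` at `x`, in charts. -/
noncomputable def dmap2 (n : ℕ) {M : Type} [TopologicalSpace M] [ChartedSpace (Euc n) M]
    (τ : M → M) (x : M) : Euc n →L[ℝ] Euc n →L[ℝ] Euc n :=
  fderiv ℝ (fderiv ℝ (fun z => chartAt (Euc n) (τ x) (τ ((chartAt (Euc n) x).symm z))))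
    (chartAt (Euc n) x x)

variable {F : M → Euc m} {τ : M → M} (σ : Euc m ≃ₗᵢ[ℝ] Euc m)

lemma diff1_comp (hF : ContMDiff (𝓡 n) 𝓘(ℝ, Euc m) ∞ F) (hτ : ContMDiff (𝓡 n) (𝓡 n) ∞ τ)
    (x : M) (v : Euc n) :
    diff1 n (fun y => σ (F (τ y))) x v = σ (diff1 n F (τ x) (dmap n τ x v)) := by
  have h := jet1' (V := Euc n) (a := chartAt (Euc n) x x)
    (ψ := fun z => τ ((chartAt (Euc n) x).symm z)) (p := τ x) (by simp) (hF (τ x))
    (contMDiffAt_comp_symm hτ x) v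
  unfold dmap
  rw [← h]
  have h2 : coordRep n (fun y => σ (F (τ y))) x =
      σ ∘ (fun z => F (τ ((chartAt (Euc n) x).symm z))) := rfl
  unfold diff1
  rw [h2, σ.comp_fderiv]
  rfl

lemma diff2_comp (hF : ContMDiff (𝓡 n) 𝓘(ℝ, Euc m) ∞ F) (hτ : ContMDiff (𝓡 n) (𝓡 n) ∞ τ)
    (x : M) (v w : Euc n) :
    diff2 n (fun y => σ (F (τ y))) x v w =
      σ (diff2 n F (τ x) (dmap n τ x v) (dmap n τ x w) +
        diff1 n F (τ x) (dmap2 n τ x v w)) := by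
  have h := jet2' (V := Euc n) (a := chartAt (Euc n) x x)
    (ψ := fun z => τ ((chartAt (Euc n) x).symm z)) (p := τ x) (by simp) (hF (τ x))
    (contMDiffAt_comp_symm hτ x) v w
  unfold dmap dmap2
  rw [← h]
  have h2 : coordRep n (fun y => σ (F (τ y))) x =
      σ ∘ (fun z => F (τ ((chartAt (Euc n) x).symm z))) := rfl
  have h3 : fderiv ℝ (σ ∘ (fun z => F (τ ((chartAt (Euc n) x).symm z)))) =
      fun z => ((σ.toContinuousLinearEquiv : Euc m ≃L[ℝ] Euc m) : Euc m →L[ℝ] Euc m).comp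
        (fderiv ℝ (fun z => F (τ ((chartAt (Euc n) x).symm z))) z) := by
    funext z
    exact σ.comp_fderiv
  unfold diff2
  rw [h2, h3]
  have hc : ContMDiffAt 𝓘(ℝ, Euc n) 𝓘(ℝ, Euc m) ∞
      (fun z => F (τ ((chartAt (Euc n) x).symm z))) (chartAt (Euc n) x x) :=
    (hF.contMDiffAt).comp _ (contMDiffAt_comp_symm hτ x)
  have hc2 : ContDiffAt ℝ 2 (fun z => F (τ ((chartAt (Euc n) x).symm z)))
      (chartAt (Euc n) x x) := hc.contDiffAt.of_le two_le_infty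
  have hd : DifferentiableAt ℝ (fderiv ℝ (fun z => F (τ ((chartAt (Euc n) x).symm z))))
      (chartAt (Euc n) x x) :=
    (hc2.fderiv_right (m := 1) (by norm_num)).differentiableAt (by norm_num)
  have h4 := ((hasFDerivAt_const
    (((σ.toContinuousLinearEquiv : Euc m ≃L[ℝ] Euc m) : Euc m →L[ℝ] Euc m))
      (chartAt (Euc n) x x)).clm_comp hd.hasFDerivAt).fderiv
  rw [h4]
  simp

lemma dmap_surjective {τ' : M → M} (hF : IsSphereImmersion n F)
    (hτ : ContMDiff (𝓡 n) (𝓡 n) ∞ τ) (hτ' : ContMDiff (𝓡 n) (𝓡 n) ∞ τ')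
    (h1 : ∀ y, τ (τ' y) = y) (h2 : ∀ y, τ' (τ y) = y) (x : M) :
    Function.Surjective (dmap n τ x) := by
  intro w
  refine ⟨dmap n τ' (τ x) w, ?_⟩
  apply hF.injective (τ x)
  let e : Euc m ≃ₗᵢ[ℝ] Euc m := LinearIsometryEquiv.refl ℝ (Euc m)
  have hG : ContMDiff (𝓡 n) 𝓘(ℝ, Euc m) ∞ (fun y => e (F (τ y))) :=
    e.contDiff.contMDiff.comp (hF.smooth.comp hτ)
  have a1 := diff1_comp e hG hτ' (τ x) w
  have a2 : (fun y => e (e (F (τ (τ' y))))) = F := by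
    funext y
    rw [h1]
    rfl
  rw [a2] at a1
  rw [a1]
  have a3 := diff1_comp e hF.smooth hτ (τ' (τ x)) (dmap n τ' (τ x) w)
  rw [a3]
  rw [h2]
  rfl

lemma immersion_comp {τ' : M → M} (hF : IsSphereImmersion n F)
    (hτ : ContMDiff (𝓡 n) (𝓡 n) ∞ τ) (hτ' : ContMDiff (𝓡 n) (𝓡 n) ∞ τ')
    (h1 : ∀ y, τ (τ' y) = y) (h2 : ∀ y, τ' (τ y) = y) :
    IsSphereImmersion n (fun y => σ (F (τ y))) := by
  refine ⟨σ.contDiff.contMDiff.comp (hF.smooth.comp hτ), fun x => ?_, fun x => ?_⟩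
  · rw [σ.norm_map, hF.norm_eq_one]
  · have hs := dmap_surjective hF hτ hτ' h1 h2 x
    have hi : Function.Injective (dmap n τ x) :=
      (LinearMap.injective_iff_surjective (f := (dmap n τ x : Euc n →ₗ[ℝ] Euc n))).2 hs
    intro v w hvw
    rw [diff1_comp σ hF.smooth hτ, diff1_comp σ hF.smooth hτ] at hvw
    exact hi (hF.injective (τ x) (σ.injective hvw))

lemma mem_normalSpace_comp {τ' : M → M} (hF : IsSphereImmersion n F)
    (hτ : ContMDiff (𝓡 n) (𝓡 n) ∞ τ) (hτ' : ContMDiff (𝓡 n) (𝓡 n) ∞ τ')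
    (h1 : ∀ y, τ (τ' y) = y) (h2 : ∀ y, τ' (τ y) = y) (x : M) (a : Euc m) :
    σ a ∈ normalSpace n (fun y => σ (F (τ y))) x ↔ a ∈ normalSpace n F (τ x) := by
  rw [mem_normalSpace, mem_normalSpace]
  rw [σ.inner_map_map]
  refine and_congr Iff.rfl ?_
  constructor
  · intro h v
    obtain ⟨u, rfl⟩ := dmap_surjective hF hτ hτ' h1 h2 x v
    have := h u
    rwa [diff1_comp σ hF.smooth hτ, σ.inner_map_map] at this
  · intro h v
    rw [diff1_comp σ hF.smooth hτ, σ.inner_map_map]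
    exact h _

lemma nproj_comp {τ' : M → M} (hF : IsSphereImmersion n F)
    (hτ : ContMDiff (𝓡 n) (𝓡 n) ∞ τ) (hτ' : ContMDiff (𝓡 n) (𝓡 n) ∞ τ')
    (h1 : ∀ y, τ (τ' y) = y) (h2 : ∀ y, τ' (τ y) = y) (x : M) (a : Euc m) :
    (normalSpace n (fun y => σ (F (τ y))) x).starProjection (σ a) =
      σ ((normalSpace n F (τ x)).starProjection a) := by
  apply Submodule.eq_starProjection_of_mem_of_inner_eq_zero
  · rw [mem_normalSpace_comp σ hF hτ hτ' h1 h2]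
    exact nproj_mem _ _ _
  · intro w hw
    obtain ⟨b, rfl⟩ := σ.surjective w
    rw [mem_normalSpace_comp σ hF hτ hτ' h1 h2] at hw
    rw [← map_sub, σ.inner_map_map]
    exact Submodule.starProjection_inner_eq_zero _ _ hw

lemma secondForm_comp {τ' : M → M} (hF : IsSphereImmersion n F)
    (hτ : ContMDiff (𝓡 n) (𝓡 n) ∞ τ) (hτ' : ContMDiff (𝓡 n) (𝓡 n) ∞ τ')
    (h1 : ∀ y, τ (τ' y) = y) (h2 : ∀ y, τ' (τ y) = y) (x : M) (v w : Euc n) :
    secondForm n (fun y => σ (F (τ y))) x v w =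
      σ (secondForm n F (τ x) (dmap n τ x v) (dmap n τ x w)) := by
  unfold secondForm
  rw [diff2_comp σ hF.smooth hτ, nproj_comp σ hF hτ hτ' h1 h2, map_add, nproj_diff1, add_zero]

lemma meanCurvature_comp {τ' : M → M} (hF : IsSphereImmersion n F)
    (hτ : ContMDiff (𝓡 n) (𝓡 n) ∞ τ) (hτ' : ContMDiff (𝓡 n) (𝓡 n) ∞ τ')
    (h1 : ∀ y, τ (τ' y) = y) (h2 : ∀ y, τ' (τ y) = y) (x : M) :
    meanCurvature n (fun y => σ (F (τ y))) x = σ (meanCurvature n F (τ x)) := by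
  have hG := immersion_comp σ hF hτ hτ' h1 h2
  obtain ⟨e, he⟩ := exists_frame (hG.injective x)
  have he2 : Orthonormal ℝ (fun i => diff1 n F (τ x) (dmap n τ x (e i))) := by
    have h3 : (fun i => diff1 n (fun y => σ (F (τ y))) x (e i)) =
        σ ∘ (fun i => diff1 n F (τ x) (dmap n τ x (e i))) := by
      funext i
      rw [diff1_comp σ hF.smooth hτ]
      rfl
    rw [h3] at he
    exact σ.toLinearIsometry.orthonormal_comp_iff.1 he
  rw [meanCurvature_eq_sum _ x e he, meanCurvature_eq_sum F (τ x) _ he2, map_sum]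
  exact Finset.sum_congr rfl fun i _ => secondForm_comp σ hF hτ hτ' h1 h2 x _ _

/-- If `F` solves the mean curvature flow, so does `σ ∘ F ∘ τ`. -/
lemma isMCF_comp {τ' : M → M} {F₀ : M → Euc m} {T : EReal} {F : ℝ → M → Euc m}
    (hF : IsMCF n F₀ T F)
    (hτ : ContMDiff (𝓡 n) (𝓡 n) ∞ τ) (hτ' : ContMDiff (𝓡 n) (𝓡 n) ∞ τ')
    (h1 : ∀ y, τ (τ' y) = y) (h2 : ∀ y, τ' (τ y) = y) :
    IsMCF n (fun y => σ (F₀ (τ y))) T (fun t y => σ (F t (τ y))) := by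
  refine ⟨hF.pos, ?_, ?_, ?_, ?_⟩
  · rw [hF.initial]
  · have hm : ContMDiff (𝓘(ℝ, ℝ).prod (𝓡 n)) (𝓘(ℝ, ℝ).prod (𝓡 n)) ∞
        (fun p : ℝ × M => (p.1, τ p.2)) :=
      contMDiff_fst.prodMk (hτ.comp contMDiff_snd)
    have h3 := hF.smooth.comp (hm.contMDiffOn (s := timeDomain T ×ˢ Set.univ))
      (fun p hp => ⟨hp.1, Set.mem_univ _⟩)
    exact σ.contDiff.contMDiff.comp_contMDiffOn h3
  · intro t ht
    exact immersion_comp σ (hF.immersion t ht) hτ hτ' h1 h2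
  · intro t ht x
    rw [meanCurvature_comp σ (hF.immersion t ht) hτ hτ' h1 h2]
    have := hF.flow t ht (τ x)
    exact (((σ.toContinuousLinearEquiv : Euc m ≃L[ℝ] Euc m) : Euc m →L[ℝ] Euc m).hasFDerivAt.comp_hasDerivWithinAt t this)

/-- A unique solution has the symmetries of the initial immersion. -/
lemma IsUniqueMaximalMCF.symmetric {τ' : M → M} {F₀ : M → Euc m} {T : EReal}
    {F : ℝ → M → Euc m} (hF : IsUniqueMaximalMCF n F₀ T F)
    (hτ : ContMDiff (𝓡 n) (𝓡 n) ∞ τ) (hτ' : ContMDiff (𝓡 n) (𝓡 n) ∞ τ')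
    (h1 : ∀ y, τ (τ' y) = y) (h2 : ∀ y, τ' (τ y) = y) (h0 : ∀ y, σ (F₀ (τ y)) = F₀ y)
    {t : ℝ} (ht : t ∈ timeDomain T) (y : M) : σ (F t (τ y)) = F t y := by
  have h3 := isMCF_comp σ hF.1 hτ hτ' h1 h2
  have h4 : (fun y => σ (F₀ (τ y))) = F₀ := funext h0
  rw [h4] at h3
  exact congrFun ((hF.2 T _ h3).2 t ht) y

end

end Pool.Agent.H15.MCF
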