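import Mathlib
import Pool.Agent.H15.MCF.Inv

/-!
# The two-sphere: the inclusion map, linear symmetries, meridians
-/

namespace Pool.Agent.H15.MCF

open scoped Manifold ContDiff RealInnerProductSpace Topology

/-- The unit sphere in `ℝ^3`. -/
abbrev S2 : Type := Metric.sphere (0 : Euc 3) 1

lemma contMDiff_coe : ContMDiff (𝓡 2) 𝓘(ℝ, Euc 3) ∞ (fun y : S2 => (y : Euc 3)) :=
  haveI : Fact (Module.finrank ℝ (Euc 3) = 2 + 1) := ⟨by simp⟩
  contMDiff_coe_sphere

lemma norm_coe (y : S2) : ‖(y : Euc 3)‖ = 1 := norm_eq_of_mem_sphere y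

/-- A linear isometry of `ℝ^3`, restricted to the sphere. -/
noncomputable def sphMap (L : Euc 3 ≃ₗᵢ[ℝ] Euc 3) (y : S2) : S2 :=
  ⟨L y, by simp⟩

@[simp] lemma coe_sphMap (L : Euc 3 ≃ₗᵢ[ℝ] Euc 3) (y : S2) : (sphMap L y : Euc 3) = L y := rfl

lemma contMDiff_sphMap (L : Euc 3 ≃ₗᵢ[ℝ] Euc 3) : ContMDiff (𝓡 2) (𝓡 2) ∞ (sphMap L) := by
  have : Fact (Module.finrank ℝ (Euc 3) = 2 + 1) := ⟨by simp⟩
  have h : ContMDiff (𝓡 2) 𝓘(ℝ, Euc 3) ∞ (fun y : S2 => L (y : Euc 3)) :=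
    L.contDiff.contMDiff.comp contMDiff_coe
  exact h.codRestrict_sphere (fun y => by simp)

lemma diff1_coe_injective (x : S2) :
    Function.Injective (diff1 2 (fun y : S2 => (y : Euc 3)) x) := by
  have : Fact (Module.finrank ℝ (Euc 3) = 2 + 1) := ⟨by simp⟩
  have h := injective_mvfderiv_subtypeVal_sphere (E := Euc 3) (n := 2) x
  rw [((contMDiff_coe x).mdifferentiableAt (by simp)).mvfderiv] at h
  simp at h
  exact h

lemma range_diff1_coe (x : S2) :
    (diff1 2 (fun y : S2 => (y : Euc 3)) x).range = (ℝ ∙ (x : Euc 3))ᗮ := by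
  have : Fact (Module.finrank ℝ (Euc 3) = 2 + 1) := ⟨by simp⟩
  have h := range_mvfderiv_subtypeVal (E := Euc 3) (n := 2) x
  rw [((contMDiff_coe x).mdifferentiableAt (by simp)).mvfderiv] at h
  simp at h
  exact h

lemma exists_diff1_coe {x : S2} {a : Euc 3} (ha : ⟪(x : Euc 3), a⟫ = 0) :
    ∃ v, diff1 2 (fun y : S2 => (y : Euc 3)) x v = a := by
  have h : a ∈ (diff1 2 (fun y : S2 => (y : Euc 3)) x).range := by
    rw [range_diff1_coe, Submodule.mem_orthogonal_singleton_iff_inner_right]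
    exact ha
  exact h

section Ambient

variable {m : ℕ} {Φ : Euc 3 → Euc m} {x : S2}

/-- First derivative of the restriction to the sphere of a map defined on `ℝ^3`. -/
lemma diff1_restrict (hΦ : ContDiffAt ℝ 2 Φ x) (v : Euc 2) :
    diff1 2 (fun y : S2 => Φ (y : Euc 3)) x v =
      fderiv ℝ Φ x (diff1 2 (fun y : S2 => (y : Euc 3)) x v) := by
  have hc := (contDiffAt_coordRep (contMDiff_coe x)).of_le two_le_infty
  have hx : coordRep 2 (fun y : S2 => (y : Euc 3)) x (chartAt (Euc 2) x x) = x := by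
    simp [coordRep]
  have hΦ' : DifferentiableAt ℝ Φ (coordRep 2 (fun y : S2 => (y : Euc 3)) x (chartAt (Euc 2) x x)) := by
    rw [hx]; exact hΦ.differentiableAt (by norm_num)
  have h := fderiv_comp _ hΦ' (hc.differentiableAt (by norm_num))
  have h2 : coordRep 2 (fun y : S2 => Φ (y : Euc 3)) x =
      Φ ∘ coordRep 2 (fun y : S2 => (y : Euc 3)) x := rfl
  unfold diff1
  rw [h2, h, hx]
  rfl

lemma diff2_restrict (hΦ : ContDiffAt ℝ 2 Φ x) (v w : Euc 2) :
    diff2 2 (fun y : S2 => Φ (y : Euc 3)) x v w =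
      fderiv ℝ (fderiv ℝ Φ) x (diff1 2 (fun y : S2 => (y : Euc 3)) x v)
        (diff1 2 (fun y : S2 => (y : Euc 3)) x w) +
      fderiv ℝ Φ x (diff2 2 (fun y : S2 => (y : Euc 3)) x v w) := by
  have hc := (contDiffAt_coordRep (contMDiff_coe x)).of_le two_le_infty
  have hx : coordRep 2 (fun y : S2 => (y : Euc 3)) x (chartAt (Euc 2) x x) = x := by
    simp [coordRep]
  have hΦ' : ContDiffAt ℝ 2 Φ (coordRep 2 (fun y : S2 => (y : Euc 3)) x (chartAt (Euc 2) x x)) := by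
    rw [hx]; exact hΦ
  have h := fderiv2_comp hΦ' hc v w
  have h2 : coordRep 2 (fun y : S2 => Φ (y : Euc 3)) x =
      Φ ∘ coordRep 2 (fun y : S2 => (y : Euc 3)) x := rfl
  unfold diff2 diff1
  rw [h2, h, hx]

/-- The second fundamental form of the restriction to the sphere of a map defined on `ℝ^3`. -/
lemma secondForm_restrict (hΦ : ContDiffAt ℝ 2 Φ x) (v w : Euc 2) :
    secondForm 2 (fun y : S2 => Φ (y : Euc 3)) x v w =
      (normalSpace 2 (fun y : S2 => Φ (y : Euc 3)) x).starProjection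
        (fderiv ℝ (fderiv ℝ Φ) x (diff1 2 (fun y : S2 => (y : Euc 3)) x v)
          (diff1 2 (fun y : S2 => (y : Euc 3)) x w) -
        ⟪diff1 2 (fun y : S2 => (y : Euc 3)) x v, diff1 2 (fun y : S2 => (y : Euc 3)) x w⟫ •
          fderiv ℝ Φ x x) := by
  have h1 := inner_self_diff2 (contMDiff_coe x) norm_coe v w
  set V := diff1 2 (fun y : S2 => (y : Euc 3)) x v
  set W := diff1 2 (fun y : S2 => (y : Euc 3)) x w
  set D := diff2 2 (fun y : S2 => (y : Euc 3)) x v w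
  have h2 : ⟪(x : Euc 3), D + ⟪V, W⟫ • (x : Euc 3)⟫ = 0 := by
    rw [inner_add_right, inner_smul_right, real_inner_self_eq_norm_sq, norm_coe, h1]
    ring
  obtain ⟨u, hu⟩ := exists_diff1_coe h2
  have h3 : diff2 2 (fun y : S2 => Φ (y : Euc 3)) x v w =
      (fderiv ℝ (fderiv ℝ Φ) x V W - ⟪V, W⟫ • fderiv ℝ Φ x x) +
        diff1 2 (fun y : S2 => Φ (y : Euc 3)) x u := by
    rw [diff2_restrict hΦ, diff1_restrict hΦ u, hu, map_add, map_smul]
    abel
  unfold secondForm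
  rw [h3, map_add, nproj_diff1, add_zero]

end Ambient

end Pool.Agent.H15.MCF
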