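import Mathlib
import Pool.Agent.H15.MCF.Sphere

/-!
# The initial immersion
-/

namespace Pool.Agent.H15.MCF

open scoped Manifold ContDiff RealInnerProductSpace Topology

/-- The scaling factor `1 / √(1 + δ²)`. -/
noncomputable def amp (δ : ℝ) : ℝ := (Real.sqrt (1 + δ ^ 2))⁻¹

lemma amp_pos (δ : ℝ) : 0 < amp δ := by
  unfold amp
  have : 0 < 1 + δ ^ 2 := by positivity
  positivity

lemma amp_sq (δ : ℝ) : amp δ ^ 2 * (1 + δ ^ 2) = 1 := by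
  unfold amp
  have h : 0 < 1 + δ ^ 2 := by positivity
  rw [inv_pow, Real.sq_sqrt h.le]
  field_simp

lemma amp_le_one (δ : ℝ) : amp δ ≤ 1 := by
  have h := amp_sq δ
  have h1 := amp_pos δ
  by_contra hc
  push Not at hc
  nlinarith [mul_pos h1 h1, sq_nonneg δ, mul_nonneg (sq_nonneg (amp δ)) (sq_nonneg δ)]

/-- Real part of the first complex coordinate. -/
noncomputable def Z1 (δ w : ℝ) : ℝ := amp δ * (4 * δ ^ 3 / (δ ^ 2 + w ^ 2) - 3 * δ)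

/-- Imaginary part of the first complex coordinate. -/
noncomputable def Z2 (δ w : ℝ) : ℝ := amp δ * (4 * δ ^ 2 * w / (δ ^ 2 + w ^ 2) - w)

noncomputable def dZ1 (δ w : ℝ) : ℝ := amp δ * (-(8 * δ ^ 3 * w) / (δ ^ 2 + w ^ 2) ^ 2)

noncomputable def dZ2 (δ w : ℝ) : ℝ :=
  amp δ * (4 * δ ^ 2 * (δ ^ 2 - w ^ 2) / (δ ^ 2 + w ^ 2) ^ 2 - 1)

noncomputable def ddZ1 (δ w : ℝ) : ℝ :=
  amp δ * (8 * δ ^ 3 * (3 * w ^ 2 - δ ^ 2) / (δ ^ 2 + w ^ 2) ^ 3)

noncomputable def ddZ2 (δ w : ℝ) : ℝ :=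
  amp δ * (8 * δ ^ 2 * w * (w ^ 2 - 3 * δ ^ 2) / (δ ^ 2 + w ^ 2) ^ 3)

lemma hasDerivAt_rho (δ w : ℝ) : HasDerivAt (fun w => δ ^ 2 + w ^ 2) (2 * w) w := by
  have := (hasDerivAt_pow 2 w).const_add (δ ^ 2)
  simpa using this

section Deriv

variable {δ : ℝ} (hδ : 0 < δ)
include hδ

lemma rho_pos (w : ℝ) : 0 < δ ^ 2 + w ^ 2 := by positivity

lemma hasDerivAt_Z1 (w : ℝ) : HasDerivAt (Z1 δ) (dZ1 δ w) w := by
  have h0 := (rho_pos hδ w).ne'
  have h := ((hasDerivAt_const w (4 * δ ^ 3)).div (hasDerivAt_rho δ w) h0).sub_const (3 * δ)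
  have h2 := h.const_mul (amp δ)
  have h3 : HasDerivAt (Z1 δ) _ w := h2
  refine h3.congr_deriv ?_
  unfold dZ1
  field_simp
  ring

lemma hasDerivAt_Z2 (w : ℝ) : HasDerivAt (Z2 δ) (dZ2 δ w) w := by
  have h0 := (rho_pos hδ w).ne'
  have h := ((((hasDerivAt_id w).const_mul (4 * δ ^ 2)).div (hasDerivAt_rho δ w) h0).sub
    (hasDerivAt_id w))
  have h2 := h.const_mul (amp δ)
  have h3 : HasDerivAt (Z2 δ) _ w := h2
  refine h3.congr_deriv ?_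
  unfold dZ2
  simp only [id]
  field_simp
  ring

lemma hasDerivAt_dZ1 (w : ℝ) : HasDerivAt (dZ1 δ) (ddZ1 δ w) w := by
  have h0 := (rho_pos hδ w).ne'
  have h := ((((hasDerivAt_id w).const_mul (8 * δ ^ 3)).neg).div
    ((hasDerivAt_rho δ w).pow 2) (pow_ne_zero 2 h0))
  have h2 := h.const_mul (amp δ)
  have h3 : HasDerivAt (dZ1 δ) _ w := h2
  refine h3.congr_deriv ?_
  unfold ddZ1
  simp only [id, Pi.pow_apply, Pi.neg_apply, Nat.cast_ofNat, Nat.add_one_sub_one, pow_one]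
  field_simp
  ring

lemma hasDerivAt_dZ2 (w : ℝ) : HasDerivAt (dZ2 δ) (ddZ2 δ w) w := by
  have h0 := (rho_pos hδ w).ne'
  have h1 : HasDerivAt (fun w => 4 * δ ^ 2 * (δ ^ 2 - w ^ 2)) (4 * δ ^ 2 * (-(2 * w))) w := by
    have := ((hasDerivAt_pow 2 w).const_sub (δ ^ 2)).const_mul (4 * δ ^ 2)
    simpa using this
  have h := (h1.div ((hasDerivAt_rho δ w).pow 2) (pow_ne_zero 2 h0)).sub_const 1
  have h2 := h.const_mul (amp δ)
  have h3 : HasDerivAt (dZ2 δ) _ w := h2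
  refine h3.congr_deriv ?_
  unfold ddZ2
  simp only [Pi.pow_apply, Nat.cast_ofNat, Nat.add_one_sub_one, pow_one]
  field_simp
  ring

end Deriv

/-- Basis vectors of `ℝ^4`. -/
noncomputable abbrev bb (i : Fin 4) : Euc 4 := EuclideanSpace.single i (1 : ℝ)

/-- Coordinate functions on `ℝ^3`. -/
noncomputable abbrev pr (i : Fin 3) : Euc 3 →L[ℝ] ℝ := EuclideanSpace.proj i

/-- The initial immersion, extended to `ℝ^3`. -/
noncomputable def Phi (δ : ℝ) (y : Euc 3) : Euc 4 :=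
  Z1 δ (y 2) • bb 0 + Z2 δ (y 2) • bb 1 + (amp δ * y 0) • bb 2 + (amp δ * y 1) • bb 3

noncomputable def dPhi (δ : ℝ) (y : Euc 3) : Euc 3 →L[ℝ] Euc 4 :=
  dZ1 δ (y 2) • (pr 2).smulRight (bb 0) + dZ2 δ (y 2) • (pr 2).smulRight (bb 1) +
    amp δ • (pr 0).smulRight (bb 2) + amp δ • (pr 1).smulRight (bb 3)

noncomputable def ddPhi (δ : ℝ) (y : Euc 3) : Euc 3 →L[ℝ] Euc 3 →L[ℝ] Euc 4 :=
  (ddZ1 δ (y 2) • pr 2).smulRight ((pr 2).smulRight (bb 0)) +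
    (ddZ2 δ (y 2) • pr 2).smulRight ((pr 2).smulRight (bb 1))

section Deriv2

variable {δ : ℝ} (hδ : 0 < δ)
include hδ

lemma hasFDerivAt_Phi (y : Euc 3) : HasFDerivAt (Phi δ) (dPhi δ y) y := by
  have hp : ∀ i : Fin 3, HasFDerivAt (fun y : Euc 3 => y i) (pr i) y := fun i =>
    (pr i).hasFDerivAt
  have h1 := ((hasDerivAt_Z1 hδ (y 2)).comp_hasFDerivAt y (hp 2)).smul_const (bb 0)
  have h2 := ((hasDerivAt_Z2 hδ (y 2)).comp_hasFDerivAt y (hp 2)).smul_const (bb 1)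
  have h3 := ((hp 0).const_mul (amp δ)).smul_const (bb 2)
  have h4 := ((hp 1).const_mul (amp δ)).smul_const (bb 3)
  have h := ((h1.add h2).add h3).add h4
  have h' : HasFDerivAt (Phi δ) _ y := h
  refine h'.congr_fderiv ?_
  unfold dPhi
  refine ContinuousLinearMap.ext fun v => ?_
  simp [mul_smul]

lemma fderiv_Phi : fderiv ℝ (Phi δ) = dPhi δ := funext fun y => (hasFDerivAt_Phi hδ y).fderiv

lemma hasFDerivAt_dPhi (y : Euc 3) : HasFDerivAt (dPhi δ) (ddPhi δ y) y := by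
  have hp : ∀ i : Fin 3, HasFDerivAt (fun y : Euc 3 => y i) (pr i) y := fun i =>
    (pr i).hasFDerivAt
  have h1 := ((hasDerivAt_dZ1 hδ (y 2)).comp_hasFDerivAt y (hp 2)).smul_const
    ((pr 2).smulRight (bb 0))
  have h2 := ((hasDerivAt_dZ2 hδ (y 2)).comp_hasFDerivAt y (hp 2)).smul_const
    ((pr 2).smulRight (bb 1))
  have h := ((h1.add h2).add_const (amp δ • (pr 0).smulRight (bb 2))).add_const
    (amp δ • (pr 1).smulRight (bb 3))
  have h' : HasFDerivAt (dPhi δ) _ y := h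
  refine h'.congr_fderiv ?_
  unfold ddPhi
  rfl

lemma contDiff_Z1 : ContDiff ℝ ∞ (Z1 δ) := by
  unfold Z1
  have h : ∀ w : ℝ, δ ^ 2 + w ^ 2 ≠ 0 := fun w => (rho_pos hδ w).ne'
  fun_prop (disch := exact h _)

lemma contDiff_Z2 : ContDiff ℝ ∞ (Z2 δ) := by
  unfold Z2
  have h : ∀ w : ℝ, δ ^ 2 + w ^ 2 ≠ 0 := fun w => (rho_pos hδ w).ne'
  fun_prop (disch := exact h _)

lemma contDiff_Phi : ContDiff ℝ ∞ (Phi δ) := by
  have hp : ∀ i : Fin 3, ContDiff ℝ ∞ (fun y : Euc 3 => y i) := fun i => (pr i).contDiff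
  unfold Phi
  exact (((((contDiff_Z1 hδ).comp (hp 2)).smul contDiff_const).add
    (((contDiff_Z2 hδ).comp (hp 2)).smul contDiff_const)).add
    ((contDiff_const.mul (hp 0)).smul contDiff_const)).add
    ((contDiff_const.mul (hp 1)).smul contDiff_const)

end Deriv2

lemma inner3 (a b : Euc 3) : ⟪a, b⟫ = a 0 * b 0 + a 1 * b 1 + a 2 * b 2 := by
  simp [PiLp.inner_apply, Fin.sum_univ_three, mul_comm]

lemma inner4 (a b : Euc 4) : ⟪a, b⟫ = a 0 * b 0 + a 1 * b 1 + a 2 * b 2 + a 3 * b 3 := by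
  simp [PiLp.inner_apply, Fin.sum_univ_four, mul_comm]

lemma norm_sq3 (a : Euc 3) : ‖a‖ ^ 2 = a 0 ^ 2 + a 1 ^ 2 + a 2 ^ 2 := by
  rw [← real_inner_self_eq_norm_sq, inner3]; ring

lemma norm_sq4 (a : Euc 4) : ‖a‖ ^ 2 = a 0 ^ 2 + a 1 ^ 2 + a 2 ^ 2 + a 3 ^ 2 := by
  rw [← real_inner_self_eq_norm_sq, inner4]; ring

lemma sphere_eq (y : S2) : (y : Euc 3) 0 ^ 2 + (y : Euc 3) 1 ^ 2 + (y : Euc 3) 2 ^ 2 = 1 := by
  rw [← norm_sq3, norm_coe]; norm_num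

lemma Phi_zero (δ : ℝ) (y : Euc 3) : Phi δ y 0 = Z1 δ (y 2) := by simp [Phi]
lemma Phi_one (δ : ℝ) (y : Euc 3) : Phi δ y 1 = Z2 δ (y 2) := by simp [Phi]
lemma Phi_two (δ : ℝ) (y : Euc 3) : Phi δ y 2 = amp δ * y 0 := by simp [Phi]
lemma Phi_three (δ : ℝ) (y : Euc 3) : Phi δ y 3 = amp δ * y 1 := by simp [Phi]

lemma dPhi_zero (δ : ℝ) (y v : Euc 3) : dPhi δ y v 0 = dZ1 δ (y 2) * v 2 := by simp [dPhi]
lemma dPhi_one (δ : ℝ) (y v : Euc 3) : dPhi δ y v 1 = dZ2 δ (y 2) * v 2 := by simp [dPhi]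
lemma dPhi_two (δ : ℝ) (y v : Euc 3) : dPhi δ y v 2 = amp δ * v 0 := by simp [dPhi]
lemma dPhi_three (δ : ℝ) (y v : Euc 3) : dPhi δ y v 3 = amp δ * v 1 := by simp [dPhi]

lemma ddPhi_zero (δ : ℝ) (y v w : Euc 3) : ddPhi δ y v w 0 = ddZ1 δ (y 2) * v 2 * w 2 := by
  simp [ddPhi]
lemma ddPhi_one (δ : ℝ) (y v w : Euc 3) : ddPhi δ y v w 1 = ddZ2 δ (y 2) * v 2 * w 2 := by
  simp [ddPhi]
lemma ddPhi_two (δ : ℝ) (y v w : Euc 3) : ddPhi δ y v w 2 = 0 := by simp [ddPhi]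
lemma ddPhi_three (δ : ℝ) (y v w : Euc 3) : ddPhi δ y v w 3 = 0 := by simp [ddPhi]

section Algebra

variable {δ : ℝ} (hδ : 0 < δ)
include hδ

lemma Z_sq (w : ℝ) : Z1 δ w ^ 2 + Z2 δ w ^ 2 = amp δ ^ 2 * (δ ^ 2 + w ^ 2) := by
  have h0 := (rho_pos hδ w).ne'
  unfold Z1 Z2
  field_simp
  ring

lemma dZ_sq (w : ℝ) : dZ1 δ w ^ 2 + dZ2 δ w ^ 2 =
    amp δ ^ 2 * (1 + 8 * δ ^ 2 / (δ ^ 2 + w ^ 2)) := by
  have h0 := (rho_pos hδ w).ne'
  unfold dZ1 dZ2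
  field_simp
  ring

end Algebra

/-- The initial immersion. -/
noncomputable def F0 (δ : ℝ) (y : S2) : Euc 4 := Phi δ y

section F0

variable {δ : ℝ} (hδ : 0 < δ)
include hδ

lemma norm_F0 (y : S2) : ‖F0 δ y‖ = 1 := by
  have h : ‖F0 δ y‖ ^ 2 = 1 := by
    unfold F0
    rw [norm_sq4, Phi_zero, Phi_one, Phi_two, Phi_three, Z_sq hδ]
    have h1 := sphere_eq y
    have h2 := amp_sq δ
    linear_combination (amp δ ^ 2) * h1 + h2
  have h3 := norm_nonneg (F0 δ y)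
  nlinarith

lemma diff1_F0 (x : S2) (v : Euc 2) : diff1 2 (F0 δ) x v =
    dPhi δ x (diff1 2 (fun y : S2 => (y : Euc 3)) x v) := by
  have h := diff1_restrict (x := x) ((contDiff_Phi hδ).contDiffAt.of_le two_le_infty) v
  rw [fderiv_Phi hδ] at h
  exact h

lemma dPhi_injective (y : Euc 3) : Function.Injective (dPhi δ y) := by
  rw [injective_iff_map_eq_zero]
  intro v hv
  have e0 := dPhi_zero δ y v
  have e1 := dPhi_one δ y v
  have e2 := dPhi_two δ y v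
  have e3 := dPhi_three δ y v
  rw [hv] at e0 e1 e2 e3
  have ha := (amp_pos δ).ne'
  have h0 : v 0 = 0 := by
    have : amp δ * v 0 = 0 := by simpa using e2.symm
    exact (mul_eq_zero.1 this).resolve_left ha
  have h1 : v 1 = 0 := by
    have : amp δ * v 1 = 0 := by simpa using e3.symm
    exact (mul_eq_zero.1 this).resolve_left ha
  have h2 : v 2 = 0 := by
    have a1 : dZ1 δ (y 2) * v 2 = 0 := by simpa using e0.symm
    have a2 : dZ2 δ (y 2) * v 2 = 0 := by simpa using e1.symm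
    by_contra hne
    have b1 := (mul_eq_zero.1 a1).resolve_right hne
    have b2 := (mul_eq_zero.1 a2).resolve_right hne
    have h := dZ_sq hδ (y 2)
    rw [b1, b2] at h
    have h3 : 0 < amp δ ^ 2 * (1 + 8 * δ ^ 2 / (δ ^ 2 + y 2 ^ 2)) := by
      have := rho_pos hδ (y 2)
      have := amp_pos δ
      positivity
    rw [← h] at h3
    norm_num at h3
  ext i
  fin_cases i
  · simpa using h0
  · simpa using h1
  · simpa using h2

lemma immersion_F0 : IsSphereImmersion 2 (F0 δ) := by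
  refine ⟨?_, norm_F0 hδ, fun x => ?_⟩
  · exact (contDiff_Phi hδ).contMDiff.comp contMDiff_coe
  · intro v w hvw
    rw [diff1_F0 hδ, diff1_F0 hδ] at hvw
    exact diff1_coe_injective x (dPhi_injective hδ _ hvw)

end F0

end Pool.Agent.H15.MCF
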