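import Mathlib
import Pool.Agent.H15.MCF.Init

/-!
# Curvature of the initial immersion
-/

namespace Pool.Agent.H15.MCF

open scoped Manifold ContDiff RealInnerProductSpace Topology

lemma nproj_hypersurface {M : Type} [TopologicalSpace M] [ChartedSpace (Euc 2) M]
    {F : M → Euc 4} (hF : IsSphereImmersion 2 F) {x : M} {ν : Euc 4}
    (hν : ν ∈ normalSpace 2 F x) (hν0 : ν ≠ 0) (a : Euc 4) :
    (normalSpace 2 F x).starProjection a = (⟪ν, a⟫ / ‖ν‖ ^ 2) • ν := by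
  have hF0 : F x ≠ 0 := by
    intro h
    have := hF.norm_eq_one x
    rw [h, norm_zero] at this
    norm_num at this
  have h1 : Module.finrank ℝ (Submodule.span ℝ {F x} : Submodule ℝ (Euc 4)) = 1 :=
    finrank_span_singleton hF0
  have h2 : Module.finrank ℝ (diff1 2 F x).range = 2 := by
    have := LinearMap.finrank_range_of_inj (f := (diff1 2 F x : Euc 2 →ₗ[ℝ] Euc 4))
      (hF.injective x)
    simpa using this
  have h3 : (Submodule.span ℝ {F x} ⊓ (diff1 2 F x).range : Submodule ℝ (Euc 4)) = ⊥ := by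
    rw [Submodule.eq_bot_iff]
    rintro a ⟨ha1, ⟨v, hv⟩⟩
    obtain ⟨c, rfl⟩ := Submodule.mem_span_singleton.1 ha1
    have h4 := inner_self_diff1 (hF.smooth x) hF.norm_eq_one v
    have h5 : diff1 2 F x v = c • F x := hv
    rw [h5, inner_smul_right, real_inner_self_eq_norm_sq, hF.norm_eq_one] at h4
    have : c = 0 := by linarith
    rw [this, zero_smul]
  have h4 := Submodule.finrank_sup_add_finrank_inf_eq
    (Submodule.span ℝ {F x} : Submodule ℝ (Euc 4)) (diff1 2 F x).range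
  rw [h3, h1, h2, finrank_bot] at h4
  have h5 := Submodule.finrank_add_finrank_orthogonal
    (Submodule.span ℝ {F x} ⊔ (diff1 2 F x).range : Submodule ℝ (Euc 4))
  have h6 : Module.finrank ℝ (normalSpace 2 F x) = 1 := by
    have h7 : Module.finrank ℝ (Euc 4) = 4 := by simp
    unfold normalSpace
    omega
  have h7 : (ℝ ∙ ν) = normalSpace 2 F x := by
    apply Submodule.eq_of_le_of_finrank_eq
    · rw [Submodule.span_singleton_le_iff_mem]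
      exact hν
    · rw [h6, finrank_span_singleton hν0]
  apply Submodule.eq_starProjection_of_mem_of_inner_eq_zero
  · exact Submodule.smul_mem _ _ hν
  · intro w hw
    rw [← h7] at hw
    obtain ⟨k, rfl⟩ := Submodule.mem_span_singleton.1 hw
    have hn : ‖ν‖ ^ 2 ≠ 0 := pow_ne_zero 2 (norm_ne_zero_iff.2 hν0)
    rw [inner_smul_right, inner_sub_left, inner_smul_left, real_inner_self_eq_norm_sq,
      real_inner_comm ν a]
    simp only [conj_trivial]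
    field_simp
    ring

/-- A normal vector field of the initial immersion. -/
noncomputable def nu (δ : ℝ) (y : Euc 3) : Euc 4 :=
  ((δ ^ 3 - 3 * δ * y 2 ^ 2) * (-(3 * δ * (1 - y 2 ^ 2))) -
    (3 * δ ^ 2 * y 2 - y 2 ^ 3) * (y 2 * (1 + δ ^ 2))) • bb 0 +
  ((δ ^ 3 - 3 * δ * y 2 ^ 2) * (y 2 * (1 + δ ^ 2)) +
    (3 * δ ^ 2 * y 2 - y 2 ^ 3) * (-(3 * δ * (1 - y 2 ^ 2)))) • bb 1 +
  (3 * δ * (δ ^ 2 + y 2 ^ 2) ^ 2 * y 0) • bb 2 +
  (3 * δ * (δ ^ 2 + y 2 ^ 2) ^ 2 * y 1) • bb 3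

lemma nu_zero (δ : ℝ) (y : Euc 3) : nu δ y 0 =
    (δ ^ 3 - 3 * δ * y 2 ^ 2) * (-(3 * δ * (1 - y 2 ^ 2))) -
    (3 * δ ^ 2 * y 2 - y 2 ^ 3) * (y 2 * (1 + δ ^ 2)) := by simp [nu]
lemma nu_one (δ : ℝ) (y : Euc 3) : nu δ y 1 =
    (δ ^ 3 - 3 * δ * y 2 ^ 2) * (y 2 * (1 + δ ^ 2)) +
    (3 * δ ^ 2 * y 2 - y 2 ^ 3) * (-(3 * δ * (1 - y 2 ^ 2))) := by simp [nu]
lemma nu_two (δ : ℝ) (y : Euc 3) : nu δ y 2 = 3 * δ * (δ ^ 2 + y 2 ^ 2) ^ 2 * y 0 := by simp [nu]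
lemma nu_three (δ : ℝ) (y : Euc 3) : nu δ y 3 = 3 * δ * (δ ^ 2 + y 2 ^ 2) ^ 2 * y 1 := by
  simp [nu]

section

variable {δ : ℝ} (hδ : 0 < δ)
include hδ

lemma inner_F0_nu (x : S2) : ⟪F0 δ x, nu δ x⟫ = 0 := by
  have h0 := (rho_pos hδ ((x : Euc 3) 2)).ne'
  have h1 := sphere_eq x
  unfold F0
  rw [inner4, Phi_zero, Phi_one, Phi_two, Phi_three, nu_zero, nu_one, nu_two, nu_three]
  unfold Z1 Z2
  generalize (x : Euc 3) 0 = a at *
  generalize (x : Euc 3) 1 = b at *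
  generalize (x : Euc 3) 2 = w at *
  have h2 : a ^ 2 = 1 - w ^ 2 - b ^ 2 := by linarith
  field_simp
  ring_nf
  rw [h2]
  ring

lemma inner_dPhi_nu (x V : Euc 3) : ⟪dPhi δ x V, nu δ x⟫ =
    amp δ * (3 * δ * (δ ^ 2 + x 2 ^ 2) ^ 2) * (x 0 * V 0 + x 1 * V 1 + x 2 * V 2) := by
  have h0 := (rho_pos hδ (x 2)).ne'
  rw [inner4, dPhi_zero, dPhi_one, dPhi_two, dPhi_three, nu_zero, nu_one, nu_two, nu_three]
  unfold dZ1 dZ2
  generalize x 0 = a at *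
  generalize x 1 = b at *
  generalize x 2 = w at *
  field_simp
  ring

lemma inner_ddPhi_nu (x V W : Euc 3) : ⟪ddPhi δ x V W, nu δ x⟫ =
    24 * amp δ * δ ^ 3 * (1 - x 2 ^ 2) * (V 2 * W 2) := by
  have h0 := (rho_pos hδ (x 2)).ne'
  rw [inner4, ddPhi_zero, ddPhi_one, ddPhi_two, ddPhi_three, nu_zero, nu_one, nu_two, nu_three]
  unfold ddZ1 ddZ2
  generalize x 0 = a at *
  generalize x 1 = b at *
  generalize x 2 = w at *
  field_simp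
  ring

omit hδ in
lemma norm_nu (δ : ℝ) (x : S2) : ‖nu δ x‖ ^ 2 = (δ ^ 2 + (x : Euc 3) 2 ^ 2) ^ 3 * (1 + δ ^ 2) *
    (δ ^ 2 + (x : Euc 3) 2 ^ 2 + 8 * δ ^ 2 * (1 - (x : Euc 3) 2 ^ 2)) := by
  have h1 := sphere_eq x
  rw [norm_sq4, nu_zero, nu_one, nu_two, nu_three]
  generalize (x : Euc 3) 0 = a at *
  generalize (x : Euc 3) 1 = b at *
  generalize (x : Euc 3) 2 = w at *
  have h2 : a ^ 2 = 1 - w ^ 2 - b ^ 2 := by linarith
  ring_nf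
  rw [h2]
  ring

lemma norm_nu_pos (x : S2) : 0 < ‖nu δ x‖ ^ 2 := by
  rw [norm_nu]
  have h1 := sphere_eq x
  have h2 := rho_pos hδ ((x : Euc 3) 2)
  have h4 := sq_nonneg ((x : Euc 3) 0)
  have h5 := sq_nonneg ((x : Euc 3) 1)
  have h3 : 0 ≤ 1 - (x : Euc 3) 2 ^ 2 := by linarith
  positivity

omit hδ in
lemma inner_diff1_coe (x : S2) (v : Euc 2) :
    (x : Euc 3) 0 * diff1 2 (fun y : S2 => (y : Euc 3)) x v 0 +
      (x : Euc 3) 1 * diff1 2 (fun y : S2 => (y : Euc 3)) x v 1 +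
      (x : Euc 3) 2 * diff1 2 (fun y : S2 => (y : Euc 3)) x v 2 = 0 := by
  rw [← inner3]
  exact inner_self_diff1 (contMDiff_coe x) norm_coe v

lemma nu_mem (x : S2) : nu δ x ∈ normalSpace 2 (F0 δ) x := by
  rw [mem_normalSpace]
  refine ⟨inner_F0_nu hδ x, fun v => ?_⟩
  rw [diff1_F0 hδ, inner_dPhi_nu hδ, inner_diff1_coe, mul_zero]

/-- The scalar second fundamental form with respect to `nu`. -/
noncomputable def hh (δ : ℝ) (x V W : Euc 3) : ℝ :=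
  3 * amp δ * δ * (8 * δ ^ 2 * (1 - x 2 ^ 2) * (V 2 * W 2) -
    (δ ^ 2 + x 2 ^ 2) ^ 2 * (V 0 * W 0 + V 1 * W 1 + V 2 * W 2))

lemma secondForm_F0 (x : S2) (v w : Euc 2) :
    secondForm 2 (F0 δ) x v w = (hh δ x (diff1 2 (fun y : S2 => (y : Euc 3)) x v)
      (diff1 2 (fun y : S2 => (y : Euc 3)) x w) / ‖nu δ x‖ ^ 2) • nu δ x := by
  have h := secondForm_restrict (x := x) ((contDiff_Phi hδ).contDiffAt.of_le two_le_infty) v w
  have hn : nu δ x ≠ 0 := by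
    intro h0
    have := norm_nu_pos hδ x
    rw [h0, norm_zero] at this
    norm_num at this
  have hp := nproj_hypersurface (immersion_F0 hδ) (nu_mem hδ x) hn
  have h2 : secondForm 2 (F0 δ) x v w = _ := h
  rw [h2]
  rw [show (fun y : S2 => Phi δ (y : Euc 3)) = F0 δ from rfl, hp]
  congr 2
  rw [fderiv_Phi hδ, (hasFDerivAt_dPhi hδ x).fderiv]
  set V := diff1 2 (fun y : S2 => (y : Euc 3)) x v
  set W := diff1 2 (fun y : S2 => (y : Euc 3)) x w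
  rw [real_inner_comm, inner_sub_left, inner_smul_left, inner_ddPhi_nu hδ, inner_dPhi_nu hδ,
    inner3 V W]
  have h1 := sphere_eq x
  unfold hh
  simp only [conj_trivial]
  linear_combination (-(V 0 * W 0 + V 1 * W 1 + V 2 * W 2)) *
    (amp δ * (3 * δ * (δ ^ 2 + (x : Euc 3) 2 ^ 2) ^ 2)) * h1

omit hδ in
lemma cross_identity {x0 x1 x2 a0 a1 a2 b0 b1 b2 : ℝ} (h : x0 ^ 2 + x1 ^ 2 + x2 ^ 2 = 1)
    (ha : x0 * a0 + x1 * a1 + x2 * a2 = 0) (hb : x0 * b0 + x1 * b1 + x2 * b2 = 0) :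
    a2 ^ 2 * (b0 ^ 2 + b1 ^ 2 + b2 ^ 2) + b2 ^ 2 * (a0 ^ 2 + a1 ^ 2 + a2 ^ 2) -
      2 * (a2 * b2) * (a0 * b0 + a1 * b1 + a2 * b2) =
    ((a0 ^ 2 + a1 ^ 2 + a2 ^ 2) * (b0 ^ 2 + b1 ^ 2 + b2 ^ 2) -
      (a0 * b0 + a1 * b1 + a2 * b2) ^ 2) * (1 - x2 ^ 2) := by
  -- the cross product `c = a × b` equals `κ x`
  set c0 := a1 * b2 - a2 * b1 with hc0
  set c1 := a2 * b0 - a0 * b2 with hc1
  set c2 := a0 * b1 - a1 * b0 with hc2
  set κ := x0 * c0 + x1 * c1 + x2 * c2 with hκ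
  have e01 : x0 * c1 = x1 * c0 := by
    rw [hc0, hc1]; linear_combination a2 * hb - b2 * ha
  have e02 : x0 * c2 = x2 * c0 := by
    rw [hc0, hc2]; linear_combination -a1 * hb + b1 * ha
  have e12 : x1 * c2 = x2 * c1 := by
    rw [hc1, hc2]; linear_combination a0 * hb - b0 * ha
  have f0 : c0 = κ * x0 := by
    rw [hκ]; linear_combination (-c0) * h - x1 * e01 - x2 * e02
  have f1 : c1 = κ * x1 := by
    rw [hκ]; linear_combination (-c1) * h + x0 * e01 - x2 * e12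
  have f2 : c2 = κ * x2 := by
    rw [hκ]; linear_combination (-c2) * h + x0 * e02 + x1 * e12
  have g1 : a2 ^ 2 * (b0 ^ 2 + b1 ^ 2 + b2 ^ 2) + b2 ^ 2 * (a0 ^ 2 + a1 ^ 2 + a2 ^ 2) -
      2 * (a2 * b2) * (a0 * b0 + a1 * b1 + a2 * b2) = c1 ^ 2 + c0 ^ 2 := by
    rw [hc0, hc1]; ring
  have g2 : (a0 ^ 2 + a1 ^ 2 + a2 ^ 2) * (b0 ^ 2 + b1 ^ 2 + b2 ^ 2) -
      (a0 * b0 + a1 * b1 + a2 * b2) ^ 2 = c0 ^ 2 + c1 ^ 2 + c2 ^ 2 := by
    rw [hc0, hc1, hc2]; ring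
  rw [g1, g2]
  clear_value κ c0 c1 c2
  rw [f0, f1, f2]
  linear_combination κ ^ 2 * x2 ^ 2 * h

omit hδ in
lemma gram_pos {V W : Euc 3} (h : LinearIndependent ℝ ![V, W]) :
    0 < ‖V‖ ^ 2 * ‖W‖ ^ 2 - ⟪V, W⟫ ^ 2 := by
  have hV : V ≠ 0 := h.ne_zero 0
  have hV2 : 0 < ‖V‖ ^ 2 := by have := norm_pos_iff.2 hV; positivity
  by_contra hc
  push Not at hc
  have h1 : ‖(‖V‖ ^ 2) • W - ⟪V, W⟫ • V‖ ^ 2 =
      ‖V‖ ^ 2 * (‖V‖ ^ 2 * ‖W‖ ^ 2 - ⟪V, W⟫ ^ 2) := by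
    rw [← real_inner_self_eq_norm_sq, inner_sub_left, inner_sub_right, inner_sub_right]
    simp only [inner_smul_left, inner_smul_right, conj_trivial, real_inner_self_eq_norm_sq]
    rw [real_inner_comm V W]
    ring
  have h2 : ‖(‖V‖ ^ 2) • W - ⟪V, W⟫ • V‖ ^ 2 ≤ 0 := by
    rw [h1]; exact mul_nonpos_of_nonneg_of_nonpos hV2.le hc
  have h3 : (‖V‖ ^ 2) • W - ⟪V, W⟫ • V = 0 := by
    have := sq_nonneg ‖(‖V‖ ^ 2) • W - ⟪V, W⟫ • V‖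
    have h4 : ‖(‖V‖ ^ 2) • W - ⟪V, W⟫ • V‖ ^ 2 = 0 := le_antisymm h2 this
    exact norm_eq_zero.1 (pow_eq_zero_iff (two_ne_zero) |>.1 h4)
  have h4 := (LinearIndependent.pair_iff.1 h) (-⟪V, W⟫) (‖V‖ ^ 2) (by rw [← h3, neg_smul]; abel)
  exact hV2.ne' h4.2

lemma metric_F0 (x : S2) (v w : Euc 2) :
    metric 2 (F0 δ) x v w = amp δ ^ 2 *
      (⟪diff1 2 (fun y : S2 => (y : Euc 3)) x v, diff1 2 (fun y : S2 => (y : Euc 3)) x w⟫ +
        8 * δ ^ 2 / (δ ^ 2 + (x : Euc 3) 2 ^ 2) *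
          (diff1 2 (fun y : S2 => (y : Euc 3)) x v 2 *
            diff1 2 (fun y : S2 => (y : Euc 3)) x w 2)) := by
  unfold metric
  rw [diff1_F0 hδ, diff1_F0 hδ]
  set V := diff1 2 (fun y : S2 => (y : Euc 3)) x v
  set W := diff1 2 (fun y : S2 => (y : Euc 3)) x w
  rw [inner4, inner3, dPhi_zero, dPhi_one, dPhi_two, dPhi_three, dPhi_zero, dPhi_one, dPhi_two,
    dPhi_three]
  have h := dZ_sq hδ ((x : Euc 3) 2)
  linear_combination (V 2 * W 2) * h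

omit hδ in
lemma pos_aux {a ρ s δ l N G g h : ℝ} (ha : 0 < a) (hρ : δ ^ 2 ≤ ρ) (hδ : 0 < δ) (hs : 0 ≤ s)
    (hs1 : s ≤ 1) (hl : 0 < l) (hN : N = ρ ^ 3 * (1 + δ ^ 2) * (ρ + 8 * δ ^ 2 * s))
    (ha1 : a ^ 2 * (1 + δ ^ 2) = 1)
    (hg : ρ * g = a ^ 4 * l * (ρ + 8 * δ ^ 2 * s))
    (hh : h = 9 * a ^ 2 * δ ^ 2 * ρ ^ 2 * l * (ρ ^ 2 - 8 * δ ^ 2 * s ^ 2))
    (hG : G = h / N) : 0 < 1 + G / g := by
  have hρ0 : 0 < ρ := lt_of_lt_of_le (by positivity) hρ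
  have hg0 : 0 < g := by
    have : 0 < ρ * g := by rw [hg]; positivity
    exact (pos_iff_pos_of_mul_pos this).1 hρ0
  have hN0 : 0 < N := by rw [hN]; positivity
  have key : 0 < g * N + h := by
    have e1 : g * N = a ^ 2 * l * ρ ^ 2 * (ρ + 8 * δ ^ 2 * s) ^ 2 := by
      rw [hN]
      have : g * (ρ ^ 3 * (1 + δ ^ 2) * (ρ + 8 * δ ^ 2 * s)) =
          (ρ * g) * (ρ ^ 2 * (1 + δ ^ 2) * (ρ + 8 * δ ^ 2 * s)) := by ring
      rw [this, hg]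
      linear_combination (a ^ 2 * l * (ρ + 8 * δ ^ 2 * s) ^ 2 * ρ ^ 2) * ha1
    rw [e1, hh]
    have e2 : a ^ 2 * l * ρ ^ 2 * (ρ + 8 * δ ^ 2 * s) ^ 2 +
        9 * a ^ 2 * δ ^ 2 * ρ ^ 2 * l * (ρ ^ 2 - 8 * δ ^ 2 * s ^ 2) =
        a ^ 2 * l * ρ ^ 2 * (ρ ^ 2 + 9 * δ ^ 2 * ρ ^ 2 + 16 * δ ^ 2 * ρ * s - 8 * δ ^ 4 * s ^ 2) := by
      ring
    rw [e2]
    apply mul_pos (by positivity)
    have e3 : 8 * δ ^ 4 * s ^ 2 ≤ 16 * δ ^ 2 * ρ * s := by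
      have a1 : δ ^ 2 * δ ^ 2 * s ≤ δ ^ 2 * ρ * s := by
        apply mul_le_mul_of_nonneg_right _ hs
        exact mul_le_mul_of_nonneg_left hρ (by positivity)
      have a2 : δ ^ 4 * s ^ 2 ≤ δ ^ 4 * s := by
        apply mul_le_mul_of_nonneg_left _ (by positivity)
        nlinarith
      have a3 : 0 ≤ δ ^ 4 * s := by positivity
      nlinarith
    have e4 : 0 < ρ ^ 2 + 9 * δ ^ 2 * ρ ^ 2 := by positivity
    linarith
  rw [hG]
  have : 1 + h / N / g = (g * N + h) / (N * g) := by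
    field_simp
  rw [this]
  positivity

lemma sectional_F0_pos (x : S2) (v w : Euc 2) (hvw : LinearIndependent ℝ ![v, w]) :
    0 < sectional 2 (F0 δ) x v w := by
  have h1 := sphere_eq x
  have hv := inner_diff1_coe x v
  have hw := inner_diff1_coe x w
  have hinj := diff1_coe_injective x
  have hLI : LinearIndependent ℝ ![diff1 2 (fun y : S2 => (y : Euc 3)) x v,
      diff1 2 (fun y : S2 => (y : Euc 3)) x w] := by
    rw [LinearIndependent.pair_iff]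
    intro s t hst
    rw [← map_smul, ← map_smul, ← map_add] at hst
    have h0 : s • v + t • w = 0 := hinj (by rw [hst, map_zero])
    exact LinearIndependent.pair_iff.1 hvw s t h0
  have hl := gram_pos hLI
  unfold sectional
  rw [secondForm_F0 hδ, secondForm_F0 hδ, secondForm_F0 hδ, metric_F0 hδ, metric_F0 hδ,
    metric_F0 hδ]
  set V := diff1 2 (fun y : S2 => (y : Euc 3)) x v
  set W := diff1 2 (fun y : S2 => (y : Euc 3)) x w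
  have hN0 := norm_nu_pos hδ x
  have hcr := cross_identity h1 hv hw
  have hid : V 2 ^ 2 * ⟪W, W⟫ + W 2 ^ 2 * ⟪V, V⟫ - 2 * (V 2 * W 2) * ⟪V, W⟫ =
      (‖V‖ ^ 2 * ‖W‖ ^ 2 - ⟪V, W⟫ ^ 2) * (1 - (x : Euc 3) 2 ^ 2) := by
    rw [norm_sq3, norm_sq3, inner3, inner3, inner3]
    linear_combination hcr
  refine pos_aux (a := amp δ) (ρ := δ ^ 2 + (x : Euc 3) 2 ^ 2) (s := 1 - (x : Euc 3) 2 ^ 2)
    (δ := δ) (l := ‖V‖ ^ 2 * ‖W‖ ^ 2 - ⟪V, W⟫ ^ 2) (N := ‖nu δ x‖ ^ 2)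
    (h := hh δ x V V * hh δ x W W - hh δ x V W ^ 2) (amp_pos δ) ?_ hδ ?_ ?_ hl (norm_nu δ x)
    (amp_sq δ) ?_ ?_ ?_
  · nlinarith [sq_nonneg ((x : Euc 3) 2)]
  · nlinarith [sq_nonneg ((x : Euc 3) 0), sq_nonneg ((x : Euc 3) 1)]
  · nlinarith [sq_nonneg ((x : Euc 3) 2)]
  · have h0 := (rho_pos hδ ((x : Euc 3) 2)).ne'
    have h00 : (δ ^ 2 + (x : Euc 3) 2 ^ 2) * (8 * δ ^ 2 / (δ ^ 2 + (x : Euc 3) 2 ^ 2)) =
        8 * δ ^ 2 := by field_simp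
    simp only [← real_inner_self_eq_norm_sq] at hid ⊢
    generalize 8 * δ ^ 2 / (δ ^ 2 + (x : Euc 3) 2 ^ 2) = k at h00 ⊢
    linear_combination (amp δ ^ 4 * (V 2 ^ 2 * ⟪W, W⟫ + W 2 ^ 2 * ⟪V, V⟫ -
      2 * (V 2 * W 2) * ⟪V, W⟫)) * h00 + (8 * δ ^ 2 * amp δ ^ 4) * hid
  · have e : ∀ A B : Euc 3, hh δ x A B = 3 * amp δ * δ * (8 * δ ^ 2 * (1 - (x : Euc 3) 2 ^ 2) *
      (A 2 * B 2) - (δ ^ 2 + (x : Euc 3) 2 ^ 2) ^ 2 * ⟪A, B⟫) := by
      intro A B; rw [inner3]; rfl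
    rw [e, e, e]
    simp only [← real_inner_self_eq_norm_sq] at hid ⊢
    linear_combination (-(9 * amp δ ^ 2 * δ ^ 2 * (δ ^ 2 + (x : Euc 3) 2 ^ 2) ^ 2 * 8 * δ ^ 2 *
      (1 - (x : Euc 3) 2 ^ 2))) * hid
  · rw [norm_smul, inner_smul_left, inner_smul_right, real_inner_self_eq_norm_sq]
    simp only [conj_trivial, mul_pow, Real.norm_eq_abs, sq_abs]
    field_simp

/-- The initial immersion satisfies the pinching hypothesis. -/
lemma hypothesis_F0 : GuXuHypothesis 2 1 (F0 δ) := by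
  refine ⟨fun x => by positivity, fun x v w hvw => ?_⟩
  have h : kConst 1 2 = 0 := rfl
  rw [h]
  simpa using sectional_F0_pos hδ x v w hvw

end

end Pool.Agent.H15.MCF
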