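import Mathlib
import Pool.Agent.H15.MCF.Curv

/-!
# Symmetries
-/

namespace Pool.Agent.H15.MCF

open scoped Manifold ContDiff RealInnerProductSpace Topology

/-- Rotation of the first two coordinates of `ℝ^3`. -/
noncomputable def rot3 (φ : ℝ) : Euc 3 ≃ₗᵢ[ℝ] Euc 3 where
  toFun v := !₂[Real.cos φ * v 0 - Real.sin φ * v 1, Real.sin φ * v 0 + Real.cos φ * v 1, v 2]
  map_add' v w := by ext i; fin_cases i <;> simp <;> ring
  map_smul' c v := by ext i; fin_cases i <;> simp <;> ring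
  invFun v := !₂[Real.cos φ * v 0 + Real.sin φ * v 1, -Real.sin φ * v 0 + Real.cos φ * v 1, v 2]
  left_inv v := by
    have h := Real.sin_sq_add_cos_sq φ
    ext i
    fin_cases i
    · simp; linear_combination (v 0) * h
    · simp; linear_combination (v 1) * h
    · simp
  right_inv v := by
    have h := Real.sin_sq_add_cos_sq φ
    ext i
    fin_cases i
    · simp; linear_combination (v 0) * h
    · simp; linear_combination (v 1) * h
    · simp
  norm_map' v := by
    have h := Real.sin_sq_add_cos_sq φ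
    have h2 : ‖(!₂[Real.cos φ * v 0 - Real.sin φ * v 1,
        Real.sin φ * v 0 + Real.cos φ * v 1, v 2] : Euc 3)‖ ^ 2 = ‖v‖ ^ 2 := by
      rw [norm_sq3, norm_sq3]
      simp
      linear_combination (v 0 ^ 2 + v 1 ^ 2) * h
    exact (sq_eq_sq₀ (norm_nonneg _) (norm_nonneg _)).1 h2

lemma rot3_apply (φ : ℝ) (v : Euc 3) : rot3 φ v =
    !₂[Real.cos φ * v 0 - Real.sin φ * v 1, Real.sin φ * v 0 + Real.cos φ * v 1, v 2] := rfl

/-- Rotation of the last two coordinates of `ℝ^4`. -/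
noncomputable def rot4 (φ : ℝ) : Euc 4 ≃ₗᵢ[ℝ] Euc 4 where
  toFun v := !₂[v 0, v 1, Real.cos φ * v 2 - Real.sin φ * v 3,
    Real.sin φ * v 2 + Real.cos φ * v 3]
  map_add' v w := by ext i; fin_cases i <;> simp <;> ring
  map_smul' c v := by ext i; fin_cases i <;> simp <;> ring
  invFun v := !₂[v 0, v 1, Real.cos φ * v 2 + Real.sin φ * v 3,
    -Real.sin φ * v 2 + Real.cos φ * v 3]
  left_inv v := by
    have h := Real.sin_sq_add_cos_sq φ
    ext i
    fin_cases i
    · simp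
    · simp
    · simp; linear_combination (v 2) * h
    · simp; linear_combination (v 3) * h
  right_inv v := by
    have h := Real.sin_sq_add_cos_sq φ
    ext i
    fin_cases i
    · simp
    · simp
    · simp; linear_combination (v 2) * h
    · simp; linear_combination (v 3) * h
  norm_map' v := by
    have h := Real.sin_sq_add_cos_sq φ
    have h2 : ‖(!₂[v 0, v 1, Real.cos φ * v 2 - Real.sin φ * v 3,
        Real.sin φ * v 2 + Real.cos φ * v 3] : Euc 4)‖ ^ 2 = ‖v‖ ^ 2 := by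
      rw [norm_sq4, norm_sq4]
      simp
      linear_combination (v 2 ^ 2 + v 3 ^ 2) * h
    exact (sq_eq_sq₀ (norm_nonneg _) (norm_nonneg _)).1 h2

lemma rot4_apply (φ : ℝ) (v : Euc 4) : rot4 φ v =
    !₂[v 0, v 1, Real.cos φ * v 2 - Real.sin φ * v 3,
      Real.sin φ * v 2 + Real.cos φ * v 3] := rfl

/-- Reflection in the last coordinate plane. -/
noncomputable def refl4 (a : Fin 4 → ℝ) (ha : ∀ i, a i ^ 2 = 1) : Euc 4 ≃ₗᵢ[ℝ] Euc 4 where
  toFun v := !₂[a 0 * v 0, a 1 * v 1, a 2 * v 2, a 3 * v 3]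
  map_add' v w := by ext i; fin_cases i <;> simp <;> ring
  map_smul' c v := by ext i; fin_cases i <;> simp <;> ring
  invFun v := !₂[a 0 * v 0, a 1 * v 1, a 2 * v 2, a 3 * v 3]
  left_inv v := by
    ext i
    fin_cases i
    · simp; linear_combination (v 0) * ha 0
    · simp; linear_combination (v 1) * ha 1
    · simp; linear_combination (v 2) * ha 2
    · simp; linear_combination (v 3) * ha 3
  right_inv v := by
    ext i
    fin_cases i
    · simp; linear_combination (v 0) * ha 0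
    · simp; linear_combination (v 1) * ha 1
    · simp; linear_combination (v 2) * ha 2
    · simp; linear_combination (v 3) * ha 3
  norm_map' v := by
    have h2 : ‖(!₂[a 0 * v 0, a 1 * v 1, a 2 * v 2, a 3 * v 3] : Euc 4)‖ ^ 2 = ‖v‖ ^ 2 := by
      rw [norm_sq4, norm_sq4]
      simp
      linear_combination (v 0 ^ 2) * ha 0 + (v 1 ^ 2) * ha 1 + (v 2 ^ 2) * ha 2 +
        (v 3 ^ 2) * ha 3
    exact (sq_eq_sq₀ (norm_nonneg _) (norm_nonneg _)).1 h2

lemma refl4_apply (a : Fin 4 → ℝ) (ha : ∀ i, a i ^ 2 = 1) (v : Euc 4) : refl4 a ha v =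
    !₂[a 0 * v 0, a 1 * v 1, a 2 * v 2, a 3 * v 3] := rfl

/-- Reflections of `ℝ^3`. -/
noncomputable def refl3 (a : Fin 3 → ℝ) (ha : ∀ i, a i ^ 2 = 1) : Euc 3 ≃ₗᵢ[ℝ] Euc 3 where
  toFun v := !₂[a 0 * v 0, a 1 * v 1, a 2 * v 2]
  map_add' v w := by ext i; fin_cases i <;> simp <;> ring
  map_smul' c v := by ext i; fin_cases i <;> simp <;> ring
  invFun v := !₂[a 0 * v 0, a 1 * v 1, a 2 * v 2]
  left_inv v := by
    ext i
    fin_cases i
    · simp; linear_combination (v 0) * ha 0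
    · simp; linear_combination (v 1) * ha 1
    · simp; linear_combination (v 2) * ha 2
  right_inv v := by
    ext i
    fin_cases i
    · simp; linear_combination (v 0) * ha 0
    · simp; linear_combination (v 1) * ha 1
    · simp; linear_combination (v 2) * ha 2
  norm_map' v := by
    have h2 : ‖(!₂[a 0 * v 0, a 1 * v 1, a 2 * v 2] : Euc 3)‖ ^ 2 = ‖v‖ ^ 2 := by
      rw [norm_sq3, norm_sq3]
      simp
      linear_combination (v 0 ^ 2) * ha 0 + (v 1 ^ 2) * ha 1 + (v 2 ^ 2) * ha 2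
    exact (sq_eq_sq₀ (norm_nonneg _) (norm_nonneg _)).1 h2

lemma refl3_apply (a : Fin 3 → ℝ) (ha : ∀ i, a i ^ 2 = 1) (v : Euc 3) : refl3 a ha v =
    !₂[a 0 * v 0, a 1 * v 1, a 2 * v 2] := rfl

lemma signs3 (i : Fin 3) : ((![1, -1, 1] : Fin 3 → ℝ) i) ^ 2 = 1 := by fin_cases i <;> simp
lemma signs3' (i : Fin 3) : ((![1, 1, -1] : Fin 3 → ℝ) i) ^ 2 = 1 := by fin_cases i <;> simp
lemma signs4 (i : Fin 4) : ((![1, 1, 1, -1] : Fin 4 → ℝ) i) ^ 2 = 1 := by fin_cases i <;> simp
lemma signs4' (i : Fin 4) : ((![1, -1, 1, 1] : Fin 4 → ℝ) i) ^ 2 = 1 := by fin_cases i <;> simp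

/-- The symmetries of the initial immersion. -/
structure IsSymm (F : S2 → Euc 4) : Prop where
  rot : ∀ φ y, F (sphMap (rot3 φ) y) = rot4 φ (F y)
  refY : ∀ y, F (sphMap (refl3 _ signs3) y) = refl4 _ signs4 (F y)
  refW : ∀ y, F (sphMap (refl3 _ signs3') y) = refl4 _ signs4' (F y)

lemma Z1_neg (δ w : ℝ) : Z1 δ (-w) = Z1 δ w := by unfold Z1; simp
lemma Z2_neg (δ w : ℝ) : Z2 δ (-w) = - Z2 δ w := by unfold Z2; simp; ring

lemma isSymm_F0 (δ : ℝ) : IsSymm (F0 δ) := by
  refine ⟨fun φ y => ?_, fun y => ?_, fun y => ?_⟩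
  · ext i
    unfold F0
    rw [coe_sphMap, rot4_apply, Phi_zero, Phi_one, Phi_two, Phi_three]
    fin_cases i
    · simp [Phi_zero, rot3_apply]
    · simp [Phi_one, rot3_apply]
    · simp [Phi_two, rot3_apply]; ring
    · simp [Phi_three, rot3_apply]; ring
  · ext i
    unfold F0
    rw [coe_sphMap, refl4_apply, Phi_zero, Phi_one, Phi_two, Phi_three]
    fin_cases i
    · simp [Phi_zero, refl3_apply]
    · simp [Phi_one, refl3_apply]
    · simp [Phi_two, refl3_apply]
    · simp [Phi_three, refl3_apply]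
  · ext i
    unfold F0
    rw [coe_sphMap, refl4_apply, Phi_zero, Phi_one, Phi_two, Phi_three]
    fin_cases i
    · simp [Phi_zero, refl3_apply, Z1_neg]
    · simp [Phi_one, refl3_apply, Z2_neg]
    · simp [Phi_two, refl3_apply]
    · simp [Phi_three, refl3_apply]

lemma sphMap_symm_left (L : Euc 3 ≃ₗᵢ[ℝ] Euc 3) (y : S2) : sphMap L.symm (sphMap L y) = y := by
  apply Subtype.ext
  simp

lemma sphMap_symm_right (L : Euc 3 ≃ₗᵢ[ℝ] Euc 3) (y : S2) : sphMap L (sphMap L.symm y) = y := by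
  apply Subtype.ext
  simp

/-- Invariance of a unique solution under a linear symmetry. -/
lemma IsUniqueMaximalMCF.linear_symm {F₀ : S2 → Euc 4} {T : EReal} {F : ℝ → S2 → Euc 4}
    (hF : IsUniqueMaximalMCF 2 F₀ T F) (L : Euc 3 ≃ₗᵢ[ℝ] Euc 3) (σ : Euc 4 ≃ₗᵢ[ℝ] Euc 4)
    (h0 : ∀ y, F₀ (sphMap L y) = σ (F₀ y)) {t : ℝ} (ht : t ∈ timeDomain T) (y : S2) :
    F t (sphMap L y) = σ (F t y) := by
  have h := IsUniqueMaximalMCF.symmetric σ.symm hF (contMDiff_sphMap L)
    (contMDiff_sphMap L.symm) (sphMap_symm_right L) (sphMap_symm_left L)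
    (fun y => by rw [h0, σ.symm_apply_apply]) ht y
  rw [← h, σ.apply_symm_apply]

lemma IsUniqueMaximalMCF.isSymm {F₀ : S2 → Euc 4} {T : EReal} {F : ℝ → S2 → Euc 4}
    (hF : IsUniqueMaximalMCF 2 F₀ T F) (h0 : IsSymm F₀) {t : ℝ} (ht : t ∈ timeDomain T) :
    IsSymm (F t) :=
  ⟨fun φ y => hF.linear_symm _ _ (h0.rot φ) ht y, fun y => hF.linear_symm _ _ h0.refY ht y,
    fun y => hF.linear_symm _ _ h0.refW ht y⟩

/-- The point at angle `u` of the meridian through the poles. -/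
noncomputable def mer (u : ℝ) : S2 := ⟨!₂[Real.cos u, 0, Real.sin u], by
  have h := Real.sin_sq_add_cos_sq u
  have h2 : ‖(!₂[Real.cos u, 0, Real.sin u] : Euc 3)‖ ^ 2 = 1 := by
    rw [norm_sq3]
    simp
  simp only [Metric.mem_sphere, dist_zero_right]
  have h3 := norm_nonneg (!₂[Real.cos u, 0, Real.sin u] : Euc 3)
  nlinarith⟩

lemma coe_mer (u : ℝ) : (mer u : Euc 3) = !₂[Real.cos u, 0, Real.sin u] := rfl

lemma contMDiff_mer : ContMDiff 𝓘(ℝ, ℝ) (𝓡 2) ∞ mer := by
  have : Fact (Module.finrank ℝ (Euc 3) = 2 + 1) := ⟨by simp⟩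
  have h : ContDiff ℝ ∞ (fun u : ℝ => (!₂[Real.cos u, 0, Real.sin u] : Euc 3)) := by
    rw [contDiff_euclidean]
    intro i
    fin_cases i
    · simpa using Real.contDiff_cos
    · simpa using contDiff_const
    · simpa using Real.contDiff_sin
  exact h.contMDiff.codRestrict_sphere (fun u => (mer u).2)

/-- The parallel through a point of the sphere. -/
lemma contMDiff_par (y : S2) : ContMDiff 𝓘(ℝ, ℝ) (𝓡 2) ∞ (fun φ => sphMap (rot3 φ) y) := by
  have : Fact (Module.finrank ℝ (Euc 3) = 2 + 1) := ⟨by simp⟩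
  have h : ContDiff ℝ ∞ (fun φ : ℝ => (rot3 φ y : Euc 3)) := by
    rw [contDiff_euclidean]
    intro i
    fin_cases i
    · simp [rot3_apply]
      exact (Real.contDiff_cos.mul contDiff_const).sub (Real.contDiff_sin.mul contDiff_const)
    · simp [rot3_apply]
      exact (Real.contDiff_sin.mul contDiff_const).add (Real.contDiff_cos.mul contDiff_const)
    · simpa [rot3_apply] using contDiff_const
  exact h.contMDiff.codRestrict_sphere (fun u => (sphMap (rot3 u) y).2)

end Pool.Agent.H15.MCF
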