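import Mathlib
import Pool.Agent.H15.MCF.Sym

/-!
# The mean curvature vector of a symmetric immersion along a meridian
-/

namespace Pool.Agent.H15.MCF

open scoped Manifold ContDiff RealInnerProductSpace Topology

section Curve

lemma fderiv2_one {E : Type} [NormedAddCommGroup E] [NormedSpace ℝ E] {f : ℝ → E} {a : ℝ}
    (hf : ContDiffAt ℝ 2 f a) : fderiv ℝ (fderiv ℝ f) a 1 1 = deriv (deriv f) a := by
  have d1 : HasFDerivAt (fderiv ℝ f) (fderiv ℝ (fderiv ℝ f) a) a :=
    ((hf.fderiv_right (m := 1) (by norm_num)).differentiableAt (by norm_num)).hasFDerivAt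
  have d2 : HasFDerivAt (fun y => fderiv ℝ f y 1) ((fderiv ℝ (fderiv ℝ f) a).flip 1) a := by
    have := d1.clm_apply (hasFDerivAt_const (1 : ℝ) a)
    simpa using this
  have h : deriv f = fun y => fderiv ℝ f y 1 := by
    funext y; simp
  rw [h, d2.hasDerivAt.deriv]
  rfl

variable {n m : ℕ} {M : Type} [TopologicalSpace M] [ChartedSpace (Euc n) M]

/-- Velocity vector of a curve, in the chart. -/
noncomputable def cvel (n : ℕ) {M : Type} [TopologicalSpace M] [ChartedSpace (Euc n) M]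
    (c : ℝ → M) (s : ℝ) : Euc n :=
  fderiv ℝ (fun y => chartAt (Euc n) (c s) (c y)) s 1

/-- Second derivative of a curve, in the chart. -/
noncomputable def cacc (n : ℕ) {M : Type} [TopologicalSpace M] [ChartedSpace (Euc n) M]
    (c : ℝ → M) (s : ℝ) : Euc n :=
  fderiv ℝ (fderiv ℝ (fun y => chartAt (Euc n) (c s) (c y))) s 1 1

lemma deriv_curve {F : M → Euc m} (hF : ContMDiff (𝓡 n) 𝓘(ℝ, Euc m) ∞ F) {c : ℝ → M}
    (hc : ContMDiff 𝓘(ℝ, ℝ) (𝓡 n) ∞ c) (s : ℝ) :
    deriv (fun s => F (c s)) s = diff1 n F (c s) (cvel n c s) := by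
  rw [← fderiv_apply_one_eq_deriv]
  exact jet1 (hF _) (hc _) 1

lemma deriv2_curve {F : M → Euc m} (hF : ContMDiff (𝓡 n) 𝓘(ℝ, Euc m) ∞ F) {c : ℝ → M}
    (hc : ContMDiff 𝓘(ℝ, ℝ) (𝓡 n) ∞ c) (s : ℝ) :
    deriv (deriv (fun s => F (c s))) s =
      diff2 n F (c s) (cvel n c s) (cvel n c s) + diff1 n F (c s) (cacc n c s) := by
  have h : ContDiffAt ℝ 2 (fun s => F (c s)) s :=
    ((hF.comp hc).contDiff.contDiffAt).of_le two_le_infty
  rw [← fderiv2_one h]
  exact jet2 (hF _) (hc _) 1 1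

lemma secondForm_curve {F : M → Euc m} (hF : ContMDiff (𝓡 n) 𝓘(ℝ, Euc m) ∞ F) {c : ℝ → M}
    (hc : ContMDiff 𝓘(ℝ, ℝ) (𝓡 n) ∞ c) (s : ℝ) :
    secondForm n F (c s) (cvel n c s) (cvel n c s) =
      (normalSpace n F (c s)).starProjection (deriv (deriv (fun s => F (c s))) s) := by
  rw [deriv2_curve hF hc, map_add, nproj_diff1, add_zero]
  rfl

end Curve

section Meridian

lemma hasDerivAt_euc {k : ℕ} {f : ℝ → Euc k} {f' : Euc k} {x : ℝ}
    (h : ∀ i, HasDerivAt (fun s => f s i) (f' i) x) : HasDerivAt f f' x := by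
  rw [hasDerivAt_iff_hasFDerivAt, ← hasFDerivWithinAt_univ, hasFDerivWithinAt_euclidean]
  intro i
  rw [hasFDerivWithinAt_univ]
  have h1 := (h i).hasFDerivAt
  refine h1.congr_fderiv ?_
  ext
  simp

lemma rot3_zero (y : S2) : sphMap (rot3 0) y = y := by
  apply Subtype.ext
  rw [coe_sphMap, rot3_apply]
  ext i
  fin_cases i <;> simp

lemma refl_mer (u : ℝ) : sphMap (refl3 _ signs3) (mer u) = mer u := by
  apply Subtype.ext
  rw [coe_sphMap, refl3_apply, coe_mer]
  ext i
  fin_cases i <;> simp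

lemma refl_mer' (u : ℝ) : sphMap (refl3 _ signs3') (mer u) = mer (-u) := by
  apply Subtype.ext
  rw [coe_sphMap, refl3_apply, coe_mer, coe_mer]
  ext i
  fin_cases i <;> simp

variable {F : S2 → Euc 4} (hs : IsSymm F)
include hs

lemma mer_three (u : ℝ) : F (mer u) 3 = 0 := by
  have h := hs.refY (mer u)
  rw [refl_mer, refl4_apply] at h
  have h2 := congrArg (fun v : Euc 4 => v 3) h
  simp at h2
  linarith

lemma mer_neg_zero (u : ℝ) : F (mer (-u)) 0 = F (mer u) 0 := by
  have h := hs.refW (mer u)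
  rw [refl_mer', refl4_apply] at h
  have h2 := congrArg (fun v : Euc 4 => v 0) h
  simpa using h2

lemma mer_neg_one (u : ℝ) : F (mer (-u)) 1 = - F (mer u) 1 := by
  have h := hs.refW (mer u)
  rw [refl_mer', refl4_apply] at h
  have h2 := congrArg (fun v : Euc 4 => v 1) h
  simpa using h2

lemma mer_neg_two (u : ℝ) : F (mer (-u)) 2 = F (mer u) 2 := by
  have h := hs.refW (mer u)
  rw [refl_mer', refl4_apply] at h
  have h2 := congrArg (fun v : Euc 4 => v 2) h
  simpa using h2

lemma par_formula (u φ : ℝ) : F (sphMap (rot3 φ) (mer u)) =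
    (F (mer u) 0 • bb 0 + F (mer u) 1 • bb 1) + Real.cos φ • (F (mer u) 2 • bb 2) +
      Real.sin φ • (F (mer u) 2 • bb 3) := by
  rw [hs.rot, rot4_apply, mer_three hs]
  ext i
  fin_cases i <;> simp

lemma deriv_par (u φ : ℝ) : deriv (fun φ => F (sphMap (rot3 φ) (mer u))) φ =
    (-Real.sin φ) • (F (mer u) 2 • bb 2) + Real.cos φ • (F (mer u) 2 • bb 3) := by
  have h : (fun φ => F (sphMap (rot3 φ) (mer u))) = fun φ =>
      (F (mer u) 0 • bb 0 + F (mer u) 1 • bb 1) + Real.cos φ • (F (mer u) 2 • bb 2) +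
      Real.sin φ • (F (mer u) 2 • bb 3) := by
    funext φ; exact par_formula hs u φ
  rw [h]
  have h1 := (((Real.hasDerivAt_cos φ).smul_const (F (mer u) 2 • bb 2)).const_add
    (F (mer u) 0 • bb 0 + F (mer u) 1 • bb 1)).add
      ((Real.hasDerivAt_sin φ).smul_const (F (mer u) 2 • bb 3))
  exact h1.deriv

lemma deriv2_par (u : ℝ) : deriv (deriv (fun φ => F (sphMap (rot3 φ) (mer u)))) 0 =
    -(F (mer u) 2 • bb 2) := by
  have h : deriv (fun φ => F (sphMap (rot3 φ) (mer u))) = fun φ =>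
      (-Real.sin φ) • (F (mer u) 2 • bb 2) + Real.cos φ • (F (mer u) 2 • bb 3) := by
    funext φ; exact deriv_par hs u φ
  rw [h]
  have h1 := (((Real.hasDerivAt_sin 0).neg).smul_const (F (mer u) 2 • bb 2)).add
      ((Real.hasDerivAt_cos 0).smul_const (F (mer u) 2 • bb 3))
  have h2 : deriv (fun φ => (-Real.sin φ) • (F (mer u) 2 • bb 2) +
    Real.cos φ • (F (mer u) 2 • bb 3)) 0 = _ := h1.deriv
  rw [h2]
  simp

omit hs in
lemma cvel_mer_ne_zero (u : ℝ) : cvel 2 mer u ≠ 0 := by
  intro h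
  have h1 := deriv_curve contMDiff_coe contMDiff_mer u
  rw [h, map_zero] at h1
  have hd : HasDerivAt (fun s => ((mer s : S2) : Euc 3)) (!₂[-Real.sin u, 0, Real.cos u] : Euc 3) u := by
    refine hasDerivAt_euc fun i => ?_
    fin_cases i
    · simpa [coe_mer] using Real.hasDerivAt_cos u
    · simpa [coe_mer] using hasDerivAt_const u (0 : ℝ)
    · simpa [coe_mer] using Real.hasDerivAt_sin u
  rw [hd.deriv] at h1
  have a0 := congrArg (fun v : Euc 3 => v 0) h1
  have a2 := congrArg (fun v : Euc 3 => v 2) h1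
  simp at a0 a2
  have := Real.sin_sq_add_cos_sq u
  rw [a0, a2] at this
  norm_num at this

omit hs in
lemma cvel_par_ne_zero {u : ℝ} (hu : Real.cos u ≠ 0) :
    cvel 2 (fun φ => sphMap (rot3 φ) (mer u)) 0 ≠ 0 := by
  intro h
  have h1 := deriv_curve contMDiff_coe (contMDiff_par (mer u)) 0
  rw [h, map_zero] at h1
  have hd : HasDerivAt (fun s => ((sphMap (rot3 s) (mer u) : S2) : Euc 3))
      (!₂[0, Real.cos u, 0] : Euc 3) 0 := by
    refine hasDerivAt_euc fun i => ?_
    fin_cases i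
    · simpa [coe_mer, rot3_apply] using (Real.hasDerivAt_cos 0).mul_const (Real.cos u)
    · simpa [coe_mer, rot3_apply] using (Real.hasDerivAt_sin 0).mul_const (Real.cos u)
    · simpa [coe_mer, rot3_apply] using hasDerivAt_const (0 : ℝ) (Real.sin u)
  rw [hd.deriv] at h1
  have a1 := congrArg (fun v : Euc 3 => v 1) h1
  simp at a1
  exact hu a1

variable (hF : IsSphereImmersion 2 F)
include hF

omit hs in
lemma contDiff_mer : ContDiff ℝ ∞ (fun u => F (mer u)) :=
  (hF.smooth.comp contMDiff_mer).contDiff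

omit hs in
lemma deriv_mer (u : ℝ) : deriv (fun u => F (mer u)) u = diff1 2 F (mer u) (cvel 2 mer u) :=
  deriv_curve hF.smooth contMDiff_mer u

omit hs in
lemma deriv_mer_ne_zero (u : ℝ) : deriv (fun u => F (mer u)) u ≠ 0 := by
  rw [deriv_mer hF]
  intro h
  exact cvel_mer_ne_zero u (hF.injective (mer u) (by rw [h, map_zero]))

lemma diff1_par (u : ℝ) :
    diff1 2 F (mer u) (cvel 2 (fun φ => sphMap (rot3 φ) (mer u)) 0) = F (mer u) 2 • bb 3 := by
  have h1 := deriv_curve hF.smooth (contMDiff_par (mer u)) 0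
  rw [deriv_par hs, rot3_zero] at h1
  rw [← h1]
  simp

lemma mer_two_ne_zero {u : ℝ} (hu : Real.cos u ≠ 0) : F (mer u) 2 ≠ 0 := by
  intro h
  have h1 := diff1_par hs hF u
  rw [h, zero_smul] at h1
  exact cvel_par_ne_zero hu (hF.injective (mer u) (by rw [h1, map_zero]))

omit hs in
lemma hasDerivAt_mer (u : ℝ) :
    HasDerivAt (fun u => F (mer u)) (deriv (fun u => F (mer u)) u) u :=
  (((contDiff_mer hF).differentiable (by simp)) u).hasDerivAt

omit hs in
lemma hasDerivAt_mer_coord (u : ℝ) (i : Fin 4) :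
    HasDerivAt (fun u => F (mer u) i) (deriv (fun u => F (mer u)) u i) u := by
  have h := hasDerivAt_mer hF u
  have h2 := (EuclideanSpace.proj (𝕜 := ℝ) i : Euc 4 →L[ℝ] ℝ).hasFDerivAt.comp_hasDerivAt u h
  exact h2

lemma deriv_mer_three (u : ℝ) : deriv (fun u => F (mer u)) u 3 = 0 := by
  have h := hasDerivAt_mer_coord hF u 3
  have h2 : (fun u => F (mer u) 3) = fun _ => (0 : ℝ) := funext fun u => mer_three hs u
  rw [h2] at h
  exact h.unique (hasDerivAt_const u 0)

lemma mem_normalSpace_mer {u : ℝ} (hu : Real.cos u ≠ 0) (b : Euc 4) :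
    b ∈ normalSpace 2 F (mer u) ↔
      ⟪F (mer u), b⟫ = 0 ∧ ⟪deriv (fun u => F (mer u)) u, b⟫ = 0 ∧ b 3 = 0 := by
  rw [mem_normalSpace]
  have hz := mer_two_ne_zero hs hF hu
  have hp := diff1_par hs hF u
  have hm := deriv_mer hF u
  constructor
  · rintro ⟨h1, h2⟩
    refine ⟨h1, ?_, ?_⟩
    · rw [hm]; exact h2 _
    · have h3 := h2 (cvel 2 (fun φ => sphMap (rot3 φ) (mer u)) 0)
      rw [hp, inner4] at h3
      simp at h3
      exact h3.resolve_left hz
  · rintro ⟨h1, h2, h3⟩
    refine ⟨h1, fun v => ?_⟩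
    have hLI : LinearIndependent ℝ ![cvel 2 mer u,
        cvel 2 (fun φ => sphMap (rot3 φ) (mer u)) 0] := by
      rw [LinearIndependent.pair_iff]
      intro s t hst
      have h4 := congrArg (diff1 2 F (mer u)) hst
      rw [map_add, map_smul, map_smul, hp, ← hm, map_zero] at h4
      have h5 := congrArg (fun a => ⟪a, bb 3⟫) h4
      simp only [inner_add_left, inner_smul_left, conj_trivial, inner_zero_left] at h5
      have e1 : ⟪deriv (fun u => F (mer u)) u, bb 3⟫ = 0 := by
        rw [inner4]; simp [deriv_mer_three hs hF]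
      have e2 : ⟪bb 3, bb 3⟫ = (1 : ℝ) := by rw [inner4]; simp
      rw [e1, e2] at h5
      have ht : t = 0 := by
        have : t * F (mer u) 2 = 0 := by linarith
        exact (mul_eq_zero.1 this).resolve_right hz
      rw [ht, zero_smul, add_zero] at h4
      exact ⟨(smul_eq_zero.1 h4).resolve_right (deriv_mer_ne_zero hF u), ht⟩
    have hspan := hLI.span_eq_top_of_card_eq_finrank (by simp)
    have hv : v ∈ Submodule.span ℝ (Set.range ![cvel 2 mer u,
        cvel 2 (fun φ => sphMap (rot3 φ) (mer u)) 0]) := by rw [hspan]; trivial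
    simp only [Matrix.range_cons, Matrix.range_empty, Set.union_empty, Set.singleton_union] at hv
    obtain ⟨α, β, rfl⟩ := Submodule.mem_span_pair.1 hv
    rw [map_add, map_smul, map_smul, hp, ← hm, inner_add_left, inner_smul_left, inner_smul_left,
      h2]
    have e3 : ⟪F (mer u) 2 • bb 3, b⟫ = 0 := by
      rw [inner_smul_left, inner4]; simp [h3]
    rw [e3]
    simp

/-- The mean curvature vector of a symmetric immersion along the meridian. -/
theorem meanCurvature_mer {u : ℝ} (hu : Real.cos u ≠ 0) :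
    meanCurvature 2 F (mer u) = (normalSpace 2 F (mer u)).starProjection
      ((1 / ‖deriv (fun u => F (mer u)) u‖ ^ 2) • deriv (deriv (fun u => F (mer u))) u -
        (1 / F (mer u) 2) • bb 2) := by
  have hz := mer_two_ne_zero hs hF hu
  have hp := diff1_par hs hF u
  have hm := deriv_mer hF u
  set g' := deriv (fun u => F (mer u)) u with hg'
  have hg0 : g' ≠ 0 := deriv_mer_ne_zero hF u
  have hv : ‖g'‖ ≠ 0 := norm_ne_zero_iff.2 hg0
  let e : Fin 2 → Euc 2 := ![(1 / ‖g'‖) • cvel 2 mer u,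
    (1 / F (mer u) 2) • cvel 2 (fun φ => sphMap (rot3 φ) (mer u)) 0]
  have ee0 : e 0 = (1 / ‖g'‖) • cvel 2 mer u := rfl
  have ee1 : e 1 = (1 / F (mer u) 2) • cvel 2 (fun φ => sphMap (rot3 φ) (mer u)) 0 := rfl
  have he0 : diff1 2 F (mer u) (e 0) = (1 / ‖g'‖) • g' := by
    rw [ee0, map_smul, ← hm]
  have he1 : diff1 2 F (mer u) (e 1) = bb 3 := by
    rw [ee1, map_smul, hp, smul_smul, one_div, inv_mul_cancel₀ hz, one_smul]
  have he : Orthonormal ℝ (fun i => diff1 2 F (mer u) (e i)) := by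
    have h01 : ⟪(1 / ‖g'‖) • g', bb 3⟫ = 0 := by
      rw [inner_smul_left, inner4]
      simp [hg', deriv_mer_three hs hF]
    constructor
    · intro i
      fin_cases i
      · show ‖diff1 2 F (mer u) (e 0)‖ = 1
        rw [he0, norm_smul, Real.norm_eq_abs, abs_of_nonneg (by positivity)]
        field_simp
      · show ‖diff1 2 F (mer u) (e 1)‖ = 1
        rw [he1]
        simp
    · intro i j hij
      fin_cases i <;> fin_cases j
      · exact absurd rfl hij
      · show ⟪diff1 2 F (mer u) (e 0), diff1 2 F (mer u) (e 1)⟫ = 0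
        rw [he0, he1]; exact h01
      · show ⟪diff1 2 F (mer u) (e 1), diff1 2 F (mer u) (e 0)⟫ = 0
        rw [he0, he1, real_inner_comm]; exact h01
      · exact absurd rfl hij
  rw [meanCurvature_eq_sum F (mer u) e he, Fin.sum_univ_two]
  have s0 : secondForm 2 F (mer u) (e 0) (e 0) = (normalSpace 2 F (mer u)).starProjection
      ((1 / ‖g'‖ ^ 2) • deriv (deriv (fun u => F (mer u))) u) := by
    rw [ee0, secondForm_smul_left, secondForm_smul_right, smul_smul,
      secondForm_curve hF.smooth contMDiff_mer, map_smul]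
    congr 1
    field_simp
  have s1 : secondForm 2 F (mer u) (e 1) (e 1) = (normalSpace 2 F (mer u)).starProjection
      (-((1 / F (mer u) 2) • bb 2)) := by
    have h2 := secondForm_curve hF.smooth (contMDiff_par (mer u)) 0
    rw [deriv2_par hs, rot3_zero] at h2
    rw [ee1, secondForm_smul_left, secondForm_smul_right, smul_smul, h2, ← map_smul]
    congr 1
    rw [smul_neg, smul_smul]
    congr 2
    field_simp
  rw [s0, s1, ← map_add, sub_eq_add_neg]

end Meridian

end Pool.Agent.H15.MCF
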