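import Mathlib

/-!
# Integrals depending on a parameter
-/

namespace Pool.Agent.H15.MCF

open scoped Topology
open MeasureTheory Set

/-- Differentiation under the integral sign. -/
lemma hasDerivAt_param {f g : ℝ → ℝ → ℝ} {a b : ℝ} (hab : a ≤ b) {U : Set ℝ} (hU : IsOpen U)
    (hf : ContinuousOn (fun p : ℝ × ℝ => f p.1 p.2) (U ×ˢ Icc a b))
    (hg : ContinuousOn (fun p : ℝ × ℝ => g p.1 p.2) (U ×ˢ Icc a b))
    (hd : ∀ t ∈ U, ∀ u ∈ Icc a b, HasDerivAt (fun t => f t u) (g t u) t) {t : ℝ} (ht : t ∈ U) :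
    HasDerivAt (fun t => ∫ u in a..b, f t u) (∫ u in a..b, g t u) t := by
  obtain ⟨ε, hε, hball⟩ := Metric.isOpen_iff.1 hU t ht
  have hK : Metric.closedBall t (ε / 2) ⊆ U :=
    (Metric.closedBall_subset_ball (by linarith)).trans hball
  have hcomp : IsCompact (Metric.closedBall t (ε / 2) ×ˢ Icc a b) :=
    (isCompact_closedBall t (ε / 2)).prod isCompact_Icc
  obtain ⟨C, hC⟩ := hcomp.exists_bound_of_continuousOn
    (hg.mono (prod_mono hK subset_rfl))
  have hfc : ∀ s ∈ U, ContinuousOn (f s) (Icc a b) := by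
    intro s hs
    exact hf.comp (f := fun u : ℝ => (s, u)) (by fun_prop) (fun u hu => ⟨hs, hu⟩)
  have hgc : ∀ s ∈ U, ContinuousOn (g s) (Icc a b) := by
    intro s hs
    exact hg.comp (f := fun u : ℝ => (s, u)) (by fun_prop) (fun u hu => ⟨hs, hu⟩)
  have hΙ : uIoc a b ⊆ Icc a b := by rw [uIoc_of_le hab]; exact Ioc_subset_Icc_self
  have h := intervalIntegral.hasDerivAt_integral_of_dominated_loc_of_deriv_le (μ := volume)
    (F := f) (F' := g) (x₀ := t) (s := Metric.closedBall t (ε / 2)) (a := a) (b := b)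
    (bound := fun _ => C) (Metric.closedBall_mem_nhds t (by positivity)) ?_ ?_ ?_ ?_ ?_ ?_
  · exact h.2
  · filter_upwards [hU.mem_nhds ht] with s hs
    exact ((hfc s hs).mono hΙ).aestronglyMeasurable measurableSet_uIoc
  · exact ((hfc t ht).mono (by rw [uIcc_of_le hab])).intervalIntegrable
  · exact ((hgc t ht).mono hΙ).aestronglyMeasurable measurableSet_uIoc
  · filter_upwards with u hu s hs
    exact hC (s, u) ⟨hs, hΙ hu⟩
  · exact intervalIntegrable_const
  · filter_upwards with u hu s hs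
    exact hd s (hK hs) u (hΙ hu)

/-- Continuity of an integral depending on a parameter. -/
lemma continuousOn_param {f : ℝ → ℝ → ℝ} {a b : ℝ} {S : Set ℝ}
    (hf : ContinuousOn (fun p : ℝ × ℝ => f p.1 p.2) (S ×ˢ univ)) :
    ContinuousOn (fun t => ∫ u in a..b, f t u) S := by
  rw [continuousOn_iff_continuous_domRestrict]
  have h : Continuous (fun p : S × ℝ => f p.1 p.2) := by
    have h1 : Continuous (fun p : S × ℝ => ((p.1 : ℝ), p.2)) := by fun_prop
    have h2 : ∀ p : S × ℝ, ((p.1 : ℝ), p.2) ∈ S ×ˢ (univ : Set ℝ) := fun p => ⟨p.1.2, mem_univ _⟩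
    exact hf.comp_continuous h1 h2
  exact intervalIntegral.continuous_parametric_intervalIntegral_of_continuous'
    (f := fun (s : S) u => f s u) h a b

/-- Cauchy-Schwarz inequality for a nonnegative weight. -/
lemma cauchy_schwarz_weight {p h : ℝ → ℝ} {a b : ℝ} (hab : a ≤ b)
    (hp : ContinuousOn p (Icc a b)) (hh : ContinuousOn h (Icc a b)) (hp0 : ∀ u ∈ Icc a b, 0 ≤ p u)
    (hpos : 0 < ∫ u in a..b, p u) :
    (∫ u in a..b, p u * h u) ^ 2 ≤ (∫ u in a..b, p u) * ∫ u in a..b, p u * h u ^ 2 := by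
  set A := ∫ u in a..b, p u with hA
  set B := ∫ u in a..b, p u * h u with hB
  set C := ∫ u in a..b, p u * h u ^ 2 with hC
  have hI : ∀ f : ℝ → ℝ, ContinuousOn f (Icc a b) → IntervalIntegrable f volume a b := fun f hf =>
    (hf.mono (by rw [uIcc_of_le hab])).intervalIntegrable
  have h1 : 0 ≤ ∫ u in a..b, p u * (B - A * h u) ^ 2 := by
    apply intervalIntegral.integral_nonneg hab
    intro u hu
    exact mul_nonneg (hp0 u hu) (sq_nonneg _)
  have h2 : (∫ u in a..b, p u * (B - A * h u) ^ 2) = A * (A * C - B ^ 2) := by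
    have e : ∀ u, p u * (B - A * h u) ^ 2 =
        B ^ 2 * p u + (-(2 * A * B)) * (p u * h u) + A ^ 2 * (p u * h u ^ 2) := by
      intro u; ring
    simp_rw [e]
    rw [intervalIntegral.integral_add, intervalIntegral.integral_add,
      intervalIntegral.integral_const_mul, intervalIntegral.integral_const_mul,
      intervalIntegral.integral_const_mul, ← hA, ← hB, ← hC]
    · ring
    · exact hI _ (continuousOn_const.mul hp)
    · exact hI _ (continuousOn_const.mul (hp.mul hh))
    · exact hI _ ((continuousOn_const.mul hp).add (continuousOn_const.mul (hp.mul hh)))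
    · exact hI _ (continuousOn_const.mul (hp.mul (hh.pow 2)))
  rw [h2] at h1
  have h3 : 0 ≤ A * C - B ^ 2 := by
    by_contra hc
    push Not at hc
    have := mul_neg_of_pos_of_neg hpos hc
    linarith
  linarith

end Pool.Agent.H15.MCF
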