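import Mathlib
import Pool.Agent.H15.MCF.Mer
import Pool.Agent.H15.MCF.MaxP
import Pool.Agent.H15.MCF.Param

/-!
# A symmetric solution of the flow along the meridian
-/

namespace Pool.Agent.H15.MCF

open scoped Manifold ContDiff RealInnerProductSpace Topology
open Set

/-- The open time interval `(0, T)`. -/
def timeInt (T : EReal) : Set ℝ := {t : ℝ | 0 < t ∧ (t : EReal) < T}

lemma isOpen_timeInt (T : EReal) : IsOpen (timeInt T) :=
  isOpen_Ioi.inter (isOpen_Iio.preimage continuous_coe_real_ereal)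

lemma timeInt_subset (T : EReal) : timeInt T ⊆ timeDomain T := fun _ ht => ⟨ht.1.le, ht.2⟩

lemma exists_pos_time {T : EReal} (hT : 0 < T) : ∃ t, t ∈ timeInt T := by
  obtain ⟨t, h1, h2⟩ := EReal.lt_iff_exists_real_btwn.1 hT
  exact ⟨t, by exact_mod_cast h1, h2⟩

lemma convex_timeDomain (T : EReal) : Convex ℝ (timeDomain T) := by
  rw [convex_iff_ordConnected]
  constructor
  intro x hx y hy z hz
  refine ⟨hx.1.trans hz.1, lt_of_le_of_lt ?_ hy.2⟩
  exact_mod_cast hz.2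

lemma uniqueDiffOn_timeDomain {T : EReal} (hT : 0 < T) : UniqueDiffOn ℝ (timeDomain T) := by
  apply uniqueDiffOn_convex (convex_timeDomain T)
  obtain ⟨t, ht⟩ := exists_pos_time hT
  exact ⟨t, mem_interior.2 ⟨timeInt T, timeInt_subset T, isOpen_timeInt T, ht⟩⟩

section

variable {F₀ : S2 → Euc 4} {T : EReal} {F : ℝ → S2 → Euc 4} (hF : IsMCF 2 F₀ T F)
include hF

lemma contDiffOn_Γ : ContDiffOn ℝ ∞ (fun p : ℝ × ℝ => F p.1 (mer p.2))
    (timeDomain T ×ˢ univ) := by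
  rw [← contMDiffOn_iff_contDiffOn]
  have h1 : ContMDiff 𝓘(ℝ, ℝ × ℝ) (𝓘(ℝ, ℝ).prod (𝓡 2)) ∞ (fun p : ℝ × ℝ => (p.1, mer p.2)) :=
    (contDiff_fst.contMDiff).prodMk (contMDiff_mer.comp contDiff_snd.contMDiff)
  exact hF.smooth.comp (h1.contMDiffOn (s := timeDomain T ×ˢ univ))
    (fun p hp => ⟨hp.1, mem_univ _⟩)

lemma uniqueDiffOn_S : UniqueDiffOn ℝ (timeDomain T ×ˢ (univ : Set ℝ)) :=
  (uniqueDiffOn_timeDomain hF.pos).prod uniqueDiffOn_univ

lemma deriv_u {t u : ℝ} (ht : t ∈ timeDomain T) : deriv (fun u => F t (mer u)) u =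
    fderivWithin ℝ (fun p : ℝ × ℝ => F p.1 (mer p.2)) (timeDomain T ×ˢ univ) (t, u) (0, 1) := by
  have h1 := ((contDiffOn_Γ hF).differentiableOn (by simp) (t, u)
    ⟨ht, mem_univ _⟩).hasFDerivWithinAt
  have h2 : HasDerivWithinAt (fun u : ℝ => (t, u)) ((0 : ℝ), (1 : ℝ)) univ u :=
    ((hasDerivAt_const u t).prodMk (hasDerivAt_id u)).hasDerivWithinAt
  have h3 := h1.comp_hasDerivWithinAt u h2 (fun v _ => ⟨ht, mem_univ _⟩)
  rw [hasDerivWithinAt_univ] at h3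
  exact h3.deriv

lemma continuousOn_deriv_u : ContinuousOn (fun p : ℝ × ℝ => deriv (fun u => F p.1 (mer u)) p.2)
    (timeDomain T ×ˢ univ) := by
  have h := ((contDiffOn_Γ hF).continuousOn_fderivWithin (uniqueDiffOn_S hF) (by simp)).clm_apply
    (continuousOn_const (c := ((0 : ℝ), (1 : ℝ))))
  refine h.congr ?_
  rintro ⟨t, u⟩ ⟨ht, _⟩
  exact deriv_u hF ht

lemma contDiffAt_Γ {t : ℝ} (ht : t ∈ timeInt T) (u : ℝ) :
    ContDiffAt ℝ ∞ (fun p : ℝ × ℝ => F p.1 (mer p.2)) (t, u) := by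
  apply (contDiffOn_Γ hF).contDiffAt
  have h : timeInt T ×ˢ (univ : Set ℝ) ∈ 𝓝 (t, u) :=
    ((isOpen_timeInt T).prod isOpen_univ).mem_nhds ⟨ht, mem_univ _⟩
  exact Filter.mem_of_superset h (prod_mono (timeInt_subset T) subset_rfl)

lemma fderiv_Γ_t {t : ℝ} (ht : t ∈ timeInt T) (u : ℝ) :
    fderiv ℝ (fun p : ℝ × ℝ => F p.1 (mer p.2)) (t, u) (1, 0) =
      meanCurvature 2 (F t) (mer u) := by
  have h1 := ((contDiffAt_Γ hF ht u).differentiableAt (by simp)).hasFDerivAt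
  have h2 : HasDerivAt (fun s : ℝ => (s, u)) ((1 : ℝ), (0 : ℝ)) t :=
    (hasDerivAt_id t).prodMk (hasDerivAt_const t u)
  have h3 := h1.comp_hasDerivAt t h2
  have h4 := (hF.flow t (timeInt_subset T ht) (mer u)).hasDerivAt
    (Filter.mem_of_superset ((isOpen_timeInt T).mem_nhds ht) (timeInt_subset T))
  exact h3.unique h4

lemma fderiv_Γ_u {t : ℝ} (ht : t ∈ timeInt T) (u : ℝ) :
    fderiv ℝ (fun p : ℝ × ℝ => F p.1 (mer p.2)) (t, u) (0, 1) =
      deriv (fun u => F t (mer u)) u := by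
  have h1 := ((contDiffAt_Γ hF ht u).differentiableAt (by simp)).hasFDerivAt
  have h2 : HasDerivAt (fun s : ℝ => (t, s)) ((0 : ℝ), (1 : ℝ)) u :=
    (hasDerivAt_const u t).prodMk (hasDerivAt_id u)
  have h3 := h1.comp_hasDerivAt u h2
  exact h3.deriv.symm

lemma hasFDerivAt_fderiv_Γ {t : ℝ} (ht : t ∈ timeInt T) (u : ℝ) (e : ℝ × ℝ) :
    HasFDerivAt (fun p => fderiv ℝ (fun p : ℝ × ℝ => F p.1 (mer p.2)) p e)
      ((fderiv ℝ (fderiv ℝ (fun p : ℝ × ℝ => F p.1 (mer p.2))) (t, u)).flip e) (t, u) := by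
  have h := (contDiffAt_Γ hF ht u).of_le two_le_infty
  have d1 := ((h.fderiv_right (m := 1) (by norm_num)).differentiableAt
    (by norm_num)).hasFDerivAt
  have := d1.clm_apply (hasFDerivAt_const e (t, u))
  simpa using this

/-- The mixed second derivative. -/
lemma mixed {t : ℝ} (ht : t ∈ timeInt T) (u : ℝ) :
    ∃ D : Euc 4, HasDerivAt (fun s => deriv (fun u => F s (mer u)) u) D t ∧
      HasDerivAt (fun v => meanCurvature 2 (F t) (mer v)) D u := by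
  refine ⟨fderiv ℝ (fderiv ℝ (fun p : ℝ × ℝ => F p.1 (mer p.2))) (t, u) (1, 0) (0, 1), ?_, ?_⟩
  · have h2 : HasDerivAt (fun s : ℝ => (s, u)) ((1 : ℝ), (0 : ℝ)) t :=
      (hasDerivAt_id t).prodMk (hasDerivAt_const t u)
    have h3 := (hasFDerivAt_fderiv_Γ hF ht u (0, 1)).comp_hasDerivAt t h2
    refine h3.congr_of_eventuallyEq ?_
    filter_upwards [(isOpen_timeInt T).mem_nhds ht] with s hs
    exact (fderiv_Γ_u hF hs u).symm
  · have h2 : HasDerivAt (fun s : ℝ => (t, s)) ((0 : ℝ), (1 : ℝ)) u :=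
      (hasDerivAt_const u t).prodMk (hasDerivAt_id u)
    have h3 := (hasFDerivAt_fderiv_Γ hF ht u (1, 0)).comp_hasDerivAt u h2
    have hsym := ((contDiffAt_Γ hF ht u).isSymmSndFDerivAt (by simp [two_le_infty])).eq
      (1, 0) (0, 1)
    rw [hsym]
    refine h3.congr_of_eventuallyEq ?_
    filter_upwards with s
    exact (fderiv_Γ_t hF ht s).symm

lemma continuousOn_H : ContinuousOn (fun p : ℝ × ℝ => meanCurvature 2 (F p.1) (mer p.2))
    (timeInt T ×ˢ univ) := by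
  intro p hp
  have h := (contDiffAt_Γ hF hp.1 p.2)
  have h2 : ContinuousAt (fun p => fderiv ℝ (fun p : ℝ × ℝ => F p.1 (mer p.2)) p (1, 0)) p :=
    (hasFDerivAt_fderiv_Γ hF hp.1 p.2 (1, 0)).continuousAt
  refine (h2.continuousWithinAt).congr ?_ ?_
  · rintro ⟨t, u⟩ ⟨ht, _⟩
    exact (fderiv_Γ_t hF ht u).symm
  · exact (fderiv_Γ_t hF hp.1 p.2).symm

end

end Pool.Agent.H15.MCF
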