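import Mathlib
import Pool.Agent.H15.MCF.Flow

/-!
# The cone over a family of immersions of the sphere
-/

namespace Pool.Agent.H15.MCF

open scoped Manifold ContDiff RealInnerProductSpace Topology
open Set

/-- Radial projection to the sphere. -/
noncomputable def nrm (x : Euc 3) : S2 :=
  if h : x = 0 then mer 0 else ⟨‖x‖⁻¹ • x, by
    rw [mem_sphere_zero_iff_norm, norm_smul, norm_inv, norm_norm]
    exact inv_mul_cancel₀ (norm_ne_zero_iff.2 h)⟩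

lemma coe_nrm {x : Euc 3} (h : x ≠ 0) : (nrm x : Euc 3) = ‖x‖⁻¹ • x := by
  unfold nrm; rw [dif_neg h]

lemma coe_ne_zero (y : S2) : (y : Euc 3) ≠ 0 := by
  intro h
  have := norm_coe y
  rw [h, norm_zero] at this
  norm_num at this

lemma nrm_coe (y : S2) : nrm (y : Euc 3) = y := by
  apply Subtype.ext
  rw [coe_nrm (coe_ne_zero y), norm_coe]
  simp

lemma contMDiffAt_nrm {x : Euc 3} (hx : x ≠ 0) : ContMDiffAt 𝓘(ℝ, Euc 3) (𝓡 2) ∞ nrm x := by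
  have : Fact (Module.finrank ℝ (Euc 3) = 2 + 1) := ⟨by simp⟩
  let U : TopologicalSpace.Opens (Euc 3) := ⟨{0}ᶜ, isOpen_compl_singleton⟩
  have hU : ∀ x : U, (x : Euc 3) ≠ 0 := fun x => x.2
  have h1 : ContMDiff 𝓘(ℝ, Euc 3) 𝓘(ℝ, Euc 3) ∞ (fun x : U => ‖(x : Euc 3)‖⁻¹ • (x : Euc 3)) := by
    intro x
    have h2 : ContDiffAt ℝ ∞ (fun x : Euc 3 => ‖x‖⁻¹ • x) (x : Euc 3) := by
      have h3 : ContDiffAt ℝ ∞ (fun x : Euc 3 => ‖x‖) (x : Euc 3) := contDiffAt_norm ℝ (hU x)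
      exact (h3.inv (norm_ne_zero_iff.2 (hU x))).smul contDiffAt_id
    have h4 : ContMDiffAt 𝓘(ℝ, Euc 3) 𝓘(ℝ, Euc 3) ∞ (fun x : Euc 3 => ‖x‖⁻¹ • x) (x : Euc 3) :=
      h2.contMDiffAt
    exact contMDiffAt_subtype_iff.2 h4
  have h5 := h1.codRestrict_sphere (n := 2) (E := Euc 3) (fun x => by
    rw [mem_sphere_zero_iff_norm, norm_smul, norm_inv, norm_norm]
    exact inv_mul_cancel₀ (norm_ne_zero_iff.2 (hU x)))
  have h6 : (fun x : U => nrm (x : Euc 3)) = (Set.codRestrict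
      (fun x : U => ‖(x : Euc 3)‖⁻¹ • (x : Euc 3)) (Metric.sphere (0 : Euc 3) 1) (fun x => by
    rw [mem_sphere_zero_iff_norm, norm_smul, norm_inv, norm_norm]
    exact inv_mul_cancel₀ (norm_ne_zero_iff.2 (hU x))) : U → S2) := by
    funext x
    apply Subtype.ext
    rw [coe_nrm (hU x)]
    rfl
  rw [← h6] at h5
  exact contMDiffAt_subtype_iff.1 (h5 ⟨x, hx⟩)

/-- The cone over `F t`, with the time as a parameter. -/
noncomputable def Theta (F : ℝ → S2 → Euc 4) (t : ℝ) (x : Euc 3) : Euc 4 := ‖x‖ • F t (nrm x)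

section

variable {F₀ : S2 → Euc 4} {T : EReal} {F : ℝ → S2 → Euc 4} (hF : IsMCF 2 F₀ T F)
include hF

lemma contDiffOn_ext : ContDiffOn ℝ ∞ (fun p : ℝ × Euc 3 => F p.1 (nrm p.2))
    (timeDomain T ×ˢ {0}ᶜ) := by
  rw [← contMDiffOn_iff_contDiffOn]
  have h1 : ContMDiffOn 𝓘(ℝ, ℝ × Euc 3) (𝓘(ℝ, ℝ).prod (𝓡 2)) ∞
      (fun p : ℝ × Euc 3 => (p.1, nrm p.2)) (timeDomain T ×ˢ {0}ᶜ) := by
    rintro ⟨t, x⟩ ⟨-, hx⟩
    have h2 : ContMDiffAt 𝓘(ℝ, ℝ × Euc 3) (𝓘(ℝ, ℝ).prod (𝓡 2)) ∞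
        (fun p : ℝ × Euc 3 => (p.1, nrm p.2)) (t, x) := by
      have h3 : ContMDiffAt 𝓘(ℝ, ℝ × Euc 3) 𝓘(ℝ, Euc 3) ∞ (fun p : ℝ × Euc 3 => p.2) (t, x) :=
        contDiffAt_snd.contMDiffAt
      have h4 : ContMDiffAt 𝓘(ℝ, ℝ × Euc 3) 𝓘(ℝ, ℝ) ∞ (fun p : ℝ × Euc 3 => p.1) (t, x) :=
        contDiffAt_fst.contMDiffAt
      exact h4.prodMk (ContMDiffAt.comp (t, x) (contMDiffAt_nrm hx) h3)
    exact h2.contMDiffWithinAt
  exact hF.smooth.comp h1 (fun p hp => ⟨hp.1, mem_univ _⟩)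

lemma contDiffOn_Theta : ContDiffOn ℝ ∞ (fun p : ℝ × Euc 3 => Theta F p.1 p.2)
    (timeDomain T ×ˢ {0}ᶜ) := by
  have h1 : ContDiffOn ℝ ∞ (fun p : ℝ × Euc 3 => ‖p.2‖) (timeDomain T ×ˢ {0}ᶜ) := by
    rintro ⟨t, x⟩ ⟨-, hx⟩
    exact ((contDiffAt_norm ℝ (show x ≠ 0 from hx)).comp (t, x) contDiffAt_snd).contDiffWithinAt
  exact h1.smul (contDiffOn_ext hF)

end

section Partial

/-- The partial derivative of a smooth function of two variables is smooth. -/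
lemma contDiffOn_partial {E : Type} [NormedAddCommGroup E] [NormedSpace ℝ E]
    {f : ℝ → Euc 3 → E} {J : Set ℝ} {U : Set (Euc 3)} (hJ : UniqueDiffOn ℝ J) (hU : IsOpen U)
    (hf : ContDiffOn ℝ ∞ (fun p : ℝ × Euc 3 => f p.1 p.2) (J ×ˢ U)) :
    ContDiffOn ℝ ∞ (fun p : ℝ × Euc 3 => fderiv ℝ (f p.1) p.2) (J ×ˢ U) := by
  have hS : UniqueDiffOn ℝ (J ×ˢ U) := hJ.prod hU.uniqueDiffOn
  have h1 : ContDiffOn ℝ ∞ (fun p : ℝ × Euc 3 =>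
      (fderivWithin ℝ (fun p : ℝ × Euc 3 => f p.1 p.2) (J ×ˢ U) p).comp
        (ContinuousLinearMap.inr ℝ ℝ (Euc 3))) (J ×ˢ U) :=
    (hf.fderivWithin hS (by simp)).clm_comp contDiffOn_const
  refine h1.congr ?_
  rintro ⟨t, x⟩ ⟨ht, hx⟩
  have h2 := (hf.differentiableOn (by simp) (t, x) ⟨ht, hx⟩).hasFDerivWithinAt
  have h3 : HasFDerivWithinAt (fun y : Euc 3 => (t, y)) (ContinuousLinearMap.inr ℝ ℝ (Euc 3))
      U x := (hasFDerivAt_prodMk_right t x).hasFDerivWithinAt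
  have h4 := h2.comp x h3 (fun y hy => ⟨ht, hy⟩)
  exact (h4.hasFDerivAt (hU.mem_nhds hx)).fderiv

end Partial

end Pool.Agent.H15.MCF
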