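import Mathlib

/-!
# First and second order conditions at a max-min point
-/

namespace Pool.Agent.H15.MCF

open scoped Topology
open Filter

section Taylor

variable {V : Type} [NormedAddCommGroup V] [NormedSpace ℝ V]

/-- Second order Taylor expansion. -/
lemma taylor2 {E : V → ℝ} (hE : ContDiffAt ℝ 2 E 0) {ε : ℝ} (hε : 0 < ε) :
    ∀ᶠ ξ in 𝓝 (0 : V), |E ξ - E 0 - fderiv ℝ E 0 ξ - 1 / 2 * fderiv ℝ (fderiv ℝ E) 0 ξ ξ| ≤
      ε * ‖ξ‖ ^ 2 := by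
  have hsym : ∀ v w, fderiv ℝ (fderiv ℝ E) 0 v w = fderiv ℝ (fderiv ℝ E) 0 w v := fun v w =>
    (hE.isSymmSndFDerivAt (by simp)).eq v w
  set L := fderiv ℝ E 0 with hL
  set Q := fderiv ℝ (fderiv ℝ E) 0 with hQ
  have hd : HasFDerivAt (fderiv ℝ E) Q 0 :=
    ((hE.fderiv_right (m := 1) (by norm_num)).differentiableAt (by norm_num)).hasFDerivAt
  have hev : ∀ᶠ ξ in 𝓝 (0 : V), DifferentiableAt ℝ E ξ := by
    filter_upwards [hE.eventually (by simp)] with y hy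
    exact hy.differentiableAt (by norm_num)
  have hlo : ∀ᶠ ξ in 𝓝 (0 : V), ‖fderiv ℝ E ξ - L - Q ξ‖ ≤ ε * ‖ξ‖ := by
    have := (hasFDerivAt_iff_isLittleO_nhds_zero.1 hd).def hε
    simpa using this
  obtain ⟨r, hr, hball⟩ := Metric.eventually_nhds_iff_ball.1 (hev.and hlo)
  filter_upwards [Metric.ball_mem_nhds (0 : V) hr] with ξ hξ
  -- the function `g` has small derivative on the closed ball of radius `‖ξ‖`
  let g : V → ℝ := fun y => E y - L y - 1 / 2 * Q y y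
  have hg : ∀ y ∈ Metric.closedBall (0 : V) ‖ξ‖, HasFDerivWithinAt g
      (fderiv ℝ E y - L - Q y) (Metric.closedBall (0 : V) ‖ξ‖) y := by
    intro y hy
    have hy' : y ∈ Metric.ball (0 : V) r := by
      rw [mem_ball_zero_iff] at hξ ⊢
      rw [mem_closedBall_zero_iff] at hy
      linarith
    have h1 := (hball y hy').1.hasFDerivAt
    have h2 : HasFDerivAt (fun y => Q y y) (Q y + Q.flip y) y := by
      have := (Q.hasFDerivAt (x := y)).clm_apply (hasFDerivAt_id y)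
      refine this.congr_fderiv ?_
      ext v
      simp
    have h3 := ((h1.sub (L.hasFDerivAt (x := y))).sub (h2.const_mul (1 / 2))).hasFDerivWithinAt
      (s := Metric.closedBall (0 : V) ‖ξ‖)
    refine h3.congr_fderiv ?_
    ext v
    simp only [sub_apply, smul_apply, add_apply, ContinuousLinearMap.flip_apply, smul_eq_mul]
    rw [hsym v y]
    ring
  have hbound : ∀ y ∈ Metric.closedBall (0 : V) ‖ξ‖, ‖fderiv ℝ E y - L - Q y‖ ≤ ε * ‖ξ‖ := by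
    intro y hy
    have hy' : y ∈ Metric.ball (0 : V) r := by
      rw [mem_ball_zero_iff] at hξ ⊢
      rw [mem_closedBall_zero_iff] at hy
      linarith
    rw [mem_closedBall_zero_iff] at hy
    exact (hball y hy').2.trans (mul_le_mul_of_nonneg_left hy hε.le)
  have h4 := (convex_closedBall (0 : V) ‖ξ‖).norm_image_sub_le_of_norm_hasFDerivWithin_le hg
    hbound (x := 0) (y := ξ) (by simp) (by simp)
  simp only [g, Real.norm_eq_abs, map_zero, sub_zero, mul_zero] at h4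
  have h5 : E ξ - L ξ - 1 / 2 * Q ξ ξ - E 0 = E ξ - E 0 - L ξ - 1 / 2 * Q ξ ξ := by ring
  rw [h5] at h4
  calc _ ≤ ε * ‖ξ‖ * ‖ξ‖ := h4
    _ = ε * ‖ξ‖ ^ 2 := by ring

end Taylor

section MM

variable {V : Type} [NormedAddCommGroup V] [NormedSpace ℝ V] [FiniteDimensional ℝ V]

lemma pos_def_bound {Q : (ℝ × V) →L[ℝ] (ℝ × V) →L[ℝ] ℝ} (hQ : ∀ ξ, ξ ≠ 0 → 0 < Q ξ ξ) :
    ∃ μ > 0, ∀ ξ, μ * ‖ξ‖ ^ 2 ≤ Q ξ ξ := by
  have hproper : ProperSpace (ℝ × V) := FiniteDimensional.proper ℝ (ℝ × V)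
  have hcomp : IsCompact (Metric.sphere (0 : ℝ × V) 1) := isCompact_sphere 0 1
  have hcont : ContinuousOn (fun ξ => Q ξ ξ) (Metric.sphere (0 : ℝ × V) 1) := by fun_prop
  obtain ⟨ξ₀, hξ₀, hmin⟩ := hcomp.exists_isMinOn ⟨((1 : ℝ), (0 : V)), by simp⟩ hcont
  have hξ₀' : ‖ξ₀‖ = 1 := by simpa using hξ₀
  refine ⟨Q ξ₀ ξ₀, hQ ξ₀ (by intro h; rw [h, norm_zero] at hξ₀'; norm_num at hξ₀'), fun ξ => ?_⟩
  by_cases h0 : ξ = 0
  · rw [h0]; simp
  · have hn : 0 < ‖ξ‖ := norm_pos_iff.2 h0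
    have h1 : Q ξ₀ ξ₀ ≤ Q (‖ξ‖⁻¹ • ξ) (‖ξ‖⁻¹ • ξ) := by
      apply hmin
      rw [mem_sphere_zero_iff_norm, norm_smul, norm_inv, norm_norm]
      exact inv_mul_cancel₀ hn.ne'
    have h2 : Q (‖ξ‖⁻¹ • ξ) (‖ξ‖⁻¹ • ξ) = (‖ξ‖⁻¹) ^ 2 * Q ξ ξ := by
      simp only [map_smul, smul_apply, smul_eq_mul]
      ring
    rw [h2] at h1
    calc Q ξ₀ ξ₀ * ‖ξ‖ ^ 2 ≤ (‖ξ‖⁻¹ ^ 2 * Q ξ ξ) * ‖ξ‖ ^ 2 :=
          mul_le_mul_of_nonneg_right h1 (by positivity)
      _ = Q ξ ξ := by field_simp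

/-- First and second order conditions at a max-min point. -/
lemma max_min {E : ℝ × V → ℝ} (hE : ContDiffAt ℝ 2 E 0) (h1 : ∀ y, fderiv ℝ E 0 (0, y) = 0)
    {l : ℝ} (hl : 0 < l) (h2 : ∀ y, l * ‖y‖ ^ 2 ≤ fderiv ℝ (fderiv ℝ E) 0 (0, y) (0, y))
    (h3 : ∀ U ∈ 𝓝 (0 : V), ∀ᶠ s in 𝓝[≠] (0 : ℝ), ∃ y ∈ U, E (s, y) ≤ E 0) :
    fderiv ℝ E 0 (1, 0) = 0 ∧ ∃ z, fderiv ℝ (fderiv ℝ E) 0 (1, z) (1, z) ≤ 0 := by
  have hsym : ∀ v w, fderiv ℝ (fderiv ℝ E) 0 v w = fderiv ℝ (fderiv ℝ E) 0 w v := fun v w =>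
    (hE.isSymmSndFDerivAt (by simp)).eq v w
  set L := fderiv ℝ E 0 with hL
  set Q := fderiv ℝ (fderiv ℝ E) 0 with hQ
  have hLs : ∀ (s : ℝ) (y : V), L (s, y) = s * L (1, 0) := by
    intro s y
    have : ((s, y) : ℝ × V) = s • ((1 : ℝ), (0 : V)) + ((0 : ℝ), y) := by simp
    rw [this, map_add, map_smul, h1, add_zero, smul_eq_mul]
  have hQs : ∀ (s : ℝ) (y : V), Q (s, y) (s, y) =
      s ^ 2 * Q (1, 0) (1, 0) + 2 * s * Q (1, 0) (0, y) + Q (0, y) (0, y) := by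
    intro s y
    have : ((s, y) : ℝ × V) = s • ((1 : ℝ), (0 : V)) + ((0 : ℝ), y) := by simp
    rw [this]
    simp only [map_add, map_smul, add_apply, smul_apply, smul_eq_mul]
    rw [hsym (0, y) (1, 0)]
    ring
  have hL0 : L (1, 0) = 0 := by
    by_contra hA
    set A := L (1, 0) with hAdef
    set M := ‖Q‖ with hM
    have hM0 : 0 ≤ M := by positivity
    have hb1 : |Q (1, 0) (1, 0)| ≤ M := by
      have := Q.le_opNorm₂ ((1 : ℝ), (0 : V)) ((1 : ℝ), (0 : V))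
      simpa using this
    have hb2 : ∀ y : V, |Q (1, 0) (0, y)| ≤ M * ‖y‖ := by
      intro y
      have := Q.le_opNorm₂ ((1 : ℝ), (0 : V)) ((0 : ℝ), y)
      simpa using this
    have hT := taylor2 hE (ε := l / 8) (by positivity)
    obtain ⟨r, hr, hball⟩ := Metric.eventually_nhds_iff_ball.1 hT
    have h4 := h3 (Metric.ball 0 r) (Metric.ball_mem_nhds 0 hr)
    rw [eventually_nhdsWithin_iff] at h4
    obtain ⟨r', hr', hball'⟩ := Metric.eventually_nhds_iff_ball.1 h4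
    set C := M / 2 + l / 8 + M ^ 2 / l with hC
    have hC0 : 0 < C := by positivity
    have hA0 : 0 < |A| := abs_pos.2 hA
    obtain ⟨τ, hτ0, hτ1⟩ := exists_between (show 0 < min (min r r') (|A| / C) by positivity)
    have hτr : τ < r := hτ1.trans_le ((min_le_left _ _).trans (min_le_left _ _))
    have hτr' : τ < r' := hτ1.trans_le ((min_le_left _ _).trans (min_le_right _ _))
    have hτC : τ * C < |A| := by
      have := hτ1.trans_le (min_le_right _ _)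
      rwa [lt_div_iff₀ hC0] at this
    -- choose the sign of `s`
    obtain ⟨s, hs1, hs2⟩ : ∃ s : ℝ, |s| = τ ∧ s * A = τ * |A| := by
      rcases lt_or_gt_of_ne hA with h | h
      · exact ⟨-τ, by rw [abs_neg, abs_of_pos hτ0], by rw [abs_of_neg h]; ring⟩
      · exact ⟨τ, abs_of_pos hτ0, by rw [abs_of_pos h]⟩
    have hsne : s ≠ 0 := by intro h; rw [h, abs_zero] at hs1; linarith
    obtain ⟨y, hy, hle⟩ := hball' s (by simpa [hs1] using hτr') hsne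
    have hyr : ‖y‖ < r := by simpa using hy
    have hξ : ((s, y) : ℝ × V) ∈ Metric.ball (0 : ℝ × V) r := by
      rw [mem_ball_zero_iff, Prod.norm_def]
      exact max_lt (by simpa [hs1] using hτr) hyr
    have h5 := hball (s, y) hξ
    rw [hLs, hQs] at h5
    have h6 := (abs_le.1 h5).1
    have hn : ‖((s, y) : ℝ × V)‖ ^ 2 ≤ τ ^ 2 + ‖y‖ ^ 2 := by
      rw [Prod.norm_def]
      simp only [Real.norm_eq_abs, hs1]
      rcases max_cases τ ‖y‖ with ⟨h, -⟩ | ⟨h, -⟩ <;> rw [h] <;> nlinarith [sq_nonneg τ, sq_nonneg ‖y‖]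
    have hss : s ^ 2 = τ ^ 2 := by rw [← hs1, sq_abs]
    have b1 := (abs_le.1 hb1).1
    have b2 : -(τ * (M * ‖y‖)) ≤ s * Q (1, 0) (0, y) := by
      have h7 : |s * Q (1, 0) (0, y)| ≤ τ * (M * ‖y‖) := by
        rw [abs_mul, hs1]
        exact mul_le_mul_of_nonneg_left (hb2 y) hτ0.le
      linarith [(abs_le.1 h7).1]
    have b3 := h2 y
    have b4 : M * τ * ‖y‖ ≤ l / 4 * ‖y‖ ^ 2 + M ^ 2 / l * τ ^ 2 := by
      have h8 : 0 ≤ (l / 2 * ‖y‖ - M * τ) ^ 2 / l := by positivity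
      have h9 : (l / 2 * ‖y‖ - M * τ) ^ 2 / l =
          l / 4 * ‖y‖ ^ 2 + M ^ 2 / l * τ ^ 2 - M * τ * ‖y‖ := by field_simp; ring
      linarith
    have b5 : -(M * τ ^ 2) ≤ s ^ 2 * Q (1, 0) (1, 0) := by
      rw [hss]; nlinarith [sq_nonneg τ]
    have b6 : 0 < τ * |A| - C * τ ^ 2 := by
      have : τ * |A| - C * τ ^ 2 = τ * (|A| - τ * C) := by ring
      rw [this]
      exact mul_pos hτ0 (by linarith)
    have b7 : C * τ ^ 2 = M / 2 * τ ^ 2 + l / 8 * τ ^ 2 + M ^ 2 / l * τ ^ 2 := by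
      rw [hC]; ring
    have b8 : l / 8 * ‖((s, y) : ℝ × V)‖ ^ 2 ≤ l / 8 * τ ^ 2 + l / 8 * ‖y‖ ^ 2 := by
      nlinarith
    have b9 := sq_nonneg ‖y‖
    nlinarith
  refine ⟨hL0, ?_⟩
  by_contra hcon
  push Not at hcon
  have hpos : ∀ ξ : ℝ × V, ξ ≠ 0 → 0 < Q ξ ξ := by
    rintro ⟨s, y⟩ hne
    by_cases hs : s = 0
    · subst hs
      have hy : y ≠ 0 := by intro h; apply hne; rw [h]; rfl
      have : 0 < ‖y‖ := norm_pos_iff.2 hy
      exact lt_of_lt_of_le (by positivity) (h2 y)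
    · have h5 : ((s, y) : ℝ × V) = s • ((1 : ℝ), s⁻¹ • y) := by
        ext
        · simp
        · simp [smul_smul, hs]
      rw [h5]
      have h6 := hcon (s⁻¹ • y)
      have h7 : Q (s • ((1 : ℝ), s⁻¹ • y)) (s • ((1 : ℝ), s⁻¹ • y)) =
          s ^ 2 * Q (1, s⁻¹ • y) (1, s⁻¹ • y) := by
        simp only [map_smul, smul_apply, smul_eq_mul]; ring
      rw [h7]
      positivity
  obtain ⟨μ, hμ, hμb⟩ := pos_def_bound hpos
  have hT := taylor2 hE (ε := μ / 4) (by positivity)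
  obtain ⟨r, hr, hball⟩ := Metric.eventually_nhds_iff_ball.1 hT
  have h4 := h3 (Metric.ball 0 r) (Metric.ball_mem_nhds 0 hr)
  rw [eventually_nhdsWithin_iff] at h4
  obtain ⟨r', hr', hball'⟩ := Metric.eventually_nhds_iff_ball.1 h4
  obtain ⟨τ, hτ0, hτ1⟩ := exists_between (show 0 < min r r' by positivity)
  obtain ⟨y, hy, hle⟩ := hball' τ (by
    rw [mem_ball_zero_iff, Real.norm_eq_abs, abs_of_pos hτ0]
    exact hτ1.trans_le (min_le_right _ _)) hτ0.ne'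
  have hyr : ‖y‖ < r := by simpa using hy
  have hξ : ((τ, y) : ℝ × V) ∈ Metric.ball (0 : ℝ × V) r := by
    rw [mem_ball_zero_iff, Prod.norm_def]
    exact max_lt (by
      rw [Real.norm_eq_abs, abs_of_pos hτ0]; exact hτ1.trans_le (min_le_left _ _)) hyr
  have h5 := (abs_le.1 (hball (τ, y) hξ)).1
  rw [hLs, hL0, mul_zero] at h5
  have h6 := hμb (τ, y)
  have h7 : 0 < ‖((τ, y) : ℝ × V)‖ := by
    rw [norm_pos_iff]
    intro h
    have := congrArg Prod.fst h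
    simp at this
    linarith
  have h8 : 0 < μ * ‖((τ, y) : ℝ × V)‖ ^ 2 := by positivity
  linarith

end MM

end Pool.Agent.H15.MCF
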