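import Mathlib
import Pool.Agent.H15.MCF.MaxMin
import Pool.Agent.H15.MCF.Mer

/-!
# A curve touching a parallel surface of an immersion
-/

namespace Pool.Agent.H15.MCF

open scoped Topology RealInnerProductSpace
open Filter

section NormSq

variable {X W : Type} [NormedAddCommGroup X] [NormedSpace ℝ X] [NormedAddCommGroup W]
  [InnerProductSpace ℝ W]

lemma fderiv_norm_sq' {R : X → W} {x : X} (hR : DifferentiableAt ℝ R x) (v : X) :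
    fderiv ℝ (fun x => ‖R x‖ ^ 2) x v = 2 * ⟪R x, fderiv ℝ R x v⟫ := by
  rw [hR.hasFDerivAt.norm_sq.fderiv]
  simp

lemma fderiv2_norm_sq' {R : X → W} {x : X} (hR : ContDiffAt ℝ 2 R x) (v w : X) :
    fderiv ℝ (fderiv ℝ (fun x => ‖R x‖ ^ 2)) x v w =
      2 * ⟪fderiv ℝ R x v, fderiv ℝ R x w⟫ + 2 * ⟪R x, fderiv ℝ (fderiv ℝ R) x v w⟫ := by
  have d1 : HasFDerivAt (fderiv ℝ R) (fderiv ℝ (fderiv ℝ R) x) x :=
    ((hR.fderiv_right (m := 1) (by norm_num)).differentiableAt (by norm_num)).hasFDerivAt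
  have d2 : HasFDerivAt (fun y => fderiv ℝ R y w) ((fderiv ℝ (fderiv ℝ R) x).flip w) x := by
    have := d1.clm_apply (hasFDerivAt_const w x)
    simpa using this
  have d3 : HasFDerivAt R (fderiv ℝ R x) x := (hR.differentiableAt (by norm_num)).hasFDerivAt
  have hE : ContDiffAt ℝ 2 (fun x => ‖R x‖ ^ 2) x := hR.norm_sq ℝ
  have d4 : HasFDerivAt (fderiv ℝ (fun x => ‖R x‖ ^ 2))
      (fderiv ℝ (fderiv ℝ (fun x => ‖R x‖ ^ 2)) x) x :=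
    ((hE.fderiv_right (m := 1) (by norm_num)).differentiableAt (by norm_num)).hasFDerivAt
  have d5 : HasFDerivAt (fun y => fderiv ℝ (fun x => ‖R x‖ ^ 2) y w)
      ((fderiv ℝ (fderiv ℝ (fun x => ‖R x‖ ^ 2)) x).flip w) x := by
    have := d4.clm_apply (hasFDerivAt_const w x)
    simpa using this
  have he : (fun y => fderiv ℝ (fun x => ‖R x‖ ^ 2) y w) =ᶠ[𝓝 x]
      fun y => 2 * ⟪R y, fderiv ℝ R y w⟫ := by
    filter_upwards [hR.eventually (by simp)] with y hy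
    exact fderiv_norm_sq' (hy.differentiableAt (by norm_num)) w
  have d6 := ((d3.inner ℝ d2).const_mul 2).congr_of_eventuallyEq he
  have d7 := congrArg (fun L => L v) (d5.unique d6)
  simp only [ContinuousLinearMap.flip_apply, smul_apply, ContinuousLinearMap.comp_apply,
    smul_eq_mul] at d7
  rw [d7]
  simp
  ring

end NormSq

section Touch

variable {V W : Type} [NormedAddCommGroup V] [NormedSpace ℝ V] [FiniteDimensional ℝ V]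
  [NormedAddCommGroup W] [InnerProductSpace ℝ W]

omit [FiniteDimensional ℝ V] in
lemma fderiv2_fst {f : ℝ → W} (hf : ContDiffAt ℝ 2 f 0) (u v : ℝ × V) :
    fderiv ℝ (fderiv ℝ (fun ξ : ℝ × V => f ξ.1)) 0 u v =
      fderiv ℝ (fderiv ℝ f) 0 u.1 v.1 := by
  have h := fderiv2_comp (f := f) (ψ := (Prod.fst : ℝ × V → ℝ)) (a := 0) hf contDiffAt_fst u v
  have h1 : fderiv ℝ (Prod.fst : ℝ × V → ℝ) = fun _ => ContinuousLinearMap.fst ℝ ℝ V := by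
    funext x; exact fderiv_fst
  have h2 : (f ∘ (Prod.fst : ℝ × V → ℝ)) = fun ξ : ℝ × V => f ξ.1 := rfl
  rw [h2, h1] at h
  rw [h]
  simp

omit [FiniteDimensional ℝ V] in
lemma fderiv2_snd {f : V → W} (hf : ContDiffAt ℝ 2 f 0) (u v : ℝ × V) :
    fderiv ℝ (fderiv ℝ (fun ξ : ℝ × V => f ξ.2)) 0 u v =
      fderiv ℝ (fderiv ℝ f) 0 u.2 v.2 := by
  have h := fderiv2_comp (f := f) (ψ := (Prod.snd : ℝ × V → V)) (a := 0) hf contDiffAt_snd u v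
  have h1 : fderiv ℝ (Prod.snd : ℝ × V → V) = fun _ => ContinuousLinearMap.snd ℝ ℝ V := by
    funext x; exact fderiv_snd
  have h2 : (f ∘ (Prod.snd : ℝ × V → V)) = fun ξ : ℝ × V => f ξ.2 := rfl
  rw [h2, h1] at h
  rw [h]
  simp

/-- First and second order conditions for a curve `P` which touches the parallel surface at distance
`d` of an immersion `f` from below. -/
lemma touching {P : ℝ → W} {f : V → W} (hP : ContDiffAt ℝ 2 P 0) (hf : ContDiffAt ℝ 2 f 0)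
    {η : W} {d c K : ℝ} (hd : 0 < d) (hη : P 0 - f 0 = d • η)
    (h1 : ∀ y, ⟪η, fderiv ℝ f 0 y⟫ = 0) (hc : 0 < c) (hc1 : ∀ y, c * ‖y‖ ≤ ‖fderiv ℝ f 0 y‖)
    (hK : ∀ y y', |⟪η, fderiv ℝ (fderiv ℝ f) 0 y y'⟫| ≤ K * ‖y‖ * ‖y'‖)
    (hdK : d * K ≤ c ^ 2 / 2) (hη1 : ‖η‖ = 1)
    (h3 : ∀ U ∈ 𝓝 (0 : V), ∀ᶠ s in 𝓝[≠] (0 : ℝ), ∃ y ∈ U, ‖P s - f y‖ ≤ d) :
    ⟪η, deriv P 0⟫ = 0 ∧ ∀ w, fderiv ℝ f 0 w = deriv P 0 →
      ⟪η, deriv (deriv P) 0 - fderiv ℝ (fderiv ℝ f) 0 w w⟫ ≤ 2 * K ^ 2 * ‖w‖ ^ 2 / c ^ 2 * d := by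
  set R : ℝ × V → W := fun ξ => P ξ.1 - f ξ.2 with hR
  have hP' : ContDiffAt ℝ 2 (fun ξ : ℝ × V => P ξ.1) 0 := ContDiffAt.comp (0 : ℝ × V) hP contDiffAt_fst
  have hf' : ContDiffAt ℝ 2 (fun ξ : ℝ × V => f ξ.2) 0 := ContDiffAt.comp (0 : ℝ × V) hf contDiffAt_snd
  have hRc : ContDiffAt ℝ 2 R 0 := hP'.sub hf'
  have hR0 : R 0 = d • η := hη
  have hdP := (hP.differentiableAt (by norm_num)).hasFDerivAt
  have hdf := (hf.differentiableAt (by norm_num)).hasFDerivAt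
  have hdR : ∀ (s : ℝ) (y : V), fderiv ℝ R 0 (s, y) = s • deriv P 0 - fderiv ℝ f 0 y := by
    intro s y
    have a1 : HasFDerivAt (fun ξ : ℝ × V => P ξ.1)
        ((fderiv ℝ P 0).comp (ContinuousLinearMap.fst ℝ ℝ V)) 0 :=
      HasFDerivAt.comp (0 : ℝ × V) hdP hasFDerivAt_fst
    have a2 : HasFDerivAt (fun ξ : ℝ × V => f ξ.2)
        ((fderiv ℝ f 0).comp (ContinuousLinearMap.snd ℝ ℝ V)) 0 :=
      HasFDerivAt.comp (0 : ℝ × V) hdf hasFDerivAt_snd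
    have a3 : HasFDerivAt R _ 0 := a1.sub a2
    rw [a3.fderiv]
    simp
  have hP2 : ∀ s s' : ℝ, fderiv ℝ (fderiv ℝ P) 0 s s' = (s * s') • deriv (deriv P) 0 := by
    intro s s'
    rw [← fderiv2_one hP]
    have e1 : s = s • (1 : ℝ) := by simp
    have e2 : s' = s' • (1 : ℝ) := by simp
    conv_lhs => rw [e1, e2]
    rw [map_smul, map_smul, smul_apply, smul_smul, mul_comm]
  have hd2R : ∀ (s s' : ℝ) (y y' : V), fderiv ℝ (fderiv ℝ R) 0 (s, y) (s', y') =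
      (s * s') • deriv (deriv P) 0 - fderiv ℝ (fderiv ℝ f) 0 y y' := by
    intro s s' y y'
    have a1 : fderiv ℝ R =ᶠ[𝓝 0] fun ξ => fderiv ℝ (fun ξ : ℝ × V => P ξ.1) ξ -
        fderiv ℝ (fun ξ : ℝ × V => f ξ.2) ξ := by
      filter_upwards [hP'.eventually (by simp), hf'.eventually (by simp)] with ξ b1 b2
      exact fderiv_sub (b1.differentiableAt (by norm_num)) (b2.differentiableAt (by norm_num))
    rw [a1.fderiv_eq]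
    have c1 : DifferentiableAt ℝ (fderiv ℝ (fun ξ : ℝ × V => P ξ.1)) 0 :=
      (hP'.fderiv_right (m := 1) (by norm_num)).differentiableAt (by norm_num)
    have c2 : DifferentiableAt ℝ (fderiv ℝ (fun ξ : ℝ × V => f ξ.2)) 0 :=
      (hf'.fderiv_right (m := 1) (by norm_num)).differentiableAt (by norm_num)
    have c3 : fderiv ℝ (fun ξ => fderiv ℝ (fun ξ : ℝ × V => P ξ.1) ξ -
        fderiv ℝ (fun ξ : ℝ × V => f ξ.2) ξ) 0 = _ := fderiv_sub c1 c2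
    rw [c3]
    simp only [sub_apply]
    rw [fderiv2_fst hP, fderiv2_snd hf, hP2]
  have hE : ContDiffAt ℝ 2 (fun ξ => ‖R ξ‖ ^ 2) 0 := hRc.norm_sq ℝ
  have hdE : ∀ (s : ℝ) (y : V), fderiv ℝ (fun ξ => ‖R ξ‖ ^ 2) 0 (s, y) =
      2 * (d * (s * ⟪η, deriv P 0⟫)) := by
    intro s y
    rw [fderiv_norm_sq' (hRc.differentiableAt (by norm_num)), hdR, hR0, inner_smul_left,
      inner_sub_right, inner_smul_right, h1]
    simp
  have hd2E : ∀ (s : ℝ) (y : V), fderiv ℝ (fderiv ℝ (fun ξ => ‖R ξ‖ ^ 2)) 0 (s, y) (s, y) =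
      2 * ‖s • deriv P 0 - fderiv ℝ f 0 y‖ ^ 2 +
        2 * (d * ⟪η, (s * s) • deriv (deriv P) 0 - fderiv ℝ (fderiv ℝ f) 0 y y⟫) := by
    intro s y
    rw [fderiv2_norm_sq' hRc, hdR, hR0, hd2R, real_inner_self_eq_norm_sq, inner_smul_left]
    simp
  have hmm := max_min hE (fun y => by rw [hdE]; ring) (l := c ^ 2) (by positivity) (fun y => by
    rw [hd2E]
    have b1 := hc1 y
    have b2 : c ^ 2 * ‖y‖ ^ 2 ≤ ‖fderiv ℝ f 0 y‖ ^ 2 := by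
      have := norm_nonneg y
      have h5 : 0 ≤ c * ‖y‖ := by positivity
      nlinarith
    have b3 := (abs_le.1 (hK y y)).2
    have b4 : d * ⟪η, fderiv ℝ (fderiv ℝ f) 0 y y⟫ ≤ c ^ 2 / 2 * ‖y‖ ^ 2 := by
      calc d * ⟪η, fderiv ℝ (fderiv ℝ f) 0 y y⟫ ≤ d * (K * ‖y‖ * ‖y‖) :=
            mul_le_mul_of_nonneg_left b3 hd.le
        _ = d * K * ‖y‖ ^ 2 := by ring
        _ ≤ c ^ 2 / 2 * ‖y‖ ^ 2 := mul_le_mul_of_nonneg_right hdK (by positivity)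
    simp only [zero_smul, zero_sub, norm_neg, mul_zero, inner_neg_right]
    linarith) (fun U hU => by
    filter_upwards [h3 U hU] with s hs
    obtain ⟨y, hy, hle⟩ := hs
    refine ⟨y, hy, ?_⟩
    have b1 : ‖R (s, y)‖ ≤ d := hle
    have b2 : ‖R 0‖ = d := by rw [hR0, norm_smul, hη1, Real.norm_eq_abs, abs_of_pos hd, mul_one]
    rw [b2]
    have := norm_nonneg (R (s, y))
    nlinarith)
  obtain ⟨m1, z, m2⟩ := hmm
  rw [hdE] at m1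
  have he : ⟪η, deriv P 0⟫ = 0 := by
    have : d * ⟪η, deriv P 0⟫ = 0 := by linarith
    exact (mul_eq_zero.1 this).resolve_left hd.ne'
  refine ⟨he, fun w hw => ?_⟩
  rw [hd2E, one_smul, one_mul, one_smul] at m2
  -- write `z = w + ζ`
  obtain ⟨ζ, rfl⟩ : ∃ ζ, z = w + ζ := ⟨z - w, by abel⟩
  rw [map_add, hw] at m2
  have e1 : deriv P 0 - (deriv P 0 + fderiv ℝ f 0 ζ) = - fderiv ℝ f 0 ζ := by abel
  rw [e1, norm_neg] at m2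
  have e2 : fderiv ℝ (fderiv ℝ f) 0 (w + ζ) (w + ζ) = fderiv ℝ (fderiv ℝ f) 0 w w +
      (fderiv ℝ (fderiv ℝ f) 0 w ζ + fderiv ℝ (fderiv ℝ f) 0 ζ w) +
        fderiv ℝ (fderiv ℝ f) 0 ζ ζ := by
    simp only [map_add, add_apply]; abel
  rw [e2] at m2
  have e3 : ⟪η, deriv (deriv P) 0 - (fderiv ℝ (fderiv ℝ f) 0 w w +
      (fderiv ℝ (fderiv ℝ f) 0 w ζ + fderiv ℝ (fderiv ℝ f) 0 ζ w) +
        fderiv ℝ (fderiv ℝ f) 0 ζ ζ)⟫ = ⟪η, deriv (deriv P) 0 - fderiv ℝ (fderiv ℝ f) 0 w w⟫ -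
      ⟪η, fderiv ℝ (fderiv ℝ f) 0 w ζ⟫ - ⟪η, fderiv ℝ (fderiv ℝ f) 0 ζ w⟫ -
      ⟪η, fderiv ℝ (fderiv ℝ f) 0 ζ ζ⟫ := by
    simp only [inner_sub_right, inner_add_right]; ring
  rw [e3] at m2
  set X := ⟪η, deriv (deriv P) 0 - fderiv ℝ (fderiv ℝ f) 0 w w⟫
  have k1 := (abs_le.1 (hK w ζ)).2
  have k2 := (abs_le.1 (hK ζ w)).2
  have k3 := (abs_le.1 (hK ζ ζ)).2
  have b2 : c ^ 2 * ‖ζ‖ ^ 2 ≤ ‖fderiv ℝ f 0 ζ‖ ^ 2 := by
    have := norm_nonneg ζ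
    have h5 : 0 ≤ c * ‖ζ‖ := by positivity
    have := hc1 ζ
    nlinarith
  have b4 : d * ⟪η, fderiv ℝ (fderiv ℝ f) 0 ζ ζ⟫ ≤ c ^ 2 / 2 * ‖ζ‖ ^ 2 := by
    calc d * ⟪η, fderiv ℝ (fderiv ℝ f) 0 ζ ζ⟫ ≤ d * (K * ‖ζ‖ * ‖ζ‖) :=
          mul_le_mul_of_nonneg_left k3 hd.le
      _ = d * K * ‖ζ‖ ^ 2 := by ring
      _ ≤ c ^ 2 / 2 * ‖ζ‖ ^ 2 := mul_le_mul_of_nonneg_right hdK (by positivity)
  have b5 : d * (⟪η, fderiv ℝ (fderiv ℝ f) 0 w ζ⟫ + ⟪η, fderiv ℝ (fderiv ℝ f) 0 ζ w⟫) ≤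
      2 * d * K * ‖w‖ * ‖ζ‖ := by
    calc _ ≤ d * (K * ‖w‖ * ‖ζ‖ + K * ‖ζ‖ * ‖w‖) :=
          mul_le_mul_of_nonneg_left (by linarith) hd.le
      _ = _ := by ring
  have b6 : 2 * d * K * ‖w‖ * ‖ζ‖ ≤ c ^ 2 / 2 * ‖ζ‖ ^ 2 + 2 * K ^ 2 * ‖w‖ ^ 2 / c ^ 2 * d ^ 2 := by
    have h8 : 0 ≤ (c ^ 2 * ‖ζ‖ - 2 * d * K * ‖w‖) ^ 2 / (2 * c ^ 2) := by positivity
    have h9 : (c ^ 2 * ‖ζ‖ - 2 * d * K * ‖w‖) ^ 2 / (2 * c ^ 2) =
        c ^ 2 / 2 * ‖ζ‖ ^ 2 + 2 * K ^ 2 * ‖w‖ ^ 2 / c ^ 2 * d ^ 2 -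
          2 * d * K * ‖w‖ * ‖ζ‖ := by field_simp; ring
    linarith
  have b7 : d * X ≤ d * (2 * K ^ 2 * ‖w‖ ^ 2 / c ^ 2 * d) := by
    have : d * (2 * K ^ 2 * ‖w‖ ^ 2 / c ^ 2 * d) = 2 * K ^ 2 * ‖w‖ ^ 2 / c ^ 2 * d ^ 2 := by ring
    rw [this]
    nlinarith
  exact le_of_mul_le_mul_left b7 hd

end Touch

end Pool.Agent.H15.MCF
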