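import Mathlib
import Pool.Agent.H15.MCF.Cone
import Pool.Agent.H15.MCF.Touch

/-!
# Derivatives of the cone
-/

namespace Pool.Agent.H15.MCF

open scoped Manifold ContDiff RealInnerProductSpace Topology
open Set

section Smul

variable {V W : Type} [NormedAddCommGroup V] [NormedSpace ℝ V] [NormedAddCommGroup W]
  [NormedSpace ℝ W]

lemma fderiv2_smul {ρ : V → ℝ} {Φ : V → W} {x : V} (hρ : ContDiffAt ℝ 2 ρ x)
    (hΦ : ContDiffAt ℝ 2 Φ x) (v w : V) :
    fderiv ℝ (fderiv ℝ (fun y => ρ y • Φ y)) x v w =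
      (fderiv ℝ (fderiv ℝ ρ) x v w) • Φ x + (fderiv ℝ ρ x v) • fderiv ℝ Φ x w +
        (fderiv ℝ ρ x w) • fderiv ℝ Φ x v + ρ x • fderiv ℝ (fderiv ℝ Φ) x v w := by
  have dρ : HasFDerivAt ρ (fderiv ℝ ρ x) x := (hρ.differentiableAt (by norm_num)).hasFDerivAt
  have dΦ : HasFDerivAt Φ (fderiv ℝ Φ x) x := (hΦ.differentiableAt (by norm_num)).hasFDerivAt
  have dρ2 : HasFDerivAt (fun y => fderiv ℝ ρ y w) ((fderiv ℝ (fderiv ℝ ρ) x).flip w) x := by
    have d1 : HasFDerivAt (fderiv ℝ ρ) (fderiv ℝ (fderiv ℝ ρ) x) x :=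
      ((hρ.fderiv_right (m := 1) (by norm_num)).differentiableAt (by norm_num)).hasFDerivAt
    have := d1.clm_apply (hasFDerivAt_const w x)
    simpa using this
  have dΦ2 : HasFDerivAt (fun y => fderiv ℝ Φ y w) ((fderiv ℝ (fderiv ℝ Φ) x).flip w) x := by
    have d1 : HasFDerivAt (fderiv ℝ Φ) (fderiv ℝ (fderiv ℝ Φ) x) x :=
      ((hΦ.fderiv_right (m := 1) (by norm_num)).differentiableAt (by norm_num)).hasFDerivAt
    have := d1.clm_apply (hasFDerivAt_const w x)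
    simpa using this
  have hE : ContDiffAt ℝ 2 (fun y => ρ y • Φ y) x := hρ.smul hΦ
  have d4 : HasFDerivAt (fderiv ℝ (fun y => ρ y • Φ y))
      (fderiv ℝ (fderiv ℝ (fun y => ρ y • Φ y)) x) x :=
    ((hE.fderiv_right (m := 1) (by norm_num)).differentiableAt (by norm_num)).hasFDerivAt
  have d5 : HasFDerivAt (fun z => fderiv ℝ (fun y => ρ y • Φ y) z w)
      ((fderiv ℝ (fderiv ℝ (fun y => ρ y • Φ y)) x).flip w) x := by
    have := d4.clm_apply (hasFDerivAt_const w x)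
    simpa using this
  have he : (fun z => fderiv ℝ (fun y => ρ y • Φ y) z w) =ᶠ[𝓝 x]
      fun z => ρ z • fderiv ℝ Φ z w + (fderiv ℝ ρ z w) • Φ z := by
    filter_upwards [hρ.eventually (by simp), hΦ.eventually (by simp)] with z h1 h2
    have h3 : HasFDerivAt (fun y => ρ y • Φ y) _ z :=
      (h1.differentiableAt (by norm_num)).hasFDerivAt.smul
        (h2.differentiableAt (by norm_num)).hasFDerivAt
    rw [h3.fderiv]
    simp
  have d6 := ((dρ.smul dΦ2).add (dρ2.smul dΦ)).congr_of_eventuallyEq he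
  have d7 := congrArg (fun L => L v) (d5.unique d6)
  simp only [ContinuousLinearMap.flip_apply] at d7
  rw [d7]
  simp
  abel

end Smul

section Fixed

variable {F : S2 → Euc 4} (hF : IsSphereImmersion 2 F) {x : Euc 3} (hx : x ≠ 0)

/-- The cone over a single immersion. -/
noncomputable def cone (F : S2 → Euc 4) (x : Euc 3) : Euc 4 := ‖x‖ • F (nrm x)

/-- The differential of the radial projection in the chart. -/
noncomputable def om (x w : Euc 3) : Euc 2 :=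
  fderiv ℝ (fun y => chartAt (Euc 2) (nrm x) (nrm y)) x w

include hx

lemma hasFDerivAt_norm' : HasFDerivAt (fun y : Euc 3 => ‖y‖) (‖x‖⁻¹ • innerSL ℝ x) x := by
  have h1 := (hasStrictFDerivAt_norm_sq x).hasFDerivAt
  have hn : ‖x‖ ≠ 0 := norm_ne_zero_iff.2 hx
  have h2 := h1.sqrt (pow_ne_zero 2 hn)
  have h3 : (fun y : Euc 3 => Real.sqrt (‖y‖ ^ 2)) = fun y => ‖y‖ := by
    funext y; exact Real.sqrt_sq (norm_nonneg _)
  rw [h3] at h2
  refine h2.congr_fderiv ?_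
  rw [Real.sqrt_sq (norm_nonneg _)]
  ext v
  simp
  field_simp

lemma fderiv_norm' (w : Euc 3) : fderiv ℝ (fun y : Euc 3 => ‖y‖) x w = ⟪x, w⟫ / ‖x‖ := by
  rw [(hasFDerivAt_norm' hx).fderiv]
  simp
  ring

lemma diff1_coe_om (w : Euc 3) : diff1 2 (fun y : S2 => (y : Euc 3)) (nrm x) (om x w) =
    ‖x‖⁻¹ • w - (⟪x, w⟫ / ‖x‖ ^ 3) • x := by
  have h := jet1 (F := fun y : S2 => (y : Euc 3)) (ψ := nrm) (a := x) (contMDiff_coe _)
    (contMDiffAt_nrm hx) w
  unfold om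
  rw [← h]
  have hn : ‖x‖ ≠ 0 := norm_ne_zero_iff.2 hx
  have h0 : HasFDerivAt (fun y : Euc 3 => ‖y‖⁻¹) _ x :=
    (hasDerivAt_inv hn).comp_hasFDerivAt x (hasFDerivAt_norm' hx)
  have h1 : HasFDerivAt (fun y : Euc 3 => ‖y‖⁻¹ • y) _ x := h0.smul (hasFDerivAt_id x)
  have h2 : (fun y : Euc 3 => ((nrm y : S2) : Euc 3)) =ᶠ[𝓝 x] fun y => ‖y‖⁻¹ • y := by
    filter_upwards [isOpen_ne.mem_nhds hx] with y hy
    exact coe_nrm hy
  rw [h2.fderiv_eq, h1.fderiv]
  simp only [add_apply, smul_apply, ContinuousLinearMap.smulRight_apply,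
    innerSL_apply_apply, smul_eq_mul, ContinuousLinearMap.id_apply]
  rw [sub_eq_add_neg, ← neg_smul]
  congr 2
  field_simp

lemma om_self : om x x = 0 := by
  apply diff1_coe_injective (nrm x)
  rw [diff1_coe_om hx, map_zero, real_inner_self_eq_norm_sq]
  have hn : ‖x‖ ≠ 0 := norm_ne_zero_iff.2 hx
  have : ‖x‖ ^ 2 / ‖x‖ ^ 3 = ‖x‖⁻¹ := by field_simp
  rw [this, sub_self]

include hF

lemma contDiffAt_Fnrm : ContDiffAt ℝ ∞ (fun y => F (nrm y)) x :=
  ((hF.smooth _).comp x (contMDiffAt_nrm hx)).contDiffAt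

lemma contDiffAt_cone : ContDiffAt ℝ ∞ (cone F) x :=
  (contDiffAt_norm ℝ hx).smul (contDiffAt_Fnrm hF hx)

lemma fderiv_cone (w : Euc 3) : fderiv ℝ (cone F) x w =
    (⟪x, w⟫ / ‖x‖) • F (nrm x) + ‖x‖ • diff1 2 F (nrm x) (om x w) := by
  have h1 := (hasFDerivAt_norm' hx)
  have h2 := ((contDiffAt_Fnrm hF hx).differentiableAt (by simp)).hasFDerivAt
  have h3 : HasFDerivAt (cone F) _ x := h1.smul h2
  have h4 := jet1 (F := F) (ψ := nrm) (a := x) (hF.smooth _) (contMDiffAt_nrm hx) w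
  rw [h3.fderiv]
  simp only [add_apply, smul_apply, ContinuousLinearMap.smulRight_apply, innerSL_apply_apply,
    smul_eq_mul]
  rw [h4, add_comm]
  unfold om
  congr 2
  ring

lemma fderiv_cone_self : fderiv ℝ (cone F) x x = cone F x := by
  rw [fderiv_cone hF hx, om_self hx, map_zero, smul_zero, add_zero, real_inner_self_eq_norm_sq]
  have hn : ‖x‖ ≠ 0 := norm_ne_zero_iff.2 hx
  have : ‖x‖ ^ 2 / ‖x‖ = ‖x‖ := by field_simp
  rw [this]
  rfl

lemma inner_fderiv_cone (w : Euc 3) : ⟪F (nrm x), fderiv ℝ (cone F) x w⟫ = ⟪x, w⟫ / ‖x‖ := by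
  rw [fderiv_cone hF hx, inner_add_right, inner_smul_right, inner_smul_right,
    real_inner_self_eq_norm_sq, hF.norm_eq_one, inner_self_diff1 (hF.smooth _) hF.norm_eq_one]
  ring

lemma fderiv_cone_injective : Function.Injective (fderiv ℝ (cone F) x) := by
  have hn : ‖x‖ ≠ 0 := norm_ne_zero_iff.2 hx
  rw [injective_iff_map_eq_zero]
  intro w hw
  have h1 := inner_fderiv_cone hF hx w
  rw [hw, inner_zero_right] at h1
  have h2 : ⟪x, w⟫ = 0 := by
    rcases div_eq_zero_iff.1 h1.symm with h | h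
    · exact h
    · exact absurd h hn
  rw [fderiv_cone hF hx, h2, zero_div, zero_smul, zero_add] at hw
  have h3 : diff1 2 F (nrm x) (om x w) = 0 := (smul_eq_zero.1 hw).resolve_left hn
  have h4 : om x w = 0 := hF.injective _ (by rw [h3, map_zero])
  have h5 := diff1_coe_om hx w
  rw [h4, map_zero, h2, zero_div, zero_smul, sub_zero] at h5
  exact (smul_eq_zero.1 h5.symm).resolve_left (inv_ne_zero hn)

lemma inner_fderiv2_cone {η : Euc 4} (h1 : ⟪η, F (nrm x)⟫ = 0)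
    (h2 : ∀ v, ⟪η, diff1 2 F (nrm x) v⟫ = 0) {w : Euc 3} (hw : ⟪x, w⟫ = 0) :
    ⟪η, fderiv ℝ (fderiv ℝ (cone F)) x w w⟫ =
      ‖x‖ * ⟪η, diff2 2 F (nrm x) (om x w) (om x w)⟫ := by
  have hρ : ContDiffAt ℝ 2 (fun y : Euc 3 => ‖y‖) x :=
    (contDiffAt_norm ℝ hx)
  have hΦ : ContDiffAt ℝ 2 (fun y => F (nrm y)) x := (contDiffAt_Fnrm hF hx).of_le two_le_infty
  have h3 := fderiv2_smul hρ hΦ w w
  have h4 : fderiv ℝ (fun y : Euc 3 => ‖y‖) x w = 0 := by rw [fderiv_norm' hx, hw, zero_div]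
  have h5 := jet2 (F := F) (ψ := nrm) (a := x) (hF.smooth _) (contMDiffAt_nrm hx) w w
  have h6 : cone F = fun y => ‖y‖ • F (nrm y) := rfl
  rw [h6, h3, h4, h5]
  simp only [inner_add_right, inner_smul_right, h1, h2, zero_mul, mul_zero, add_zero, zero_add]
  rfl

end Fixed

end Pool.Agent.H15.MCF
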