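import Mathlib
import Pool.Agent.H15.MCF.Cone2

/-!
# Estimates on small balls
-/

namespace Pool.Agent.H15.MCF

open scoped Manifold ContDiff RealInnerProductSpace Topology
open Set

/-- Estimates for an immersion on a ball. -/
structure BallEst (Θ : Euc 3 → Euc 4) (p : Euc 3) (r c K : ℝ) : Prop where
  smooth : ∀ x ∈ Metric.closedBall p r, ContDiffAt ℝ 2 Θ x
  lower : ∀ x ∈ Metric.closedBall p r, ∀ w, c * ‖w‖ ≤ ‖fderiv ℝ Θ x w‖
  upper : ∀ x ∈ Metric.closedBall p r, ‖fderiv ℝ (fderiv ℝ Θ) x‖ ≤ K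

section

variable {Θ : Euc 3 → Euc 4} {p : Euc 3} {r c K : ℝ} (h : BallEst Θ p r c K)
include h

lemma BallEst.lip {x y : Euc 3} (hx : x ∈ Metric.closedBall p r)
    (hy : y ∈ Metric.closedBall p r) :
    ‖fderiv ℝ Θ y - fderiv ℝ Θ x‖ ≤ K * ‖y - x‖ := by
  apply (convex_closedBall p r).norm_image_sub_le_of_norm_hasFDerivWithin_le
    (f' := fun x => fderiv ℝ (fderiv ℝ Θ) x) _ h.upper hx hy
  intro z hz
  exact (((h.smooth z hz).fderiv_right (m := 1) (by norm_num)).differentiableAt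
    (by norm_num)).hasFDerivAt.hasFDerivWithinAt

lemma BallEst.quad {x y : Euc 3} (hx : x ∈ Metric.closedBall p r)
    (hy : y ∈ Metric.closedBall p r) :
    ‖Θ y - Θ x - fderiv ℝ Θ x (y - x)‖ ≤ K * ‖y - x‖ ^ 2 := by
  have hseg : segment ℝ x y ⊆ Metric.closedBall p r :=
    (convex_closedBall p r).segment_subset hx hy
  have hK : 0 ≤ K := le_trans (by positivity) (h.upper x hx)
  have h1 := (convex_segment x y).norm_image_sub_le_of_norm_hasFDerivWithin_le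
    (f := fun z => Θ z - fderiv ℝ Θ x z) (f' := fun z => fderiv ℝ Θ z - fderiv ℝ Θ x)
    (C := K * ‖y - x‖) (fun z hz => by
      exact (((h.smooth z (hseg hz)).differentiableAt (by norm_num)).hasFDerivAt.sub
        ((fderiv ℝ Θ x).hasFDerivAt)).hasFDerivWithinAt) (fun z hz => by
      refine (h.lip hx (hseg hz)).trans (mul_le_mul_of_nonneg_left ?_ hK)
      obtain ⟨a, b, ha, hb, hab, rfl⟩ := hz
      have : a • x + b • y - x = b • (y - x) := by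
        have : a = 1 - b := by linarith
        rw [this]; module
      rw [this, norm_smul, Real.norm_eq_abs, abs_of_nonneg hb]
      have : b ≤ 1 := by linarith
      nlinarith [norm_nonneg (y - x)]) (left_mem_segment ℝ x y) (right_mem_segment ℝ x y)
  have h2 : Θ y - fderiv ℝ Θ x y - (Θ x - fderiv ℝ Θ x x) =
      Θ y - Θ x - fderiv ℝ Θ x (y - x) := by rw [map_sub]; abel
  rw [h2] at h1
  calc _ ≤ K * ‖y - x‖ * ‖y - x‖ := h1
    _ = K * ‖y - x‖ ^ 2 := by ring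

lemma BallEst.lower_lip (hr : 0 ≤ r) (hKr : K * r ≤ c / 2) {x y : Euc 3}
    (hx : x ∈ Metric.closedBall p r) (hy : y ∈ Metric.closedBall p r) :
    c / 2 * ‖y - x‖ ≤ ‖Θ y - Θ x‖ := by
  have hp : p ∈ Metric.closedBall p r := Metric.mem_closedBall_self hr
  have hK : 0 ≤ K := le_trans (by positivity) (h.upper x hx)
  have h1 := (convex_closedBall p r).norm_image_sub_le_of_norm_hasFDerivWithin_le
    (f := fun z => Θ z - fderiv ℝ Θ p z) (f' := fun z => fderiv ℝ Θ z - fderiv ℝ Θ p)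
    (C := c / 2) (fun z hz => by
      exact (((h.smooth z hz).differentiableAt (by norm_num)).hasFDerivAt.sub
        ((fderiv ℝ Θ p).hasFDerivAt)).hasFDerivWithinAt) (fun z hz => by
      refine (h.lip hp hz).trans (le_trans (mul_le_mul_of_nonneg_left ?_ hK) hKr)
      rw [← dist_eq_norm]; exact hz) hx hy
  have h2 : Θ y - fderiv ℝ Θ p y - (Θ x - fderiv ℝ Θ p x) =
      Θ y - Θ x - fderiv ℝ Θ p (y - x) := by rw [map_sub]; abel
  rw [h2] at h1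
  have h3 := h.lower p hp (y - x)
  have h4 : ‖fderiv ℝ Θ p (y - x)‖ ≤ ‖Θ y - Θ x‖ + ‖Θ y - Θ x - fderiv ℝ Θ p (y - x)‖ := by
    have : fderiv ℝ Θ p (y - x) = (Θ y - Θ x) - (Θ y - Θ x - fderiv ℝ Θ p (y - x)) := by abel
    conv_lhs => rw [this]
    exact norm_sub_le _ _
  linarith

/-- Uniqueness of critical points of the distance to a point. -/
lemma BallEst.unique (hr : 0 ≤ r) (hKr : K * r ≤ c / 2) (hc : 0 < c) {P : Euc 4} {ρ : ℝ}
    (hρ : 2 * ρ * K < (c / 2) ^ 2) {x y : Euc 3}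
    (hx : x ∈ Metric.closedBall p r) (hy : y ∈ Metric.closedBall p r)
    (hxc : ∀ w, ⟪P - Θ x, fderiv ℝ Θ x w⟫ = 0) (hyc : ∀ w, ⟪P - Θ y, fderiv ℝ Θ y w⟫ = 0)
    (hxρ : ‖P - Θ x‖ ≤ ρ) (hyρ : ‖P - Θ y‖ ≤ ρ) : x = y := by
  have h1 := h.lower_lip hr hKr hx hy
  have h2 := h.quad hx hy
  have h3 := h.quad hy hx
  have hK : 0 ≤ K := le_trans (by positivity) (h.upper x hx)
  have hn := norm_nonneg (y - x)
  have e1 : ‖Θ y - Θ x‖ ^ 2 = ⟪P - Θ x, Θ y - Θ x - fderiv ℝ Θ x (y - x)⟫ +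
      ⟪P - Θ y, Θ x - Θ y - fderiv ℝ Θ y (x - y)⟫ := by
    rw [inner_sub_right (P - Θ x) (Θ y - Θ x), inner_sub_right (P - Θ y) (Θ x - Θ y), hxc, hyc,
      sub_zero, sub_zero, ← real_inner_self_eq_norm_sq]
    have : Θ y - Θ x = (P - Θ x) - (P - Θ y) := by abel
    have e2 : Θ x - Θ y = -(Θ y - Θ x) := by abel
    rw [e2, inner_neg_right, ← sub_eq_add_neg, ← inner_sub_left, ← this]
  have e2 : ⟪P - Θ x, Θ y - Θ x - fderiv ℝ Θ x (y - x)⟫ ≤ ρ * (K * ‖y - x‖ ^ 2) := by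
    refine (real_inner_le_norm _ _).trans ?_
    exact mul_le_mul hxρ h2 (norm_nonneg _) ((norm_nonneg _).trans hxρ)
  have e3 : ⟪P - Θ y, Θ x - Θ y - fderiv ℝ Θ y (x - y)⟫ ≤ ρ * (K * ‖y - x‖ ^ 2) := by
    refine (real_inner_le_norm _ _).trans ?_
    rw [norm_sub_rev x y] at h3
    exact mul_le_mul hyρ h3 (norm_nonneg _) ((norm_nonneg _).trans hyρ)
  by_contra hne
  have hpos : 0 < ‖y - x‖ := norm_pos_iff.2 (sub_ne_zero.2 (Ne.symm hne))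
  have e4 : (c / 2 * ‖y - x‖) ^ 2 ≤ ‖Θ y - Θ x‖ ^ 2 := by
    have : 0 ≤ c / 2 * ‖y - x‖ := by positivity
    exact pow_le_pow_left₀ this h1 2
  have e5 : (c / 2) ^ 2 * ‖y - x‖ ^ 2 ≤ 2 * ρ * K * ‖y - x‖ ^ 2 := by
    calc (c / 2) ^ 2 * ‖y - x‖ ^ 2 = (c / 2 * ‖y - x‖) ^ 2 := by ring
      _ ≤ ‖Θ y - Θ x‖ ^ 2 := e4
      _ ≤ 2 * ρ * K * ‖y - x‖ ^ 2 := by rw [e1]; linarith
  have e6 : 0 < ‖y - x‖ ^ 2 := by positivity
  have e7 := le_of_mul_le_mul_right e5 e6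
  linarith

end

section Constants

variable {F₀ : S2 → Euc 4} {T : EReal} {F : ℝ → S2 → Euc 4} (hF : IsMCF 2 F₀ T F)
include hF

lemma exists_constants {a b : ℝ} (hab : a ≤ b) (hI : Icc a b ⊆ timeDomain T) :
    ∃ c > 0, ∃ K > 0, ∀ t ∈ Icc a b, ∀ x : Euc 3, 1 / 2 ≤ ‖x‖ → ‖x‖ ≤ 2 →
      (∀ w, c * ‖w‖ ≤ ‖fderiv ℝ (cone (F t)) x w‖) ∧
        ‖fderiv ℝ (fderiv ℝ (cone (F t))) x‖ ≤ K := by
  have hU : IsOpen ({0}ᶜ : Set (Euc 3)) := isOpen_compl_singleton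
  have hJ := uniqueDiffOn_timeDomain hF.pos
  have h0 : ContDiffOn ℝ ∞ (fun p : ℝ × Euc 3 => cone (F p.1) p.2) (timeDomain T ×ˢ {0}ᶜ) :=
    contDiffOn_Theta hF
  have h1 : ContDiffOn ℝ ∞ (fun p : ℝ × Euc 3 => fderiv ℝ (cone (F p.1)) p.2)
      (timeDomain T ×ˢ {0}ᶜ) := contDiffOn_partial (f := fun t => cone (F t)) hJ hU h0
  have h2 : ContDiffOn ℝ ∞ (fun p : ℝ × Euc 3 => fderiv ℝ (fderiv ℝ (cone (F p.1))) p.2)
      (timeDomain T ×ˢ {0}ᶜ) := contDiffOn_partial (f := fun t => fderiv ℝ (cone (F t))) hJ hU h1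
  let A : Set (Euc 3) := Metric.closedBall 0 2 ∩ {x | 1 / 2 ≤ ‖x‖}
  have hA : IsCompact A :=
    (isCompact_closedBall 0 2).inter_right (isClosed_le continuous_const continuous_norm)
  have hA0 : A ⊆ {0}ᶜ := by
    rintro x ⟨-, hx⟩ h
    rw [mem_singleton_iff] at h
    rw [h] at hx
    simp at hx
    norm_num at hx
  have hIA : IsCompact (Icc a b ×ˢ A) := isCompact_Icc.prod hA
  have hsub : Icc a b ×ˢ A ⊆ timeDomain T ×ˢ {0}ᶜ := prod_mono hI hA0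
  have h2c : ContinuousOn (fun p : ℝ × Euc 3 => ‖fderiv ℝ (fderiv ℝ (cone (F p.1))) p.2‖)
      (Icc a b ×ˢ A) :=
    (continuous_norm (E := Euc 3 →L[ℝ] Euc 3 →L[ℝ] Euc 4)).comp_continuousOn
      (h2.continuousOn.mono hsub)
  obtain ⟨K, hK⟩ : ∃ K : ℝ, ∀ t ∈ Icc a b, ∀ x ∈ A, ‖fderiv ℝ (fderiv ℝ (cone (F t))) x‖ ≤ K := by
    obtain ⟨K, hK⟩ := hIA.bddAbove_image h2c
    exact ⟨K, fun t ht x hx => hK ⟨(t, x), ⟨ht, hx⟩, rfl⟩⟩
  have hS : IsCompact (Metric.sphere (0 : Euc 3) 1) := isCompact_sphere 0 1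
  have hcont : ContinuousOn (fun q : (ℝ × Euc 3) × Euc 3 =>
      ‖fderiv ℝ (cone (F q.1.1)) q.1.2 q.2‖) ((Icc a b ×ˢ A) ×ˢ Metric.sphere (0 : Euc 3) 1) := by
    have h3 : ContinuousOn (fun q : (ℝ × Euc 3) × Euc 3 =>
        fderiv ℝ (cone (F q.1.1)) q.1.2) ((Icc a b ×ˢ A) ×ˢ Metric.sphere (0 : Euc 3) 1) :=
      (h1.continuousOn.mono hsub).comp continuousOn_fst (fun q hq => hq.1)
    exact (h3.clm_apply continuousOn_snd).norm
  have hne : ((Icc a b ×ˢ A) ×ˢ Metric.sphere (0 : Euc 3) 1).Nonempty := by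
    have e1 : ‖(EuclideanSpace.single 0 1 : Euc 3)‖ = 1 := by simp
    refine ⟨((a, EuclideanSpace.single 0 1), EuclideanSpace.single 0 1), ⟨⟨⟨le_rfl, hab⟩, ?_, ?_⟩, ?_⟩⟩
    · rw [mem_closedBall_zero_iff, e1]; norm_num
    · show (1 : ℝ) / 2 ≤ ‖(EuclideanSpace.single 0 1 : Euc 3)‖
      rw [e1]; norm_num
    · rw [mem_sphere_zero_iff_norm]; exact e1
  obtain ⟨⟨⟨t₀, x₀⟩, w₀⟩, ⟨⟨ht₀, hx₀⟩, hw₀⟩, hmin⟩ := (hIA.prod hS).exists_isMinOn hne hcont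
  have hw₀' : ‖w₀‖ = 1 := by simpa using hw₀
  have hc : 0 < ‖fderiv ℝ (cone (F t₀)) x₀ w₀‖ := by
    rw [norm_pos_iff]
    intro h
    have h3 := fderiv_cone_injective (hF.immersion t₀ (hI ht₀)) (hA0 hx₀)
    have h4 : w₀ = 0 := h3 (by rw [h, map_zero])
    rw [h4, norm_zero] at hw₀'
    norm_num at hw₀'
  refine ⟨_, hc, max K 1, by positivity, fun t ht x hx1 hx2 => ⟨fun w => ?_, ?_⟩⟩
  · by_cases hw : w = 0
    · rw [hw]; simp
    · have hn : 0 < ‖w‖ := norm_pos_iff.2 hw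
      have h5 : ‖fderiv ℝ (cone (F t₀)) x₀ w₀‖ ≤ ‖fderiv ℝ (cone (F t)) x (‖w‖⁻¹ • w)‖ := by
        have hxA : x ∈ A := ⟨by rw [mem_closedBall_zero_iff]; exact hx2, hx1⟩
        have hwS : ‖w‖⁻¹ • w ∈ Metric.sphere (0 : Euc 3) 1 := by
          rw [mem_sphere_zero_iff_norm, norm_smul, norm_inv, norm_norm]
          exact inv_mul_cancel₀ hn.ne'
        exact isMinOn_iff.1 hmin ((t, x), ‖w‖⁻¹ • w) (mk_mem_prod (mk_mem_prod ht hxA) hwS)
      rw [map_smul, norm_smul, norm_inv, norm_norm] at h5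
      calc _ ≤ (‖w‖⁻¹ * ‖fderiv ℝ (cone (F t)) x w‖) * ‖w‖ :=
            mul_le_mul_of_nonneg_right h5 hn.le
        _ = ‖fderiv ℝ (cone (F t)) x w‖ := by field_simp
  · have hxA : x ∈ A := ⟨by rw [mem_closedBall_zero_iff]; exact hx2, hx1⟩
    exact (hK t ht x hxA).trans (le_max_left K 1)

end Constants

end Pool.Agent.H15.MCF
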