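import Mathlib
import Pool.Agent.H15.MCF.Ball

/-!
# The algebra at a point where a surface is parallel to another one
-/

namespace Pool.Agent.H15.MCF

open scoped Manifold ContDiff RealInnerProductSpace Topology
open Set

section Space

variable {F G : S2 → Euc 4} (hF : IsSphereImmersion 2 F) {z : Euc 3} (hz : z ≠ 0) {η : Euc 4}
  (h1 : ∀ w, ⟪η, fderiv ℝ (cone F) z w⟫ = 0)
include hF hz h1

lemma inner_eta_F : ⟪η, F (nrm z)⟫ = 0 := by
  have h := h1 z
  rw [fderiv_cone_self hF hz] at h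
  unfold cone at h
  rw [inner_smul_right] at h
  exact (mul_eq_zero.1 h).resolve_left (norm_ne_zero_iff.2 hz)

lemma inner_eta_diff1 (v : Euc 2) : ⟪η, diff1 2 F (nrm z) v⟫ = 0 := by
  have hn : ‖z‖ ≠ 0 := norm_ne_zero_iff.2 hz
  let a := diff1 2 (fun y : S2 => (y : Euc 3)) (nrm z) v
  have ha : ⟪z, a⟫ = 0 := by
    have h := inner_self_diff1 (contMDiff_coe (nrm z)) norm_coe v
    rw [coe_nrm hz, inner_smul_left] at h
    exact (mul_eq_zero.1 h).resolve_left (by simpa using hn)
  have h2 : om z (‖z‖ • a) = v := by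
    apply diff1_coe_injective (nrm z)
    rw [diff1_coe_om hz, inner_smul_right, ha, mul_zero, zero_div, zero_smul, sub_zero,
      smul_smul, inv_mul_cancel₀ hn, one_smul]
  have h3 := h1 (‖z‖ • a)
  rw [fderiv_cone hF hz, h2, inner_add_right, inner_smul_right, inner_smul_right,
    inner_smul_right, ha] at h3
  simp only [mul_zero, zero_div, zero_mul, zero_add] at h3
  exact (mul_eq_zero.1 h3).resolve_left hn

lemma exists_preimage (hη : η ≠ 0) {e : Euc 4} (he : ⟪η, e⟫ = 0) :
    ∃ w, fderiv ℝ (cone F) z w = e := by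
  let L : Euc 3 →ₗ[ℝ] Euc 4 := (fderiv ℝ (cone F) z : Euc 3 →ₗ[ℝ] Euc 4)
  have hinj : Function.Injective L := fderiv_cone_injective hF hz
  have hr : Module.finrank ℝ (LinearMap.range L) = 3 := by
    have := LinearMap.finrank_range_of_inj hinj
    simpa using this
  have hle : LinearMap.range L ≤ (ℝ ∙ η)ᗮ := by
    rintro _ ⟨w, rfl⟩
    rw [Submodule.mem_orthogonal_singleton_iff_inner_right]
    exact h1 w
  have hη3 : Module.finrank ℝ ((ℝ ∙ η)ᗮ : Submodule ℝ (Euc 4)) = 3 := by
    have : Fact (Module.finrank ℝ (Euc 4) = 3 + 1) := ⟨by simp⟩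
    exact Submodule.finrank_orthogonal_span_singleton hη
  have heq := Submodule.eq_of_le_of_finrank_eq hle (by rw [hr, hη3])
  have hmem : e ∈ LinearMap.range L := by
    rw [heq, Submodule.mem_orthogonal_singleton_iff_inner_right]
    exact he
  exact hmem

variable (hη : ‖η‖ = 1) (hG : IsSphereImmersion 2 G) {p : S2} {d : ℝ}
  (hP : G p - cone F z = d • η)
include hη hG hP

omit hη hG in
lemma G_eq : G p = ‖z‖ • F (nrm z) + d • η := by
  rw [← hP]; unfold cone; abel

lemma norm_sq_add_sq : ‖z‖ ^ 2 + d ^ 2 = 1 := by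
  have h := G_eq hF hz h1 hP
  have h2 := hG.norm_eq_one p
  have h3 : ⟪G p, G p⟫ = 1 := by rw [real_inner_self_eq_norm_sq, h2]; norm_num
  have h4 := inner_eta_F hF hz h1
  rw [h] at h3
  simp only [inner_add_left, inner_add_right, inner_smul_left, inner_smul_right,
    real_inner_self_eq_norm_sq, hF.norm_eq_one, hη, h4, real_inner_comm η (F (nrm z))] at h3
  simp at h3
  nlinarith

lemma inner_eta_G : ⟪G p, η⟫ = d := by
  have h4 := inner_eta_F hF hz h1
  rw [G_eq hF hz h1 hP, inner_add_left, inner_smul_left, inner_smul_left,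
    real_inner_self_eq_norm_sq, hη, real_inner_comm, h4]
  simp

lemma space_identity (h2 : ∀ v, ⟪η, diff1 2 G p v⟫ = 0) :
    ∃ (ε : Fin 2 → Euc 2) (w : Fin 2 → Euc 3),
      Orthonormal ℝ (fun i => diff1 2 G p (ε i)) ∧
      (∀ i, fderiv ℝ (cone F) z (w i) = diff1 2 G p (ε i)) ∧
      ∑ i, ⟪η, diff2 2 G p (ε i) (ε i)⟫ = ⟪η, meanCurvature 2 G p⟫ - 2 * d ∧
      ∑ i, ⟪η, fderiv ℝ (fderiv ℝ (cone F)) z (w i) (w i)⟫ =
        ‖z‖⁻¹ * ⟪η, meanCurvature 2 F (nrm z)⟫ := by
  have hn : ‖z‖ ≠ 0 := norm_ne_zero_iff.2 hz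
  have hη0 : η ≠ 0 := by
    intro h; rw [h, norm_zero] at hη; norm_num at hη
  obtain ⟨ε, hε⟩ := exists_frame (hG.injective p)
  have hw : ∀ i, ∃ w, fderiv ℝ (cone F) z w = diff1 2 G p (ε i) := fun i =>
    exists_preimage hF hz h1 hη0 (h2 _)
  choose w hw using hw
  have hηF := inner_eta_F hF hz h1
  have hηd := inner_eta_diff1 hF hz h1
  -- orthogonality to the position
  have hQ : ∀ i, ⟪F (nrm z), diff1 2 G p (ε i)⟫ = 0 := by
    intro i
    have h3 := inner_self_diff1 (hG.smooth p) hG.norm_eq_one (ε i)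
    rw [G_eq hF hz h1 hP, inner_add_left, inner_smul_left, inner_smul_left, h2 (ε i), mul_zero,
      add_zero] at h3
    exact (mul_eq_zero.1 h3).resolve_left (by simpa using hn)
  have hzw : ∀ i, ⟪z, w i⟫ = 0 := by
    intro i
    have h3 := inner_fderiv_cone hF hz (w i)
    rw [hw i, hQ i] at h3
    rcases div_eq_zero_iff.1 h3.symm with h | h
    · exact h
    · exact absurd h hn
  have hfr : ∀ i, diff1 2 F (nrm z) (‖z‖ • om z (w i)) = diff1 2 G p (ε i) := by
    intro i
    have h3 := fderiv_cone hF hz (w i)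
    rw [hzw i, zero_div, zero_smul, zero_add, hw i] at h3
    rw [map_smul, ← h3]
  refine ⟨ε, w, hε, hw, ?_, ?_⟩
  · have h3 : ∀ i, ⟪secondForm 2 G p (ε i) (ε i), η⟫ = ⟪η, diff2 2 G p (ε i) (ε i)⟫ + d := by
      intro i
      rw [inner_secondForm_self (hG.smooth p) hG.norm_eq_one η
        (fun v => by rw [real_inner_comm]; exact h2 v), inner_eta_G hF hz h1 hη hG hP]
      have h4 : ⟪diff1 2 G p (ε i), diff1 2 G p (ε i)⟫ = 1 := by
        rw [real_inner_self_eq_norm_sq, hε.1 i]; norm_num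
      rw [h4, real_inner_comm, mul_one]
    rw [real_inner_comm, meanCurvature_eq_sum G p ε hε, sum_inner, Fin.sum_univ_two,
      Fin.sum_univ_two, h3, h3]
    ring
  · have hO : Orthonormal ℝ (fun i => diff1 2 F (nrm z) (‖z‖ • om z (w i))) := by
      have : (fun i => diff1 2 F (nrm z) (‖z‖ • om z (w i))) = fun i => diff1 2 G p (ε i) :=
        funext hfr
      rw [this]; exact hε
    have h3 : ∀ i, ⟪secondForm 2 F (nrm z) (‖z‖ • om z (w i)) (‖z‖ • om z (w i)), η⟫ =
        ‖z‖ * ⟪η, fderiv ℝ (fderiv ℝ (cone F)) z (w i) (w i)⟫ := by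
      intro i
      rw [inner_secondForm_self (hF.smooth _) hF.norm_eq_one η
        (fun v => by rw [real_inner_comm]; exact hηd v), real_inner_comm η (F (nrm z)), hηF,
        zero_mul, add_zero, inner_fderiv2_cone hF hz hηF hηd (hzw i), map_smul, map_smul,
        smul_apply, real_inner_comm, inner_smul_right, inner_smul_right]
    rw [real_inner_comm, meanCurvature_eq_sum F (nrm z) _ hO, sum_inner, Fin.sum_univ_two,
      Fin.sum_univ_two, h3, h3]
    field_simp

end Space

end Pool.Agent.H15.MCF
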