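import Mathlib
import Pool.Agent.H15.MCF.Space

/-!
# Minimisers of the distance to a cone
-/

namespace Pool.Agent.H15.MCF

open scoped Manifold ContDiff RealInnerProductSpace Topology
open Set Filter

section Abstract

/-- Stability of a unique minimiser. -/
lemma argmin_stable {X Y : Type} [TopologicalSpace X] [TopologicalSpace Y] {D : X → Y → ℝ}
    {x0 : X} {y0 : Y} {K : Set Y} (hK : IsCompact K) (hy0 : y0 ∈ K)
    (hD : ∀ y ∈ K, ContinuousAt (fun q : X × Y => D q.1 q.2) (x0, y))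
    (huniq : ∀ y ∈ K, y ≠ y0 → D x0 y0 < D x0 y) {U : Set Y} (hU : IsOpen U) (hyU : y0 ∈ U) :
    ∀ᶠ x in 𝓝 x0, ∀ y ∈ K \ U, D x y0 < D x y := by
  apply (hK.diff hU).eventually_forall_of_forall_eventually
  intro y hy
  have h1 := hD y hy.1
  have h2 : ContinuousAt (fun q : X × Y => D q.1 y0) (x0, y) := by
    have h3 : ContinuousAt (fun q : X × Y => (q.1, y0)) (x0, y) := by fun_prop
    exact ContinuousAt.comp (f := fun q : X × Y => (q.1, y0))
      (g := fun q : X × Y => D q.1 q.2) (x := (x0, y)) (hD y0 hy0) h3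
  have h4 : D x0 y0 < D x0 y := huniq y hy.1 (fun h => hy.2 (h ▸ hyU))
  exact h2.eventually_lt h1 h4

lemma argmin_tendsto {X : Type} [TopologicalSpace X] {x0 : X} {D : X → Euc 3 → ℝ}
    {π : X → Euc 3} {r : ℝ} (hπ : ContinuousAt π x0)
    (hD : ∀ y ∈ Metric.closedBall (π x0) r,
      ContinuousAt (fun q : X × Euc 3 => D q.1 q.2) (x0, y)) {z0 : Euc 3}
    (hz0 : z0 ∈ Metric.closedBall (π x0) r)
    (huniq : ∀ y ∈ Metric.closedBall (π x0) r, y ≠ z0 → D x0 z0 < D x0 y) {U : Set (Euc 3)}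
    (hU : U ∈ 𝓝 z0) :
    ∀ᶠ x in 𝓝 x0, ∀ y ∈ Metric.closedBall (π x) r,
      (∀ y' ∈ Metric.closedBall (π x) r, D x y ≤ D x y') → y ∈ U := by
  have hcont : ContinuousAt (fun q : X × Euc 3 => π q.1 + q.2) (x0, z0 - π x0) := by
    have h1 : ContinuousAt (fun q : X × Euc 3 => π q.1) (x0, z0 - π x0) :=
      ContinuousAt.comp (f := fun q : X × Euc 3 => q.1) (g := π) (x := (x0, z0 - π x0)) hπ
        continuousAt_fst
    exact h1.add continuousAt_snd
  have hU' : ∀ᶠ q in 𝓝 (x0, z0 - π x0), π q.1 + q.2 ∈ U := by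
    apply hcont
    simpa using hU
  obtain ⟨V, hV, U', hU'o, hU'm, hVU⟩ : ∃ V ∈ 𝓝 x0, ∃ U' : Set (Euc 3), IsOpen U' ∧
      z0 - π x0 ∈ U' ∧ ∀ x ∈ V, ∀ y ∈ U', π x + y ∈ U := by
    obtain ⟨V, hV, W, hW, h⟩ := mem_nhds_prod_iff.1 hU'
    obtain ⟨W', hW', hWo, hWm⟩ := mem_nhds_iff.1 hW
    exact ⟨V, hV, W', hWo, hWm, fun x hx y hy => h (mk_mem_prod hx (hW' hy))⟩
  have hball : ∀ x : X, ∀ y : Euc 3, y ∈ Metric.closedBall (0 : Euc 3) r ↔
      π x + y ∈ Metric.closedBall (π x) r := by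
    intro x y
    rw [mem_closedBall_zero_iff, mem_closedBall_iff_norm, add_sub_cancel_left]
  have h1 := argmin_stable (X := X) (D := fun x y => D x (π x + y)) (x0 := x0)
    (y0 := z0 - π x0) (K := Metric.closedBall (0 : Euc 3) r) (isCompact_closedBall _ _)
    (by rw [hball x0]; simpa using hz0)
    (fun y hy => by
      have h2 : ContinuousAt (fun q : X × Euc 3 => (q.1, π q.1 + q.2)) (x0, y) := by
        have h3 : ContinuousAt (fun q : X × Euc 3 => π q.1) (x0, y) :=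
          ContinuousAt.comp (f := fun q : X × Euc 3 => q.1) (g := π) (x := (x0, y)) hπ
            continuousAt_fst
        exact continuousAt_fst.prodMk (h3.add continuousAt_snd)
      exact ContinuousAt.comp (f := fun q : X × Euc 3 => (q.1, π q.1 + q.2))
        (g := fun q : X × Euc 3 => D q.1 q.2) (x := (x0, y)) (hD _ ((hball x0 y).1 hy)) h2)
    (fun y hy hne => by
      have h3 : π x0 + y ≠ z0 := fun h => hne (by rw [← h]; abel)
      have h4 := huniq _ ((hball x0 y).1 hy) h3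
      have h5 : π x0 + (z0 - π x0) = z0 := by abel
      simp only [h5]
      exact h4) hU'o hU'm
  filter_upwards [h1, hV] with x hx hxV y hy hmin
  by_contra hyU
  have h6 : y - π x ∈ Metric.closedBall (0 : Euc 3) r := by
    rw [hball x]
    have : π x + (y - π x) = y := by abel
    rw [this]; exact hy
  have h7 : y - π x ∉ U' := by
    intro h
    have := hVU x hxV _ h
    have h8 : π x + (y - π x) = y := by abel
    rw [h8] at this
    exact hyU this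
  have h9 := hx (y - π x) ⟨h6, h7⟩
  have h8 : π x + (y - π x) = y := by abel
  rw [h8] at h9
  have h10 : π x + (z0 - π x0) ∈ Metric.closedBall (π x) r := by
    rw [← hball x, hball x0]
    have : π x0 + (z0 - π x0) = z0 := by abel
    rw [this]; exact hz0
  exact absurd (hmin _ h10) (not_le.2 h9)

/-- The derivative in time at a point where the minimum over space is maximal in time. -/
lemma time_condition {E : ℝ × Euc 3 → ℝ} {t0 : ℝ} {z0 : Euc 3}
    (hE : ContDiffAt ℝ 1 E (t0, z0))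
    (h : ∀ U ∈ 𝓝 z0, ∀ᶠ t in 𝓝[<] t0, ∃ y ∈ U, E (t, y) ≤ E (t0, y)) :
    0 ≤ fderiv ℝ E (t0, z0) (1, 0) := by
  by_contra hcon
  push Not at hcon
  set L := fderiv ℝ E (t0, z0) with hL
  have hs : HasStrictFDerivAt E L (t0, z0) := hE.hasStrictFDerivAt (by norm_num)
  have h1 := hs.isLittleO.def (c := - L (1, 0) / 2) (by linarith)
  rw [nhds_prod_eq] at h1
  obtain ⟨A, hA, B, hB, hAB⟩ := mem_prod_iff.1 h1
  rw [nhds_prod_eq] at hA hB
  obtain ⟨A1, hA1, A2, hA2, hA'⟩ := mem_prod_iff.1 hA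
  obtain ⟨B1, hB1, B2, hB2, hB'⟩ := mem_prod_iff.1 hB
  have h2 := h (A2 ∩ B2) (inter_mem hA2 hB2)
  have h3 : ∀ᶠ t in 𝓝[<] t0, t ∈ B1 := mem_nhdsWithin_of_mem_nhds hB1
  obtain ⟨t, ⟨y, hy, hle⟩, htB, htlt⟩ := (h2.and (h3.and self_mem_nhdsWithin)).exists
  have htlt' : t < t0 := htlt
  have h4 : ((t0, y), (t, y)) ∈ A ×ˢ B :=
    ⟨hA' ⟨mem_of_mem_nhds hA1, hy.1⟩, hB' ⟨htB, hy.2⟩⟩
  have h5 := hAB h4
  simp only [mem_ofPred_eq, Prod.mk_sub_mk, sub_self] at h5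
  have h6 : ((t0 - t, (0 : Euc 3)) : ℝ × Euc 3) = (t0 - t) • ((1 : ℝ), (0 : Euc 3)) := by simp
  rw [h6, map_smul, norm_smul, smul_eq_mul] at h5
  have h7 : ‖((1 : ℝ), (0 : Euc 3))‖ = 1 := by simp [Prod.norm_def]
  rw [h7, Real.norm_eq_abs, Real.norm_eq_abs, abs_of_pos (sub_pos.2 htlt'), mul_one] at h5
  have h8 := (abs_le.1 h5).2
  have h9 : 0 < t0 - t := sub_pos.2 htlt'
  nlinarith

end Abstract

section Min

variable {Θ : Euc 3 → Euc 4} {p : Euc 3} {r c K : ℝ} (h : BallEst Θ p r c K)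
include h

lemma BallEst.min_facts (hr : 0 < r) (hKr : K * r ≤ c / 2) (hc : 0 < c) {P : Euc 4} {ρ : ℝ}
    (hρr : 2 * ρ < c / 2 * r) (hP : ‖P - Θ p‖ ≤ ρ) {z : Euc 3}
    (hz : z ∈ Metric.closedBall p r)
    (hmin : ∀ z' ∈ Metric.closedBall p r, ‖P - Θ z‖ ≤ ‖P - Θ z'‖) :
    ‖P - Θ z‖ ≤ ρ ∧ z ∈ Metric.ball p r ∧ ∀ w, ⟪P - Θ z, fderiv ℝ Θ z w⟫ = 0 := by
  have hp : p ∈ Metric.closedBall p r := Metric.mem_closedBall_self hr.le
  have h1 : ‖P - Θ z‖ ≤ ρ := (hmin p hp).trans hP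
  have h2 : z ∈ Metric.ball p r := by
    have h3 := h.lower_lip hr.le hKr hp hz
    have h4 : ‖Θ z - Θ p‖ ≤ 2 * ρ := by
      have : Θ z - Θ p = (P - Θ p) - (P - Θ z) := by abel
      rw [this]
      exact (norm_sub_le _ _).trans (by linarith)
    rw [mem_ball_iff_norm]
    have h5 : c / 2 * ‖z - p‖ < c / 2 * r := by linarith
    exact lt_of_mul_lt_mul_left h5 (by positivity)
  refine ⟨h1, h2, fun w => ?_⟩
  have hd : DifferentiableAt ℝ (fun z => P - Θ z) z :=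
    (differentiableAt_const P).sub ((h.smooth z hz).differentiableAt (by norm_num))
  have hmin2 : IsLocalMin (fun z => ‖P - Θ z‖ ^ 2) z := by
    filter_upwards [Metric.isOpen_ball.mem_nhds h2] with z' hz'
    exact pow_le_pow_left₀ (norm_nonneg _) (hmin z' (Metric.ball_subset_closedBall hz')) 2
  have h6 := hmin2.fderiv_eq_zero
  have h7 := fderiv_norm_sq' hd w
  rw [h6] at h7
  have h8 : fderiv ℝ (fun z => P - Θ z) z w = - fderiv ℝ Θ z w := by
    have h9 : HasFDerivAt (fun z => P - Θ z) (0 - fderiv ℝ Θ z) z :=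
      (hasFDerivAt_const P z).sub
        (((h.smooth z hz).differentiableAt (by norm_num)).hasFDerivAt)
    rw [h9.fderiv]
    simp
  rw [h8, inner_neg_right] at h7
  simp at h7
  exact h7

lemma BallEst.min_unique (hr : 0 < r) (hKr : K * r ≤ c / 2) (hc : 0 < c) {P : Euc 4} {ρ : ℝ}
    (hρr : 2 * ρ < c / 2 * r) (hρ : 2 * ρ * K < (c / 2) ^ 2) (hP : ‖P - Θ p‖ ≤ ρ) {z : Euc 3}
    (hz : z ∈ Metric.closedBall p r)
    (hmin : ∀ z' ∈ Metric.closedBall p r, ‖P - Θ z‖ ≤ ‖P - Θ z'‖) {y : Euc 3}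
    (hy : y ∈ Metric.closedBall p r) (hne : y ≠ z) : ‖P - Θ z‖ < ‖P - Θ y‖ := by
  by_contra hcon
  push Not at hcon
  have hminy : ∀ z' ∈ Metric.closedBall p r, ‖P - Θ y‖ ≤ ‖P - Θ z'‖ := fun z' hz' =>
    hcon.trans (hmin z' hz')
  obtain ⟨a1, -, a3⟩ := h.min_facts hr hKr hc hρr hP hz hmin
  obtain ⟨b1, -, b3⟩ := h.min_facts hr hKr hc hρr hP hy hminy
  exact hne (h.unique hr.le hKr hc hρ hy hz b3 a3 b1 a1)

end Min

end Pool.Agent.H15.MCF
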