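import Mathlib
import Pool.Agent.H15.MCF.Argmin

/-!
# A surface touching a parallel surface
-/

namespace Pool.Agent.H15.MCF

open scoped Manifold ContDiff RealInnerProductSpace Topology
open Set Filter

section Line

variable {V W : Type} [NormedAddCommGroup V] [NormedSpace ℝ V] [NormedAddCommGroup W]
  [NormedSpace ℝ W]

lemma deriv_line {f : V → W} {x : V} (hf : ContDiffAt ℝ 2 f x) (v : V) :
    deriv (fun s : ℝ => f (x + s • v)) 0 = fderiv ℝ f x v ∧
      deriv (deriv (fun s : ℝ => f (x + s • v))) 0 = fderiv ℝ (fderiv ℝ f) x v v := by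
  have hline : HasDerivAt (fun s : ℝ => x + s • v) v 0 := by
    have := ((hasDerivAt_id (0 : ℝ)).smul_const v).const_add x
    simpa using this
  have hlinec : ContinuousAt (fun s : ℝ => x + s • v) 0 := hline.continuousAt
  have e1 : ∀ᶠ y in 𝓝 x, ContDiffAt ℝ 2 f y := hf.eventually (by simp)
  have hd : deriv (fun s : ℝ => f (x + s • v)) =ᶠ[𝓝 0] fun s => fderiv ℝ f (x + s • v) v := by
    have e2 : ∀ᶠ s in 𝓝 (0 : ℝ), ContDiffAt ℝ 2 f (x + s • v) := by
      apply hlinec.eventually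
      simpa using e1
    filter_upwards [e2] with s hs
    have hl : HasDerivAt (fun s : ℝ => x + s • v) v s := by
      have := ((hasDerivAt_id s).smul_const v).const_add x
      simpa using this
    exact ((hs.differentiableAt (by norm_num)).hasFDerivAt.comp_hasDerivAt s hl).deriv
  have hz : x + (0 : ℝ) • v = x := by simp
  constructor
  · have := hd.self_of_nhds
    simp only [hz] at this
    exact this
  · rw [hd.deriv_eq]
    have d1 : HasFDerivAt (fderiv ℝ f) (fderiv ℝ (fderiv ℝ f) x) (x + (0 : ℝ) • v) := by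
      simpa using ((hf.fderiv_right (m := 1) (by norm_num)).differentiableAt
        (by norm_num)).hasFDerivAt
    have d2 := (d1.comp_hasDerivAt 0 hline).clm_apply (hasDerivAt_const (0 : ℝ) v)
    have d3 := d2.deriv
    simp at d3
    exact d3

lemma contDiffAt_line {f : V → W} {x : V} (hf : ContDiffAt ℝ 2 f x) (v : V) :
    ContDiffAt ℝ 2 (fun s : ℝ => f (x + s • v)) 0 := by
  have h1 : ContDiffAt ℝ 2 (fun s : ℝ => x + s • v) 0 :=
    contDiffAt_const.add (contDiffAt_id.smul contDiffAt_const)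
  have h2 : ContDiffAt ℝ 2 f ((fun s : ℝ => x + s • v) 0) := by simpa using hf
  exact ContDiffAt.comp (0 : ℝ) h2 h1

end Line

section Surf

variable {F G : S2 → Euc 4} (hF : IsSphereImmersion 2 F) (hG : IsSphereImmersion 2 G) {p : S2}
  {r c K : ℝ} (hb : BallEst (cone F) p r c K) (hc : 0 < c) {z : Euc 3}
  (hz : z ∈ Metric.closedBall (p : Euc 3) r) {η : Euc 4} {d : ℝ}
  (hη : ‖η‖ = 1) (hP : G p - cone F z = d • η) (h1 : ∀ w, ⟪η, fderiv ℝ (cone F) z w⟫ = 0)
include hG hb hc hz hη hP h1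

lemma touch_surface {e : ℝ} (hd : 0 < d + e) (hdK : (d + e) * K ≤ c ^ 2 / 2)
    (h3 : ∀ U ∈ 𝓝 z, ∀ᶠ p' in 𝓝 p, ∃ y ∈ U, ‖G p' + e • η - cone F y‖ ≤ d + e) (v : Euc 2) :
    ⟪η, diff1 2 G p v⟫ = 0 ∧ ∀ w, fderiv ℝ (cone F) z w = diff1 2 G p v →
      ⟪η, diff2 2 G p v v - fderiv ℝ (fderiv ℝ (cone F)) z w w⟫ ≤
        2 * K ^ 2 * ‖w‖ ^ 2 / c ^ 2 * (d + e) := by
  have hcr : ContDiffAt ℝ 2 (coordRep 2 G p) (chartAt (Euc 2) p p) :=
    (contDiffAt_coordRep (hG.smooth p)).of_le two_le_infty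
  obtain ⟨a1, a2⟩ := deriv_line hcr v
  have hPc : ContDiffAt ℝ 2 (fun s : ℝ => coordRep 2 G p (chartAt (Euc 2) p p + s • v) + e • η) 0 :=
    (contDiffAt_line hcr v).add contDiffAt_const
  have hfc : ContDiffAt ℝ 2 (fun y : Euc 3 => cone F (z + y)) 0 := by
    have h4 : ContDiffAt ℝ 2 (fun y : Euc 3 => z + y) 0 := contDiffAt_const.add contDiffAt_id
    have h5 : ContDiffAt ℝ 2 (cone F) ((fun y : Euc 3 => z + y) 0) := by
      simpa using hb.smooth z hz
    exact ContDiffAt.comp (g := cone F) (0 : Euc 3) h5 h4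
  have hf1 : ∀ y, fderiv ℝ (fun y : Euc 3 => cone F (z + y)) y = fderiv ℝ (cone F) (z + y) :=
    fun y => fderiv_comp_add_left z
  have hf2 : fderiv ℝ (fderiv ℝ (fun y : Euc 3 => cone F (z + y))) 0 =
      fderiv ℝ (fderiv ℝ (cone F)) z := by
    have h4 : fderiv ℝ (fun y : Euc 3 => cone F (z + y)) = fun y => fderiv ℝ (cone F) (z + y) :=
      funext hf1
    rw [h4]
    have h5 := fderiv_comp_add_left (𝕜 := ℝ) (f := fderiv ℝ (cone F)) (x := (0 : Euc 3)) z
    rw [h5, add_zero]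
  have hf10 : fderiv ℝ (fun y : Euc 3 => cone F (z + y)) 0 = fderiv ℝ (cone F) z := by
    rw [hf1, add_zero]
  have hP0 : coordRep 2 G p (chartAt (Euc 2) p p + (0 : ℝ) • v) = G p := by
    simp [coordRep]
  have ht := touching (P := fun s : ℝ => coordRep 2 G p (chartAt (Euc 2) p p + s • v) + e • η)
    (f := fun y : Euc 3 => cone F (z + y)) hPc hfc (η := η) (d := d + e) (c := c) (K := K) hd
    (by
      simp only [hP0, add_zero]
      rw [add_smul, ← hP]; abel)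
    (by rw [hf10]; exact h1) hc (by rw [hf10]; exact hb.lower z hz)
    (by
      rw [hf2]
      intro y y'
      refine (abs_real_inner_le_norm _ _).trans ?_
      rw [hη, one_mul]
      refine (ContinuousLinearMap.le_opNorm₂ _ y y').trans ?_
      have := hb.upper z hz
      gcongr) hdK hη
    (by
      intro U hU
      have hU' : (fun y : Euc 3 => y - z) ⁻¹' U ∈ 𝓝 z := by
        have h4 : ContinuousAt (fun y : Euc 3 => y - z) z := by fun_prop
        apply h4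
        simpa using hU
      have h5 := h3 _ hU'
      have h6 : ContinuousAt (fun s : ℝ => (chartAt (Euc 2) p).symm
          (chartAt (Euc 2) p p + s • v)) 0 := by
        have h7 : ContinuousAt (fun s : ℝ => chartAt (Euc 2) p p + s • v) 0 := by fun_prop
        have h8 : ContinuousAt (chartAt (Euc 2) p).symm
            ((fun s : ℝ => chartAt (Euc 2) p p + s • v) 0) := by
          have h9 : (fun s : ℝ => chartAt (Euc 2) p p + s • v) 0 = chartAt (Euc 2) p p := by simp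
          rw [h9]
          exact (chartAt (Euc 2) p).continuousAt_symm (mem_chart_target _ _)
        exact ContinuousAt.comp h8 h7
      have h10 : (chartAt (Euc 2) p).symm (chartAt (Euc 2) p p + (0 : ℝ) • v) = p := by simp
      have h11 : ∀ᶠ s in 𝓝 (0 : ℝ), ∃ y ∈ (fun y : Euc 3 => y - z) ⁻¹' U,
          ‖G ((chartAt (Euc 2) p).symm (chartAt (Euc 2) p p + s • v)) + e • η - cone F y‖ ≤
            d + e := by
        refine h6.eventually (p := fun p' => ∃ y ∈ (fun y : Euc 3 => y - z) ⁻¹' U,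
          ‖G p' + e • η - cone F y‖ ≤ d + e) ?_
        simp only [h10]
        exact h5
      filter_upwards [mem_nhdsWithin_of_mem_nhds h11] with s hs
      obtain ⟨y, hy, hle⟩ := hs
      refine ⟨y - z, hy, ?_⟩
      have h12 : z + (y - z) = y := by abel
      simp only [h12]
      exact hle)
  have hdP : deriv (fun s : ℝ => coordRep 2 G p (chartAt (Euc 2) p p + s • v) + e • η) =
      deriv (fun s : ℝ => coordRep 2 G p (chartAt (Euc 2) p p + s • v)) := deriv_add_const' _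
  rw [hf10, hf2, hdP, a1, a2] at ht
  exact ht

include hF in
lemma space_ineq (hz0 : z ≠ 0) {e : ℝ} (hd : 0 < d + e) (hdK : (d + e) * K ≤ c ^ 2 / 2)
    (h3 : ∀ U ∈ 𝓝 z, ∀ᶠ p' in 𝓝 p, ∃ y ∈ U, ‖G p' + e • η - cone F y‖ ≤ d + e) :
    ⟪η, meanCurvature 2 G p⟫ - 2 * d - ‖z‖⁻¹ * ⟪η, meanCurvature 2 F (nrm z)⟫ ≤
        4 * K ^ 2 / c ^ 4 * (d + e) ∧
      |‖z‖⁻¹ * ⟪η, meanCurvature 2 F (nrm z)⟫| ≤ 2 * K / c ^ 2 := by
  have ht := touch_surface hG hb hc hz hη hP h1 hd hdK h3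
  obtain ⟨ε, w, hε, hw, e1, e2⟩ := space_identity hF hz0 h1 hη hG hP (fun v => (ht v).1)
  have hK : 0 ≤ K := le_trans (by positivity) (hb.upper z hz)
  have hwn : ∀ i, ‖w i‖ ≤ 1 / c := by
    intro i
    have h4 := hb.lower z hz (w i)
    rw [hw i, hε.1 i] at h4
    rw [le_div_iff₀ hc]
    linarith
  have hwn2 : ∀ i, ‖w i‖ ^ 2 ≤ 1 / c ^ 2 := by
    intro i
    have := pow_le_pow_left₀ (norm_nonneg _) (hwn i) 2
    simpa [div_pow] using this
  constructor
  · have h4 : ∀ i, ⟪η, diff2 2 G p (ε i) (ε i)⟫ -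
        ⟪η, fderiv ℝ (fderiv ℝ (cone F)) z (w i) (w i)⟫ ≤ 2 * K ^ 2 / c ^ 4 * (d + e) := by
      intro i
      have h5 := (ht (ε i)).2 (w i) (hw i)
      rw [inner_sub_right] at h5
      refine h5.trans ?_
      apply mul_le_mul_of_nonneg_right _ hd.le
      calc 2 * K ^ 2 * ‖w i‖ ^ 2 / c ^ 2 ≤ 2 * K ^ 2 * (1 / c ^ 2) / c ^ 2 := by
            have := hwn2 i
            gcongr
        _ = 2 * K ^ 2 / c ^ 4 := by field_simp
    have h5 := h4 0
    have h6 := h4 1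
    rw [← e2, Fin.sum_univ_two]
    rw [Fin.sum_univ_two] at e1
    have : 4 * K ^ 2 / c ^ 4 * (d + e) = 2 * K ^ 2 / c ^ 4 * (d + e) +
      2 * K ^ 2 / c ^ 4 * (d + e) := by ring
    linarith
  · rw [← e2, Fin.sum_univ_two]
    have h4 : ∀ i, |⟪η, fderiv ℝ (fderiv ℝ (cone F)) z (w i) (w i)⟫| ≤ K / c ^ 2 := by
      intro i
      refine (abs_real_inner_le_norm _ _).trans ?_
      rw [hη, one_mul]
      refine (ContinuousLinearMap.le_opNorm₂ _ _ _).trans ?_
      have h5 := hb.upper z hz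
      have h6 := hwn2 i
      calc _ ≤ K * ‖w i‖ * ‖w i‖ := by gcongr
        _ = K * ‖w i‖ ^ 2 := by ring
        _ ≤ K * (1 / c ^ 2) := by gcongr
        _ = K / c ^ 2 := by ring
    refine (abs_add_le _ _).trans ?_
    have h5 := h4 0
    have h6 := h4 1
    have : 2 * K / c ^ 2 = K / c ^ 2 + K / c ^ 2 := by ring
    linarith

include hF in
lemma space_condition (hz0 : z ≠ 0) (hd : 0 < d) (hdK : d * K ≤ c ^ 2 / 2)
    (h3 : ∀ U ∈ 𝓝 z, ∀ᶠ p' in 𝓝 p, ∃ y ∈ U, ‖G p' - cone F y‖ ≤ d) :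
    ⟪η, meanCurvature 2 G p⟫ - ‖z‖ * ⟪η, meanCurvature 2 F (nrm z)⟫ ≤
      (2 + 4 * K ^ 2 / c ^ 4 + 2 * K / c ^ 2) * d := by
  obtain ⟨h4, h5⟩ := space_ineq hF hG hb hc hz hη hP h1 hz0 (e := 0) (by simpa using hd)
    (by simpa using hdK) (by simpa using h3)
  have hn : ‖z‖ ≠ 0 := norm_ne_zero_iff.2 hz0
  have h6 := norm_sq_add_sq hF hz0 h1 hη hG hP
  have hd1 : d ≤ 1 := by nlinarith [norm_nonneg z]
  set m := ‖z‖⁻¹ * ⟪η, meanCurvature 2 F (nrm z)⟫ with hm
  have h7 : ‖z‖ * ⟪η, meanCurvature 2 F (nrm z)⟫ = ‖z‖ ^ 2 * m := by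
    rw [hm]; field_simp
  rw [h7]
  have h8 : ‖z‖ ^ 2 = 1 - d ^ 2 := by linarith
  rw [h8]
  have h9 : d ^ 2 * m ≤ 2 * K / c ^ 2 * d := by
    have h10 : d ^ 2 * m ≤ d ^ 2 * (2 * K / c ^ 2) :=
      mul_le_mul_of_nonneg_left ((le_abs_self _).trans h5) (by positivity)
    have hK : 0 ≤ 2 * K / c ^ 2 := (abs_nonneg _).trans h5
    have h11 : d ^ 2 * (2 * K / c ^ 2) ≤ d * (2 * K / c ^ 2) := by
      apply mul_le_mul_of_nonneg_right _ hK
      nlinarith
    linarith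
  rw [add_zero] at h4
  nlinarith

include hF in
/-- Two surfaces which coincide locally have the same mean curvature (in direction `η`). -/
lemma space_eq (hd0 : d = 0) (hz0 : z ≠ 0) (hK : 0 < K)
    (h3 : ∀ U ∈ 𝓝 z, ∀ᶠ p' in 𝓝 p, ∃ y ∈ U, G p' = cone F y) :
    ⟪η, meanCurvature 2 G p⟫ ≤ ⟪η, meanCurvature 2 F (nrm z)⟫ := by
  have h6 := norm_sq_add_sq hF hz0 h1 hη hG hP
  have hn : ‖z‖ = 1 := by
    rw [hd0] at h6
    have := norm_nonneg z
    nlinarith
  have h7 : ∀ e > 0, e * K ≤ c ^ 2 / 2 → ⟪η, meanCurvature 2 G p⟫ -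
      ⟪η, meanCurvature 2 F (nrm z)⟫ ≤ 4 * K ^ 2 / c ^ 4 * e := by
    intro e he heK
    obtain ⟨h4, -⟩ := space_ineq hF hG hb hc hz hη hP h1 hz0 (e := e) (by rw [hd0]; simpa using he)
      (by rw [hd0]; simpa using heK) (by
        intro U hU
        filter_upwards [h3 U hU] with p' hp'
        obtain ⟨y, hy, h8⟩ := hp'
        refine ⟨y, hy, ?_⟩
        rw [h8, hd0, zero_add, add_sub_cancel_left, norm_smul, hη, mul_one, Real.norm_eq_abs,
          abs_of_pos he])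
    rw [hn, hd0] at h4
    simp at h4
    linarith
  have h8 : Tendsto (fun e : ℝ => 4 * K ^ 2 / c ^ 4 * e) (𝓝[>] 0) (𝓝 (4 * K ^ 2 / c ^ 4 * 0)) := by
    have : ContinuousAt (fun e : ℝ => 4 * K ^ 2 / c ^ 4 * e) 0 := by fun_prop
    exact this.tendsto.mono_left nhdsWithin_le_nhds
  rw [mul_zero] at h8
  have h9 : ⟪η, meanCurvature 2 G p⟫ - ⟪η, meanCurvature 2 F (nrm z)⟫ ≤ 0 := by
    refine ge_of_tendsto h8 ?_
    have h10 : ∀ᶠ e in 𝓝[>] (0 : ℝ), e < c ^ 2 / 2 / K :=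
      mem_nhdsWithin_of_mem_nhds (Iio_mem_nhds (by positivity))
    filter_upwards [h10, self_mem_nhdsWithin] with e he he0
    exact h7 e he0 (by rw [lt_div_iff₀ hK] at he; exact he.le)
  linarith

end Surf

end Pool.Agent.H15.MCF
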