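import Mathlib
import Pool.Agent.H15.MCF.Surf

/-!
# Comparison of two solutions
-/

namespace Pool.Agent.H15.MCF

open scoped Manifold ContDiff RealInnerProductSpace Topology
open Set Filter

/-- Two families which are close to each other, with estimates. -/
structure Close (F G : ℝ → S2 → Euc 4) (a b r c K ρ : ℝ) : Prop where
  ball : ∀ t ∈ Icc a b, ∀ p : S2, BallEst (cone (F t)) p r c K
  close : ∀ t ∈ Icc a b, ∀ p, ‖G t p - F t p‖ ≤ ρ
  hr : 0 < r
  hr' : r ≤ 1 / 2
  hc : 0 < c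
  hK : 0 < K
  hKr : K * r ≤ c / 2
  hρr : 2 * ρ < c / 2 * r
  hρ : 2 * ρ * K < (c / 2) ^ 2

/-- `z` is a closest point to `G t p` on the cone over `F t`, among those near `p`. -/
structure IsArgmin (F G : ℝ → S2 → Euc 4) (r t : ℝ) (p : S2) (z : Euc 3) : Prop where
  mem : z ∈ Metric.closedBall (p : Euc 3) r
  le : ∀ z' ∈ Metric.closedBall (p : Euc 3) r,
    ‖G t p - cone (F t) z‖ ≤ ‖G t p - cone (F t) z'‖

lemma cone_coe (F : S2 → Euc 4) (p : S2) : cone F (p : Euc 3) = F p := by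
  unfold cone
  rw [norm_coe, one_smul, nrm_coe]

lemma half_le_norm {p : S2} {z : Euc 3} {r : ℝ} (hr : r ≤ 1 / 2)
    (hz : z ∈ Metric.closedBall (p : Euc 3) r) : 1 / 2 ≤ ‖z‖ := by
  have h1 := norm_coe p
  rw [mem_closedBall_iff_norm'] at hz
  have h2 : ‖(p : Euc 3)‖ ≤ ‖z‖ + ‖(p : Euc 3) - z‖ := by
    have : (p : Euc 3) = z + ((p : Euc 3) - z) := by abel
    conv_lhs => rw [this]
    exact norm_add_le _ _
  linarith

lemma ne_zero_of_mem {p : S2} {z : Euc 3} {r : ℝ} (hr : r ≤ 1 / 2)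
    (hz : z ∈ Metric.closedBall (p : Euc 3) r) : z ≠ 0 := by
  have := half_le_norm hr hz
  intro h
  rw [h, norm_zero] at this
  norm_num at this

section

variable {F G : ℝ → S2 → Euc 4} {a b r c K ρ : ℝ} (h : Close F G a b r c K ρ)
include h

lemma Close.exists_argmin {t : ℝ} (ht : t ∈ Icc a b) (p : S2) :
    ∃ z, IsArgmin F G r t p z := by
  have hcont : ContinuousOn (fun z => ‖G t p - cone (F t) z‖)
      (Metric.closedBall (p : Euc 3) r) := by
    intro z hz
    have := ((h.ball t ht p).smooth z hz).continuousAt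
    exact (continuousAt_const.sub this).norm.continuousWithinAt
  obtain ⟨z, hz, hmin⟩ := (isCompact_closedBall (p : Euc 3) r).exists_isMinOn
    ⟨_, Metric.mem_closedBall_self h.hr.le⟩ hcont
  exact ⟨z, hz, fun z' hz' => hmin hz'⟩

lemma Close.cone_self {t : ℝ} (ht : t ∈ Icc a b) (p : S2) : ‖G t p - cone (F t) p‖ ≤ ρ := by
  rw [cone_coe]; exact h.close t ht p

lemma Close.unique {t : ℝ} (ht : t ∈ Icc a b) {p : S2} {z y : Euc 3}
    (hz : IsArgmin F G r t p z) (hy : y ∈ Metric.closedBall (p : Euc 3) r) (hne : y ≠ z) :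
    ‖G t p - cone (F t) z‖ < ‖G t p - cone (F t) y‖ :=
  (h.ball t ht p).min_unique h.hr h.hKr h.hc h.hρr h.hρ (h.cone_self ht p) hz.mem hz.le hy hne

lemma Close.facts {t : ℝ} (ht : t ∈ Icc a b) {p : S2} {z : Euc 3} (hz : IsArgmin F G r t p z) :
    ‖G t p - cone (F t) z‖ ≤ ρ ∧ z ∈ Metric.ball (p : Euc 3) r ∧
      ∀ w, ⟪G t p - cone (F t) z, fderiv ℝ (cone (F t)) z w⟫ = 0 :=
  (h.ball t ht p).min_facts h.hr h.hKr h.hc h.hρr (h.cone_self ht p) hz.mem hz.le

/-- The minimisers depend continuously on the point. -/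
lemma Close.argmin_near_space {t : ℝ} (ht : t ∈ Icc a b) (hG : Continuous (G t)) {p : S2}
    {z : Euc 3} (hz : IsArgmin F G r t p z) {U : Set (Euc 3)} (hU : U ∈ 𝓝 z) :
    ∀ᶠ p' in 𝓝 p, ∀ z', IsArgmin F G r t p' z' → z' ∈ U := by
  have h1 := argmin_tendsto (X := S2) (x0 := p) (D := fun p' y => ‖G t p' - cone (F t) y‖)
    (π := fun p' => (p' : Euc 3)) (r := r) continuous_subtype_val.continuousAt
    (fun y hy => by
      have h2 : ContinuousAt (fun q : S2 × Euc 3 => G t q.1) (p, y) :=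
        (hG.comp continuous_fst).continuousAt
      have h3 : ContinuousAt (fun q : S2 × Euc 3 => cone (F t) q.2) (p, y) :=
        ContinuousAt.comp (g := cone (F t)) (f := fun q : S2 × Euc 3 => q.2) (x := (p, y))
          ((h.ball t ht p).smooth y hy).continuousAt continuousAt_snd
      exact (h2.sub h3).norm) hz.mem
    (fun y hy hne => h.unique ht hz hy hne) hU
  filter_upwards [h1] with p' hp' z' hz'
  exact hp' z' hz'.mem hz'.le

/-- The minimisers depend continuously on time. -/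
lemma Close.argmin_near_time {t : ℝ} (ht : t ∈ Icc a b) {p : S2}
    (hG : ContinuousAt (fun s => G s p) t)
    (hF : ∀ y, y ≠ 0 → ContinuousAt (fun q : ℝ × Euc 3 => cone (F q.1) q.2) (t, y))
    {z : Euc 3} (hz : IsArgmin F G r t p z) {U : Set (Euc 3)} (hU : U ∈ 𝓝 z) :
    ∀ᶠ s in 𝓝 t, ∀ z', IsArgmin F G r s p z' → z' ∈ U := by
  have h1 := argmin_tendsto (X := ℝ) (x0 := t) (D := fun s y => ‖G s p - cone (F s) y‖)
    (π := fun _ => (p : Euc 3)) (r := r) continuousAt_const
    (fun y hy => by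
      have h2 : ContinuousAt (fun q : ℝ × Euc 3 => G q.1 p) (t, y) :=
        ContinuousAt.comp (g := fun s => G s p) (f := fun q : ℝ × Euc 3 => q.1) (x := (t, y))
          hG continuousAt_fst
      have h3 := hF y (ne_zero_of_mem h.hr' hy)
      exact (h2.sub h3).norm) hz.mem
    (fun y hy hne => h.unique ht hz hy hne) hU
  filter_upwards [h1] with p' hp' z' hz'
  exact hp' z' hz'.mem hz'.le

end

section

variable {F₀ G₀ : S2 → Euc 4} {T T' : EReal} {F G : ℝ → S2 → Euc 4} {a b r c K ρ : ℝ}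
  (h : Close F G a b r c K ρ) (hF : IsMCF 2 F₀ T F) (hG : IsMCF 2 G₀ T' G)
  (hI : Icc a b ⊆ timeDomain T) (hI' : Icc a b ⊆ timeDomain T')
include h hF hG hI hI'

lemma Close.exists_max (hab : a ≤ b) (l : ℝ) : ∃ t ∈ Icc a b, ∃ p z, IsArgmin F G r t p z ∧
    ∀ t' ∈ Icc a b, ∀ p' z', IsArgmin F G r t' p' z' →
      Real.exp (-l * t') * ‖G t' p' - cone (F t') z'‖ ≤
        Real.exp (-l * t) * ‖G t p - cone (F t) z‖ := by
  let f : (Icc a b × S2) → Metric.closedBall (0 : Euc 3) r → ℝ := fun x y => ‖G x.1 x.2 - cone (F x.1) ((x.2 : Euc 3) + (y : Euc 3))‖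
  have hball : ∀ (p : S2) (y : Metric.closedBall (0 : Euc 3) r), (p : Euc 3) + (y : Euc 3) ∈ Metric.closedBall (p : Euc 3) r := by
    intro p y
    rw [mem_closedBall_iff_norm, add_sub_cancel_left]
    exact mem_closedBall_zero_iff.1 y.2
  have hf : Continuous ↿f := by
    have h1 : Continuous (fun q : (Icc a b × S2) × Metric.closedBall (0 : Euc 3) r => G q.1.1 q.1.2) := by
      have h2 := (contDiffOn_Theta hG).continuousOn
      have h3 : Continuous (fun q : (Icc a b × S2) × Metric.closedBall (0 : Euc 3) r => Theta G ((q.1.1 : Icc a b) : ℝ) (q.1.2 : Euc 3)) := by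
        apply h2.comp_continuous (f := fun q : (Icc a b × S2) × Metric.closedBall (0 : Euc 3) r =>
          (((q.1.1 : Icc a b) : ℝ), ((q.1.2 : S2) : Euc 3))) (by fun_prop)
        intro q
        exact ⟨hI' q.1.1.2, coe_ne_zero _⟩
      refine h3.congr fun q => ?_
      exact cone_coe _ _
    have h2 : Continuous (fun q : (Icc a b × S2) × Metric.closedBall (0 : Euc 3) r =>
        cone (F q.1.1) ((q.1.2 : Euc 3) + (q.2 : Euc 3))) := by
      have h2 := (contDiffOn_Theta hF).continuousOn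
      apply h2.comp_continuous (f := fun q : (Icc a b × S2) × Metric.closedBall (0 : Euc 3) r =>
        (((q.1.1 : Icc a b) : ℝ), ((q.1.2 : S2) : Euc 3) + ((q.2 : Metric.closedBall (0 : Euc 3) r) : Euc 3))) (by fun_prop)
      intro q
      exact ⟨hI q.1.1.2, ne_zero_of_mem h.hr' (hball _ _)⟩
    exact (h1.sub h2).norm
  have hYc : CompactSpace (Metric.closedBall (0 : Euc 3) r) := isCompact_iff_compactSpace.1 (isCompact_closedBall _ _)
  have hφ : Continuous fun x : Icc a b × S2 => sInf (f x '' univ) :=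
    IsCompact.continuous_sInf isCompact_univ hf
  have hval : ∀ (x : Icc a b × S2) (z : Euc 3), IsArgmin F G r x.1 x.2 z →
      sInf (f x '' univ) = ‖G x.1 x.2 - cone (F x.1) z‖ := by
    intro x z hz
    apply IsLeast.csInf_eq
    constructor
    · refine ⟨⟨z - (x.2 : Euc 3), ?_⟩, mem_univ _, ?_⟩
      · rw [mem_closedBall_zero_iff, ← mem_closedBall_iff_norm]
        exact hz.mem
      · show ‖G x.1 x.2 - cone (F x.1) ((x.2 : Euc 3) + (z - (x.2 : Euc 3)))‖ = _
        have : (x.2 : Euc 3) + (z - (x.2 : Euc 3)) = z := by abel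
        rw [this]
    · rintro _ ⟨y, -, rfl⟩
      exact hz.le _ (hball x.2 y)
  have hΦ : Continuous fun x : Icc a b × S2 => Real.exp (-l * (x.1 : ℝ)) * sInf (f x '' univ) :=
    (Real.continuous_exp.comp (by fun_prop)).mul hφ
  obtain ⟨x, -, hx⟩ := isCompact_univ.exists_isMaxOn (s := (univ : Set (Icc a b × S2)))
    ⟨((⟨a, le_rfl, hab⟩ : Icc a b), mer 0), mem_univ _⟩ hΦ.continuousOn
  obtain ⟨z, hz⟩ := h.exists_argmin x.1.2 x.2
  refine ⟨x.1, x.1.2, x.2, z, hz, fun t' ht' p' z' hz' => ?_⟩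
  have h1 := hx (mem_univ ((⟨t', ht'⟩ : Icc a b), p'))
  have h2 := hval x z hz
  have h3 := hval ((⟨t', ht'⟩ : Icc a b), p') z' hz'
  simp only [mem_ofPred_eq, h2, h3] at h1
  exact h1

end

end Pool.Agent.H15.MCF
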