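import Mathlib
import Pool.Agent.H15.MCF.Compare

/-!
# The images of two close solutions coincide
-/

namespace Pool.Agent.H15.MCF

open scoped Manifold ContDiff RealInnerProductSpace Topology
open Set Filter

section

variable {F₀ : S2 → Euc 4} {T : EReal} {F : ℝ → S2 → Euc 4} (hF : IsMCF 2 F₀ T F)
include hF

lemma hasDerivAt_flow {t : ℝ} (ht : t ∈ timeInt T) (p : S2) :
    HasDerivAt (fun s => F s p) (meanCurvature 2 (F t) p) t := by
  refine (hF.flow t (timeInt_subset T ht) p).hasDerivAt ?_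
  exact Filter.mem_of_superset ((isOpen_timeInt T).mem_nhds ht) (timeInt_subset T)

lemma contDiffAt_Theta {t : ℝ} (ht : t ∈ timeInt T) {z : Euc 3} (hz : z ≠ 0) :
    ContDiffAt ℝ ∞ (fun q : ℝ × Euc 3 => cone (F q.1) q.2) (t, z) := by
  apply (contDiffOn_Theta hF).contDiffAt
  have h : timeInt T ×ˢ ({0}ᶜ : Set (Euc 3)) ∈ 𝓝 (t, z) :=
    ((isOpen_timeInt T).prod isOpen_compl_singleton).mem_nhds ⟨ht, hz⟩
  exact Filter.mem_of_superset h (prod_mono (timeInt_subset T) subset_rfl)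

lemma contDiffAt_time {t : ℝ} (ht : t ∈ timeInt T) (p : S2) :
    ContDiffAt ℝ ∞ (fun s : ℝ => F s p) t := by
  have h1 := contDiffAt_Theta hF ht (coe_ne_zero p)
  have h2 : ContDiffAt ℝ ∞ (fun s : ℝ => (s, (p : Euc 3))) t :=
    contDiffAt_id.prodMk contDiffAt_const
  have h3 := ContDiffAt.comp (g := fun q : ℝ × Euc 3 => cone (F q.1) q.2)
    (f := fun s : ℝ => (s, (p : Euc 3))) t h1 h2
  have h4 : (fun s => F s p) = (fun q : ℝ × Euc 3 => cone (F q.1) q.2) ∘
      fun s : ℝ => (s, (p : Euc 3)) := by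
    funext s
    exact (cone_coe (F s) p).symm
  rw [h4]
  exact h3

end

section

variable {F₀ G₀ : S2 → Euc 4} {T T' : EReal} {F G : ℝ → S2 → Euc 4} {a b r c K ρ : ℝ}
  (h : Close F G a b r c K ρ) (hF : IsMCF 2 F₀ T F) (hG : IsMCF 2 G₀ T' G)
  (hI : Icc a b ⊆ timeDomain T) (hI' : Icc a b ⊆ timeDomain T')
include h hF hG hI hI'

lemma Close.max_zero (ha : F a = G a) {l : ℝ}
    (hl : 2 + 4 * K ^ 2 / c ^ 4 + 2 * K / c ^ 2 < l) {t : ℝ} (ht : t ∈ Icc a b) {p : S2}
    {z : Euc 3} (hz : IsArgmin F G r t p z)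
    (hmax : ∀ t' ∈ Icc a b, ∀ p' z', IsArgmin F G r t' p' z' →
      Real.exp (-l * t') * ‖G t' p' - cone (F t') z'‖ ≤
        Real.exp (-l * t) * ‖G t p - cone (F t) z‖) : ‖G t p - cone (F t) z‖ = 0 := by
  by_contra hne
  set d := ‖G t p - cone (F t) z‖ with hd
  have hd0 : 0 < d := lt_of_le_of_ne (norm_nonneg _) (Ne.symm hne)
  obtain ⟨hdρ, hzb, hcrit⟩ := h.facts ht hz
  rw [← hd] at hdρ
  -- the time is not the initial one
  have hta : a < t := by
    rcases eq_or_lt_of_le ht.1 with heq | hlt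
    · exfalso
      have h1 := hz.le _ (Metric.mem_closedBall_self h.hr.le)
      rw [cone_coe, ← hd, ← heq, ha, sub_self, norm_zero] at h1
      linarith
    · exact hlt
  have haI : a ∈ Icc a b := ⟨le_rfl, hta.le.trans ht.2⟩
  have htT : t ∈ timeInt T := ⟨lt_of_le_of_lt (hI haI).1 hta, (hI ht).2⟩
  have htT' : t ∈ timeInt T' := ⟨lt_of_le_of_lt (hI' haI).1 hta, (hI' ht).2⟩
  have hz0 : z ≠ 0 := ne_zero_of_mem h.hr' hz.mem
  have hIF := hF.immersion t (hI ht)
  have hIG := hG.immersion t (hI' ht)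
  set η : Euc 4 := d⁻¹ • (G t p - cone (F t) z) with hη
  have hηn : ‖η‖ = 1 := by
    rw [hη, norm_smul, ← hd, norm_inv, Real.norm_eq_abs, abs_of_pos hd0]
    exact inv_mul_cancel₀ hd0.ne'
  have hPη : G t p - cone (F t) z = d • η := by
    rw [hη, smul_smul, mul_inv_cancel₀ hd0.ne', one_smul]
  have h1 : ∀ w, ⟪η, fderiv ℝ (cone (F t)) z w⟫ = 0 := by
    intro w
    rw [hη, inner_smul_left, hcrit w, mul_zero]
  -- the space condition
  have hdK : d * K ≤ c ^ 2 / 2 := by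
    have h2 := h.hρ
    have h3 := h.hK
    nlinarith
  have hspace := space_condition hIF hIG (h.ball t ht p) h.hc hz.mem hηn hPη h1 hz0 hd0 hdK
    (by
      intro U hU
      filter_upwards [h.argmin_near_space ht hIG.smooth.continuous hz hU] with p' hp'
      obtain ⟨z', hz'⟩ := h.exists_argmin ht p'
      refine ⟨z', hp' z' hz', ?_⟩
      have h2 := hmax t ht p' z' hz'
      exact le_of_mul_le_mul_left h2 (Real.exp_pos _))
  -- the time condition
  have hcF : ∀ y, y ≠ 0 → ContDiffAt ℝ ∞ (fun q : ℝ × Euc 3 => cone (F q.1) q.2) (t, y) :=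
    fun y hy => contDiffAt_Theta hF htT hy
  have hcG : ContDiffAt ℝ ∞ (fun s : ℝ => G s p) t := contDiffAt_time hG htT' p
  let E : ℝ × Euc 3 → ℝ := fun q =>
    Real.exp (-l * q.1) ^ 2 * ‖G q.1 p - cone (F q.1) q.2‖ ^ 2
  have hE : ContDiffAt ℝ ∞ E (t, z) := by
    have e1 : ContDiffAt ℝ ∞ (fun q : ℝ × Euc 3 => Real.exp (-l * q.1) ^ 2) (t, z) := by
      have : ContDiffAt ℝ ∞ (fun q : ℝ × Euc 3 => -l * q.1) (t, z) :=
        contDiffAt_const.mul contDiffAt_fst
      exact (this.exp).pow 2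
    have e2 : ContDiffAt ℝ ∞ (fun q : ℝ × Euc 3 => G q.1 p) (t, z) :=
      ContDiffAt.comp (g := fun s : ℝ => G s p) (t, z) hcG contDiffAt_fst
    exact e1.mul ((e2.sub (hcF z hz0)).norm_sq ℝ)
  have htime := time_condition (hE.of_le (by simp)) (by
    intro U hU
    have e1 := h.argmin_near_time ht hcG.continuousAt (fun y hy => (hcF y hy).continuousAt) hz hU
    have e2 : ∀ᶠ s in 𝓝 t, a < s := lt_mem_nhds hta
    filter_upwards [mem_nhdsWithin_of_mem_nhds e1, mem_nhdsWithin_of_mem_nhds e2,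
      self_mem_nhdsWithin] with s hs1 hs2 hs3
    have hsI : s ∈ Icc a b := ⟨hs2.le, (le_of_lt hs3).trans ht.2⟩
    obtain ⟨z', hz'⟩ := h.exists_argmin hsI p
    refine ⟨z', hs1 z' hz', ?_⟩
    have e3 := hmax s hsI p z' hz'
    have e4 := hz.le z' hz'.mem
    show Real.exp (-l * s) ^ 2 * ‖G s p - cone (F s) z'‖ ^ 2 ≤
      Real.exp (-l * t) ^ 2 * ‖G t p - cone (F t) z'‖ ^ 2
    rw [← mul_pow, ← mul_pow]
    apply pow_le_pow_left₀ (by positivity)
    refine e3.trans ?_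
    exact mul_le_mul_of_nonneg_left e4 (Real.exp_pos _).le)
  -- the value of the time derivative
  have hR : HasDerivAt (fun s => G s p - cone (F s) z)
      (meanCurvature 2 (G t) p - ‖z‖ • meanCurvature 2 (F t) (nrm z)) t :=
    (hasDerivAt_flow hG htT' p).sub ((hasDerivAt_flow hF htT (nrm z)).const_smul ‖z‖)
  have hexp : HasDerivAt (fun s => Real.exp (-l * s) ^ 2) (-2 * l * Real.exp (-l * t) ^ 2) t := by
    have e1 : HasDerivAt (fun s => -l * s) (-l) t := by
      simpa using (hasDerivAt_id t).const_mul (-l)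
    have e2 := (e1.exp).pow 2
    refine e2.congr_deriv ?_
    push_cast
    ring
  have hEt : HasDerivAt (fun s => E (s, z)) (-2 * l * Real.exp (-l * t) ^ 2 * d ^ 2 +
      Real.exp (-l * t) ^ 2 * (2 * ⟪G t p - cone (F t) z,
        meanCurvature 2 (G t) p - ‖z‖ • meanCurvature 2 (F t) (nrm z)⟫)) t :=
    hexp.mul hR.norm_sq
  have hEt2 : HasDerivAt (fun s => E (s, z)) (fderiv ℝ E (t, z) (1, 0)) t := by
    have e1 := (hE.differentiableAt (by simp)).hasFDerivAt
    have e2 : HasDerivAt (fun s : ℝ => (s, z)) ((1 : ℝ), (0 : Euc 3)) t :=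
      (hasDerivAt_id t).prodMk (hasDerivAt_const t z)
    exact e1.comp_hasDerivAt t e2
  rw [hEt2.unique hEt, hPη, inner_smul_left, inner_sub_right, inner_smul_right] at htime
  simp only [conj_trivial] at htime
  have hx : 0 < Real.exp (-l * t) ^ 2 := by positivity
  set m1 := ⟪η, meanCurvature 2 (G t) p⟫
  set m2 := ⟪η, meanCurvature 2 (F t) (nrm z)⟫
  have e5 : -2 * l * Real.exp (-l * t) ^ 2 * d ^ 2 +
      Real.exp (-l * t) ^ 2 * (2 * (d * (m1 - ‖z‖ * m2))) =
      (2 * d * Real.exp (-l * t) ^ 2) * ((m1 - ‖z‖ * m2) - l * d) := by ring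
  rw [e5] at htime
  have e6 : 0 ≤ (m1 - ‖z‖ * m2) - l * d := by
    by_contra hneg
    push Not at hneg
    have : (2 * d * Real.exp (-l * t) ^ 2) * ((m1 - ‖z‖ * m2) - l * d) < 0 :=
      mul_neg_of_pos_of_neg (by positivity) hneg
    linarith
  nlinarith

/-- Each point of `G t` lies on the cone over `F t`. -/
lemma Close.coincide (hab : a ≤ b) (ha : F a = G a) {t : ℝ} (ht : t ∈ Icc a b) {p : S2}
    {z : Euc 3} (hz : IsArgmin F G r t p z) : G t p = cone (F t) z := by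
  set l := 2 + 4 * K ^ 2 / c ^ 4 + 2 * K / c ^ 2 + 1 with hl
  obtain ⟨t1, ht1, p1, z1, hz1, hmax⟩ := h.exists_max hF hG hI hI' hab l
  have h1 := h.max_zero hF hG hI hI' ha (l := l) (by rw [hl]; linarith) ht1 hz1 hmax
  have h2 := hmax t ht p z hz
  rw [h1, mul_zero] at h2
  have h3 : ‖G t p - cone (F t) z‖ ≤ 0 := by
    by_contra hcon
    push Not at hcon
    have : 0 < Real.exp (-l * t) * ‖G t p - cone (F t) z‖ := by positivity
    linarith
  exact sub_eq_zero.1 (norm_le_zero_iff.1 h3)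

end

end Pool.Agent.H15.MCF
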