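import Mathlib
import Pool.Agent.H15.MCF.Flow

/-!
# Identities along the meridian
-/

namespace Pool.Agent.H15.MCF

open scoped Manifold ContDiff RealInnerProductSpace Topology
open Set

section Fixed

variable {F : S2 → Euc 4} (hF : IsSphereImmersion 2 F) (hs : IsSymm F)
include hF

lemma inner_mer_deriv (u : ℝ) : ⟪F (mer u), deriv (fun u => F (mer u)) u⟫ = 0 := by
  rw [deriv_mer hF]
  exact inner_self_diff1 (hF.smooth _) hF.norm_eq_one _

lemma hasDerivAt_deriv_mer (u : ℝ) : HasDerivAt (deriv (fun u => F (mer u)))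
    (deriv (deriv (fun u => F (mer u))) u) u := by
  have h : ContDiff ℝ 1 (deriv (fun u => F (mer u))) := by
    have := (contDiff_mer hF).of_le two_le_infty
    exact (contDiff_succ_iff_deriv.1 (this : ContDiff ℝ (1 + 1) _)).2.2
  exact ((h.differentiable (by norm_num)) u).hasDerivAt

lemma inner_mer_deriv2 (u : ℝ) : ⟪F (mer u), deriv (deriv (fun u => F (mer u))) u⟫ =
    - ‖deriv (fun u => F (mer u)) u‖ ^ 2 := by
  have h := (hasDerivAt_mer hF u).inner ℝ (hasDerivAt_deriv_mer hF u)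
  have h2 : (fun u => ⟪F (mer u), deriv (fun u => F (mer u)) u⟫) = fun _ => (0 : ℝ) :=
    funext fun u => inner_mer_deriv hF u
  rw [h2] at h
  have h3 := h.unique (hasDerivAt_const u 0)
  rw [real_inner_self_eq_norm_sq] at h3
  linarith

lemma inner_deriv_H (u : ℝ) :
    ⟪deriv (fun u => F (mer u)) u, meanCurvature 2 F (mer u)⟫ = 0 := by
  rw [deriv_mer hF]
  exact (mem_normalSpace.1 (meanCurvature_mem F (mer u))).2 _

include hs

lemma norm_H_sq {u : ℝ} (hu : Real.cos u ≠ 0) : ‖meanCurvature 2 F (mer u)‖ ^ 2 =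
    1 / ‖deriv (fun u => F (mer u)) u‖ ^ 2 *
      ⟪deriv (deriv (fun u => F (mer u))) u, meanCurvature 2 F (mer u)⟫ -
      1 / F (mer u) 2 * meanCurvature 2 F (mer u) 2 := by
  have h := meanCurvature_mer hs hF hu
  have hp : (normalSpace 2 F (mer u)).starProjection (meanCurvature 2 F (mer u)) =
      meanCurvature 2 F (mer u) :=
    Submodule.starProjection_eq_self_iff.2 (meanCurvature_mem F (mer u))
  generalize meanCurvature 2 F (mer u) = H at h hp ⊢
  have h1 : ⟪H, H⟫ = ⟪(1 / ‖deriv (fun u => F (mer u)) u‖ ^ 2) •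
      deriv (deriv (fun u => F (mer u))) u - (1 / F (mer u) 2) • bb 2, H⟫ := by
    calc ⟪H, H⟫ = ⟪(normalSpace 2 F (mer u)).starProjection
          ((1 / ‖deriv (fun u => F (mer u)) u‖ ^ 2) • deriv (deriv (fun u => F (mer u))) u -
            (1 / F (mer u) 2) • bb 2), H⟫ := by rw [← h]
      _ = ⟪(1 / ‖deriv (fun u => F (mer u)) u‖ ^ 2) • deriv (deriv (fun u => F (mer u))) u -
            (1 / F (mer u) 2) • bb 2, (normalSpace 2 F (mer u)).starProjection H⟫ :=
          inner_nproj _ _ _ _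
      _ = _ := by rw [hp]
  have h2 : ⟪bb 2, H⟫ = H 2 := by rw [inner4]; simp
  rw [← real_inner_self_eq_norm_sq, h1, inner_sub_left, inner_smul_left, inner_smul_left, h2]
  simp

/-- The second coordinate of the mean curvature vector along the meridian. -/
lemma H_one {u : ℝ} (hu : Real.cos u ≠ 0) : meanCurvature 2 F (mer u) 1 =
    1 / ‖deriv (fun u => F (mer u)) u‖ ^ 2 * deriv (deriv (fun u => F (mer u))) u 1 +
      2 * F (mer u) 1 -
      deriv (fun u => F (mer u)) u 1 / ‖deriv (fun u => F (mer u)) u‖ ^ 4 *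
        ⟪deriv (deriv (fun u => F (mer u))) u, deriv (fun u => F (mer u)) u⟫ +
      deriv (fun u => F (mer u)) u 1 / ‖deriv (fun u => F (mer u)) u‖ ^ 2 *
        (deriv (fun u => F (mer u)) u 2 / F (mer u) 2) := by
  have h := meanCurvature_mer hs hF hu
  have hz := mer_two_ne_zero hs hF hu
  have hg0 := deriv_mer_ne_zero hF u
  have i1 := inner_mer_deriv hF u
  have i2 := inner_mer_deriv2 hF u
  have i3 := hF.norm_eq_one (mer u)
  have i4 := mer_three hs u
  have i5 := deriv_mer_three hs hF u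
  have hmem := mem_normalSpace_mer hs hF hu
  have hself := nproj_self (n := 2) F (mer u)
  have hdiff := nproj_diff1 F (mer u) (cvel 2 mer u)
  rw [← deriv_mer hF] at hdiff
  set g' := deriv (fun u => F (mer u)) u
  set g'' := deriv (deriv (fun u => F (mer u))) u
  set g := F (mer u)
  have hv : ‖g'‖ ≠ 0 := norm_ne_zero_iff.2 hg0
  have b1 : ∀ w : Euc 4, ⟪w, bb 1⟫ = w 1 := fun w => by rw [inner4]; simp
  have b2 : ∀ w : Euc 4, ⟪bb 2, w⟫ = w 2 := fun w => by rw [inner4]; simp
  have hN : bb 1 - g 1 • g - (g' 1 / ‖g'‖ ^ 2) • g' ∈ normalSpace 2 F (mer u) := by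
    rw [hmem]
    refine ⟨?_, ?_, ?_⟩
    · rw [inner_sub_right, inner_sub_right, inner_smul_right, inner_smul_right, b1, i1,
        real_inner_self_eq_norm_sq, i3]
      ring
    · rw [inner_sub_right, inner_sub_right, inner_smul_right, inner_smul_right, b1,
        real_inner_comm, i1, real_inner_self_eq_norm_sq]
      field_simp
      ring
    · simp [i4, i5]
  have hP : (normalSpace 2 F (mer u)).starProjection (bb 1) =
      bb 1 - g 1 • g - (g' 1 / ‖g'‖ ^ 2) • g' := by
    have h2 := Submodule.starProjection_eq_self_iff.2 hN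
    rw [map_sub, map_sub, map_smul, map_smul, hself, hdiff, smul_zero, smul_zero, sub_zero,
      sub_zero] at h2
    exact h2
  rw [← b1 (meanCurvature 2 F (mer u)), h, inner_nproj, hP]
  have j1 : ⟪g'', g⟫ = - ‖g'‖ ^ 2 := by rw [real_inner_comm]; exact i2
  simp only [inner_sub_left, inner_sub_right, inner_smul_left, inner_smul_right, conj_trivial,
    b1, b2, j1]
  have : ((1 / ‖g'‖ ^ 2) • g'' - (1 / g 2) • bb 2) 1 = 1 / ‖g'‖ ^ 2 * g'' 1 := by simp
  rw [this]
  field_simp
  ring

omit hs in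
lemma hasDerivAt_speed (u : ℝ) : HasDerivAt (fun u => ‖deriv (fun u => F (mer u)) u‖)
    (⟪deriv (fun u => F (mer u)) u, deriv (deriv (fun u => F (mer u))) u⟫ /
      ‖deriv (fun u => F (mer u)) u‖) u := by
  have h := (hasDerivAt_deriv_mer hF u)
  have h2 := h.norm_sq
  have hne : ‖deriv (fun u => F (mer u)) u‖ ≠ 0 := norm_ne_zero_iff.2 (deriv_mer_ne_zero hF u)
  have h3 := h2.sqrt (pow_ne_zero 2 hne)
  have h4 : (fun u => Real.sqrt (‖deriv (fun u => F (mer u)) u‖ ^ 2)) =
      fun u => ‖deriv (fun u => F (mer u)) u‖ := by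
    funext u; exact Real.sqrt_sq (norm_nonneg _)
  rw [h4] at h3
  refine h3.congr_deriv ?_
  rw [Real.sqrt_sq (norm_nonneg _)]
  field_simp

/-- The divergence identity for the second coordinate function. -/
lemma hasDerivAt_flux {u : ℝ} (hu : Real.cos u ≠ 0) :
    HasDerivAt (fun u => F (mer u) 2 * deriv (fun u => F (mer u)) u 1 /
      ‖deriv (fun u => F (mer u)) u‖)
      (F (mer u) 2 * ‖deriv (fun u => F (mer u)) u‖ * meanCurvature 2 F (mer u) 1 -
        2 * (F (mer u) 2 * ‖deriv (fun u => F (mer u)) u‖ * F (mer u) 1)) u := by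
  have hz := mer_two_ne_zero hs hF hu
  have hne : ‖deriv (fun u => F (mer u)) u‖ ≠ 0 := norm_ne_zero_iff.2 (deriv_mer_ne_zero hF u)
  have h1 := hasDerivAt_mer_coord hF u 2
  have h2 : HasDerivAt (fun u => deriv (fun u => F (mer u)) u 1)
      (deriv (deriv (fun u => F (mer u))) u 1) u :=
    (EuclideanSpace.proj (𝕜 := ℝ) 1 : Euc 4 →L[ℝ] ℝ).hasFDerivAt.comp_hasDerivAt u
      (hasDerivAt_deriv_mer hF u)
  have h3 := hasDerivAt_speed hF u
  have h4 := (h1.mul h2).div h3 hne
  refine h4.congr_deriv ?_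
  rw [H_one hF hs hu]
  rw [real_inner_comm]
  simp only [Pi.mul_apply]
  field_simp
  ring

end Fixed

end Pool.Agent.H15.MCF
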