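import Mathlib
import Pool.Agent.H15.MCF.Ident

/-!
# Evolution along the meridian
-/

namespace Pool.Agent.H15.MCF

open scoped Manifold ContDiff RealInnerProductSpace Topology
open Set

lemma rot_pole {u : ℝ} (hu : Real.cos u = 0) (φ : ℝ) : sphMap (rot3 φ) (mer u) = mer u := by
  apply Subtype.ext
  rw [coe_sphMap, rot3_apply, coe_mer]
  ext i
  fin_cases i <;> simp [hu]

lemma pole_two {F : S2 → Euc 4} (hs : IsSymm F) {u : ℝ} (hu : Real.cos u = 0) :
    F (mer u) 2 = 0 := by
  have h := hs.rot Real.pi (mer u)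
  rw [rot_pole hu, rot4_apply] at h
  have h2 := congrArg (fun v : Euc 4 => v 2) h
  simp at h2
  linarith

section

variable {F₀ : S2 → Euc 4} {T : EReal} {F : ℝ → S2 → Euc 4} (hF : IsMCF 2 F₀ T F)
  (hs : ∀ t ∈ timeDomain T, IsSymm (F t))
include hF hs

/-- Evolution of the area density. -/
lemma hasDerivAt_density {t : ℝ} (ht : t ∈ timeInt T) (u : ℝ) :
    HasDerivAt (fun s => F s (mer u) 2 * ‖deriv (fun u => F s (mer u)) u‖)
      (-(F t (mer u) 2 * ‖deriv (fun u => F t (mer u)) u‖ *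
        ‖meanCurvature 2 (F t) (mer u)‖ ^ 2)) t := by
  have htd := timeInt_subset T ht
  have hnhds : timeDomain T ∈ 𝓝 t :=
    Filter.mem_of_superset ((isOpen_timeInt T).mem_nhds ht) (timeInt_subset T)
  by_cases hu : Real.cos u = 0
  · have h0 : ∀ s ∈ timeDomain T, F s (mer u) 2 = 0 := fun s hs' => pole_two (hs s hs') hu
    rw [h0 t htd]
    simp only [zero_mul, neg_zero]
    refine (hasDerivAt_const t (0 : ℝ)).congr_of_eventuallyEq ?_
    filter_upwards [hnhds] with s hs'
    rw [h0 s hs', zero_mul]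
  · have hI := hF.immersion t htd
    have hS := hs t htd
    have hz := mer_two_ne_zero hS hI hu
    have hv0 : deriv (fun u => F t (mer u)) u ≠ 0 := deriv_mer_ne_zero hI u
    have hv : ‖deriv (fun u => F t (mer u)) u‖ ≠ 0 := norm_ne_zero_iff.2 hv0
    have hflow := (hF.flow t htd (mer u)).hasDerivAt hnhds
    have h1 : HasDerivAt (fun s => F s (mer u) 2) (meanCurvature 2 (F t) (mer u) 2) t :=
      (EuclideanSpace.proj (𝕜 := ℝ) 2 : Euc 4 →L[ℝ] ℝ).hasFDerivAt.comp_hasDerivAt t hflow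
    obtain ⟨D, hD1, hD2⟩ := mixed hF ht u
    have h2 : HasDerivAt (fun s => ‖deriv (fun u => F s (mer u)) u‖)
        (⟪deriv (fun u => F t (mer u)) u, D⟫ / ‖deriv (fun u => F t (mer u)) u‖) t := by
      have h3 := hD1.norm_sq.sqrt (pow_ne_zero 2 hv)
      have h4 : (fun s => Real.sqrt (‖deriv (fun u => F s (mer u)) u‖ ^ 2)) =
          fun s => ‖deriv (fun u => F s (mer u)) u‖ := by
        funext s; exact Real.sqrt_sq (norm_nonneg _)
      rw [h4] at h3
      refine h3.congr_deriv ?_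
      rw [Real.sqrt_sq (norm_nonneg _)]
      field_simp
    have h5 : ⟪deriv (fun u => F t (mer u)) u, D⟫ =
        -⟪deriv (deriv (fun u => F t (mer u))) u, meanCurvature 2 (F t) (mer u)⟫ := by
      have h6 := (hasDerivAt_deriv_mer hI u).inner ℝ hD2
      have h7 : (fun u => ⟪deriv (fun u => F t (mer u)) u, meanCurvature 2 (F t) (mer u)⟫) =
          fun _ => (0 : ℝ) := funext fun u => inner_deriv_H hI u
      rw [h7] at h6
      have h8 := h6.unique (hasDerivAt_const u 0)
      linarith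
    have h9 := norm_H_sq hI hS hu
    refine (h1.mul h2).congr_deriv ?_
    rw [h5, h9]
    field_simp
    ring

omit hs in
lemma continuousOn_density : ContinuousOn (fun p : ℝ × ℝ =>
    F p.1 (mer p.2) 2 * ‖deriv (fun u => F p.1 (mer u)) p.2‖) (timeDomain T ×ˢ univ) := by
  have h1 : ContinuousOn (fun p : ℝ × ℝ => F p.1 (mer p.2) 2) (timeDomain T ×ˢ univ) :=
    (EuclideanSpace.proj (𝕜 := ℝ) 2 : Euc 4 →L[ℝ] ℝ).continuous.comp_continuousOn
      (contDiffOn_Γ hF).continuousOn
  exact h1.mul (continuousOn_deriv_u hF).norm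

/-- The area of the upper half, divided by `2π`. -/
noncomputable def area (F : ℝ → S2 → Euc 4) (t : ℝ) : ℝ :=
  ∫ u in (0 : ℝ)..(Real.pi / 2), F t (mer u) 2 * ‖deriv (fun u => F t (mer u)) u‖

omit hs in
lemma continuousOn_area : ContinuousOn (area F) (timeDomain T) :=
  continuousOn_param (f := fun t u => F t (mer u) 2 * ‖deriv (fun u => F t (mer u)) u‖)
    (continuousOn_density hF)

lemma hasDerivAt_area {t : ℝ} (ht : t ∈ timeInt T) : HasDerivAt (area F)
    (∫ u in (0 : ℝ)..(Real.pi / 2), -(F t (mer u) 2 * ‖deriv (fun u => F t (mer u)) u‖ *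
        ‖meanCurvature 2 (F t) (mer u)‖ ^ 2)) t := by
  have h1 := (continuousOn_density hF).mono (prod_mono (timeInt_subset T)
    (subset_univ (Icc 0 (Real.pi / 2))))
  have h2 : ContinuousOn (fun p : ℝ × ℝ => -(F p.1 (mer p.2) 2 *
      ‖deriv (fun u => F p.1 (mer u)) p.2‖ * ‖meanCurvature 2 (F p.1) (mer p.2)‖ ^ 2))
      (timeInt T ×ˢ Icc 0 (Real.pi / 2)) :=
    (h1.mul (((continuousOn_H hF).mono (prod_mono subset_rfl (subset_univ _))).norm.pow 2)).neg
  exact hasDerivAt_param (f := fun t u => F t (mer u) 2 * ‖deriv (fun u => F t (mer u)) u‖)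
    (g := fun t u => -(F t (mer u) 2 * ‖deriv (fun u => F t (mer u)) u‖ *
        ‖meanCurvature 2 (F t) (mer u)‖ ^ 2)) (by positivity) (isOpen_timeInt T) h1 h2
    (fun t ht u _ => hasDerivAt_density hF hs ht u) ht

end

end Pool.Agent.H15.MCF
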