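import Mathlib
import Pool.Agent.H15.MCF.Evol

/-!
# Estimates for the initial immersion
-/

namespace Pool.Agent.H15.MCF

open scoped Manifold ContDiff RealInnerProductSpace Topology
open Set

section

variable {δ : ℝ} (hδ : 0 < δ)
include hδ

lemma abs_Z1_le (w : ℝ) : |Z1 δ w| ≤ 3 * δ := by
  have hρ := rho_pos hδ w
  have ha := amp_pos δ
  have ha1 := amp_le_one δ
  have h1 : 0 ≤ 4 * δ ^ 3 / (δ ^ 2 + w ^ 2) := by positivity
  have h2 : 4 * δ ^ 3 / (δ ^ 2 + w ^ 2) ≤ 4 * δ := by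
    rw [div_le_iff₀ hρ]
    nlinarith [mul_nonneg hδ.le (sq_nonneg w)]
  unfold Z1
  rw [abs_mul, abs_of_pos ha]
  have h3 : |4 * δ ^ 3 / (δ ^ 2 + w ^ 2) - 3 * δ| ≤ 3 * δ := by
    rw [abs_le]; constructor <;> linarith
  calc amp δ * |4 * δ ^ 3 / (δ ^ 2 + w ^ 2) - 3 * δ| ≤ 1 * (3 * δ) :=
        mul_le_mul ha1 h3 (abs_nonneg _) (by norm_num)
    _ = 3 * δ := one_mul _

lemma Z2_le {w : ℝ} (hw : 0 ≤ w) : Z2 δ w ≤ 3 / 2 * δ := by
  have hρ := rho_pos hδ w
  have ha := amp_pos δ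
  have ha1 := amp_le_one δ
  have h2 : 4 * δ ^ 2 * w / (δ ^ 2 + w ^ 2) - w ≤ 3 / 2 * δ := by
    have h3 : 4 * δ ^ 2 * w / (δ ^ 2 + w ^ 2) ≤ 3 / 2 * δ + w := by
      rw [div_le_iff₀ hρ]
      have e : (3 / 2 * δ + w) * (δ ^ 2 + w ^ 2) - 4 * δ ^ 2 * w =
        3 / 2 * δ * (δ - w) ^ 2 + w ^ 3 := by ring
      have e2 : 0 ≤ 3 / 2 * δ * (δ - w) ^ 2 + w ^ 3 := by positivity
      linarith
    linarith
  unfold Z2
  rcases le_or_gt 0 (4 * δ ^ 2 * w / (δ ^ 2 + w ^ 2) - w) with h | h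
  · calc amp δ * (4 * δ ^ 2 * w / (δ ^ 2 + w ^ 2) - w) ≤ 1 * (3 / 2 * δ) :=
        mul_le_mul ha1 h2 h (by norm_num)
      _ = 3 / 2 * δ := one_mul _
  · have := mul_neg_of_pos_of_neg ha h
    have h5 : 0 < 3 / 2 * δ := by positivity
    linarith

lemma hasDerivAt_F0_mer (u : ℝ) : HasDerivAt (fun u => F0 δ (mer u))
    (!₂[dZ1 δ (Real.sin u) * Real.cos u, dZ2 δ (Real.sin u) * Real.cos u,
      -(amp δ * Real.sin u), 0] : Euc 4) u := by
  refine hasDerivAt_euc fun i => ?_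
  fin_cases i
  · have : HasDerivAt (fun s => Z1 δ (Real.sin s)) (dZ1 δ (Real.sin u) * Real.cos u) u :=
      (hasDerivAt_Z1 hδ (Real.sin u)).comp u (Real.hasDerivAt_sin u)
    simpa [F0, Phi_zero, coe_mer] using this
  · have : HasDerivAt (fun s => Z2 δ (Real.sin s)) (dZ2 δ (Real.sin u) * Real.cos u) u :=
      (hasDerivAt_Z2 hδ (Real.sin u)).comp u (Real.hasDerivAt_sin u)
    simpa [F0, Phi_one, coe_mer] using this
  · have := (Real.hasDerivAt_cos u).const_mul (amp δ)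
    simpa [F0, Phi_two, coe_mer] using this
  · simpa [F0, Phi_three, coe_mer] using hasDerivAt_const u (0 : ℝ)

lemma speed_F0 (u : ℝ) : ‖deriv (fun u => F0 δ (mer u)) u‖ ^ 2 =
    amp δ ^ 2 * (1 + 8 * δ ^ 2 * Real.cos u ^ 2 / (δ ^ 2 + Real.sin u ^ 2)) := by
  rw [(hasDerivAt_F0_mer hδ u).deriv, norm_sq4]
  have h := dZ_sq hδ (Real.sin u)
  have h2 := Real.sin_sq_add_cos_sq u
  simp
  linear_combination (Real.cos u ^ 2) * h + (amp δ ^ 2) * h2

lemma area_F0_le : (∫ u in (0 : ℝ)..(Real.pi / 2), F0 δ (mer u) 2 *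
    ‖deriv (fun u => F0 δ (mer u)) u‖) ≤ 1 + 2 * Real.pi * δ := by
  have ha := amp_pos δ
  have ha1 := amp_le_one δ
  have hpi := Real.pi_pos
  have hd : ∀ u, HasDerivAt (fun u => Real.sin u + 4 * δ * Real.arctan (Real.sin u / δ))
      (Real.cos u * (1 + 4 * δ ^ 2 / (δ ^ 2 + Real.sin u ^ 2))) u := by
    intro u
    have hρ := (rho_pos hδ (Real.sin u)).ne'
    have h1 := (((Real.hasDerivAt_sin u).div_const δ).arctan).const_mul (4 * δ)
    refine ((Real.hasDerivAt_sin u).add h1).congr_deriv ?_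
    have h2 : 1 + (Real.sin u / δ) ^ 2 ≠ 0 := by positivity
    field_simp
    try ring
  have hc : Continuous (fun u => Real.cos u * (1 + 4 * δ ^ 2 / (δ ^ 2 + Real.sin u ^ 2))) := by
    have h : ∀ u : ℝ, δ ^ 2 + Real.sin u ^ 2 ≠ 0 := fun u => (rho_pos hδ (Real.sin u)).ne'
    fun_prop (disch := exact h _)
  have hFTC : (∫ u in (0 : ℝ)..(Real.pi / 2),
      Real.cos u * (1 + 4 * δ ^ 2 / (δ ^ 2 + Real.sin u ^ 2))) =
      1 + 4 * δ * Real.arctan (1 / δ) := by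
    rw [intervalIntegral.integral_eq_sub_of_hasDerivAt (fun u _ => hd u)
      (hc.intervalIntegrable _ _)]
    simp
  have harc : Real.arctan (1 / δ) ≤ Real.pi / 2 := (Real.arctan_lt_pi_div_two _).le
  have hmain : (∫ u in (0 : ℝ)..(Real.pi / 2), F0 δ (mer u) 2 *
      ‖deriv (fun u => F0 δ (mer u)) u‖) ≤ ∫ u in (0 : ℝ)..(Real.pi / 2),
      Real.cos u * (1 + 4 * δ ^ 2 / (δ ^ 2 + Real.sin u ^ 2)) := by
    apply intervalIntegral.integral_mono_on (by positivity)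
    · have hcd : Continuous (fun u => ‖deriv (fun u => F0 δ (mer u)) u‖) := by
        have h1 : ContDiff ℝ 1 (fun u => F0 δ (mer u)) :=
          (contDiff_mer (immersion_F0 hδ)).of_le (by simp)
        exact (h1.continuous_deriv le_rfl).norm
      have hc2 : Continuous (fun u => F0 δ (mer u) 2) :=
        (EuclideanSpace.proj (𝕜 := ℝ) 2 : Euc 4 →L[ℝ] ℝ).continuous.comp
          (contDiff_mer (immersion_F0 hδ)).continuous
      exact (hc2.mul hcd).intervalIntegrable _ _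
    · exact hc.intervalIntegrable _ _
    · intro u hu
      have hcos : 0 ≤ Real.cos u := Real.cos_nonneg_of_mem_Icc ⟨by linarith [hu.1], hu.2⟩
      have hρ := rho_pos hδ (Real.sin u)
      have h2 : F0 δ (mer u) 2 = amp δ * Real.cos u := by simp [F0, Phi_two, coe_mer]
      have h3 : ‖deriv (fun u => F0 δ (mer u)) u‖ ≤
          1 + 4 * δ ^ 2 / (δ ^ 2 + Real.sin u ^ 2) := by
        have h4 := speed_F0 hδ u
        have h5 : ‖deriv (fun u => F0 δ (mer u)) u‖ ^ 2 ≤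
            (1 + 4 * δ ^ 2 / (δ ^ 2 + Real.sin u ^ 2)) ^ 2 := by
          rw [h4]
          have h6 : 8 * δ ^ 2 * Real.cos u ^ 2 / (δ ^ 2 + Real.sin u ^ 2) ≤
              8 * δ ^ 2 / (δ ^ 2 + Real.sin u ^ 2) := by
            apply div_le_div_of_nonneg_right _ hρ.le
            have := Real.cos_sq_le_one u
            nlinarith [sq_nonneg δ]
          have h7 : 0 ≤ 8 * δ ^ 2 * Real.cos u ^ 2 / (δ ^ 2 + Real.sin u ^ 2) := by positivity
          have h8 : amp δ ^ 2 ≤ 1 := by nlinarith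
          have h9 : 0 ≤ 4 * δ ^ 2 / (δ ^ 2 + Real.sin u ^ 2) := by positivity
          have h10 : 8 * δ ^ 2 / (δ ^ 2 + Real.sin u ^ 2) =
              2 * (4 * δ ^ 2 / (δ ^ 2 + Real.sin u ^ 2)) := by ring
          calc amp δ ^ 2 * (1 + 8 * δ ^ 2 * Real.cos u ^ 2 / (δ ^ 2 + Real.sin u ^ 2)) ≤
              1 * (1 + 8 * δ ^ 2 * Real.cos u ^ 2 / (δ ^ 2 + Real.sin u ^ 2)) :=
                mul_le_mul_of_nonneg_right h8 (by linarith)
            _ ≤ _ := by nlinarith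
        exact le_of_sq_le_sq h5 (by positivity)
      rw [h2]
      calc amp δ * Real.cos u * ‖deriv (fun u => F0 δ (mer u)) u‖ ≤
          1 * Real.cos u * (1 + 4 * δ ^ 2 / (δ ^ 2 + Real.sin u ^ 2)) :=
            mul_le_mul (mul_le_mul_of_nonneg_right ha1 hcos) h3 (norm_nonneg _)
              (by positivity)
        _ = _ := by ring
  rw [hFTC] at hmain
  nlinarith

end

end Pool.Agent.H15.MCF
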