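import Mathlib
import Pool.Agent.H15.MCF.Data

/-!
# A symmetric solution starting from `F0 δ` becomes singular before time one
-/

namespace Pool.Agent.H15.MCF

open scoped Manifold ContDiff RealInnerProductSpace Topology
open Set

lemma pos_of_ne_zero {f : ℝ → ℝ} {t : ℝ} (ht : 0 ≤ t) (hc : ContinuousOn f (Icc 0 t))
    (hne : ∀ s ∈ Icc 0 t, f s ≠ 0) (h0 : 0 < f 0) : 0 < f t := by
  by_contra hcon
  push Not at hcon
  have h := intermediate_value_Icc' ht hc
  obtain ⟨s, hs, hs0⟩ := h ⟨hcon, h0.le⟩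
  exact hne s hs hs0

lemma deriv_even {f : ℝ → ℝ} {d : ℝ} (hf : HasDerivAt f d 0) (he : ∀ u, f (-u) = f u) :
    d = 0 := by
  have h1 : HasDerivAt (fun u => f (-u)) (-d) 0 := by
    have h2 : HasDerivAt f d (-0) := by simpa using hf
    have h3 := h2.comp (0 : ℝ) (hasDerivAt_neg (0 : ℝ))
    simpa [Function.comp_def] using h3
  have h2 : (fun u => f (-u)) = f := funext he
  rw [h2] at h1
  have := h1.unique hf
  linarith

section

variable {δ : ℝ} (hδ : 0 < δ) {T : EReal} {F : ℝ → S2 → Euc 4} (hF : IsMCF 2 (F0 δ) T F)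
include hδ hF

lemma x1_bound {t : ℝ} (ht : t ∈ timeDomain T) (y : S2) :
    |F t y 0| ≤ 3 * δ * Real.exp (2 * t) := by
  have e1 : ∀ w : Euc 4, ⟪w, bb 0⟫ = w 0 := fun w => by rw [inner4]; simp
  have e2 : ∀ w : Euc 4, ⟪w, -bb 0⟫ = -w 0 := fun w => by rw [inner_neg_right, e1]
  have h0 : ∀ x : S2, |F0 δ x 0| ≤ 3 * δ := fun x => by
    have : F0 δ x 0 = Z1 δ ((x : Euc 3) 2) := Phi_zero _ _
    rw [this]; exact abs_Z1_le hδ _
  have h1 := max_principle hF (bb 0) (C := 3 * δ) (by positivity) (K := univ) isCompact_univ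
    (fun x _ => by rw [e1]; exact (abs_le.1 (h0 x)).2) (fun _ _ _ _ => Or.inl (by simp)) ht
    (mem_univ y)
  have h2 := max_principle hF (-bb 0) (C := 3 * δ) (by positivity) (K := univ) isCompact_univ
    (fun x _ => by rw [e2]; linarith [(abs_le.1 (h0 x)).1]) (fun _ _ _ _ => Or.inl (by simp)) ht
    (mem_univ y)
  rw [e1] at h1
  rw [e2] at h2
  rw [abs_le]
  push_cast at h1 h2
  constructor <;> linarith

variable (hs : ∀ t ∈ timeDomain T, IsSymm (F t))
include hs

lemma x2_bound {t : ℝ} (ht : t ∈ timeDomain T) {y : S2} (hy : 0 ≤ (y : Euc 3) 2) :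
    F t y 1 ≤ 3 / 2 * δ * Real.exp (2 * t) := by
  have e1 : ∀ w : Euc 4, ⟪w, bb 1⟫ = w 1 := fun w => by rw [inner4]; simp
  have hcont : Continuous (fun y : S2 => (y : Euc 3) 2) := by fun_prop
  have hK : IsCompact {y : S2 | 0 ≤ (y : Euc 3) 2} :=
    (isClosed_le continuous_const hcont).isCompact
  have h1 := max_principle hF (bb 1) (C := 3 / 2 * δ) (by positivity) hK
    (fun x hx => by
      rw [e1]
      have : F0 δ x 1 = Z2 δ ((x : Euc 3) 2) := Phi_one _ _
      rw [this]; exact Z2_le hδ hx) (fun s hs' x hx => ?_) ht hy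
  · rw [e1] at h1
    push_cast at h1
    exact h1
  · rcases lt_or_eq_of_le (show (0 : ℝ) ≤ (x : Euc 3) 2 from hx) with h | h
    · left
      rw [mem_interior]
      exact ⟨{y : S2 | 0 < (y : Euc 3) 2}, fun y hy => by
        have h' : (0 : ℝ) < (y : Euc 3) 2 := hy
        exact h'.le, isOpen_lt continuous_const hcont, h⟩
    · right
      have h2 := (hs s hs').refW x
      have h3 : sphMap (refl3 _ signs3') x = x := by
        apply Subtype.ext
        rw [coe_sphMap, refl3_apply]
        ext i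
        fin_cases i <;> simp [← h]
      rw [h3, refl4_apply] at h2
      have h4 := congrArg (fun v : Euc 4 => v 1) h2
      simp at h4
      rw [e1]
      have h5 : F s x 1 = 0 := by linarith
      rw [h5]; positivity

omit hδ in
lemma z_pos {t : ℝ} (ht : t ∈ timeDomain T) {u : ℝ} (hu : 0 < Real.cos u) :
    0 < F t (mer u) 2 := by
  refine pos_of_ne_zero (f := fun t => F t (mer u) 2) ht.1 ?_ ?_ ?_
  · have h1 := (contDiffOn_Γ hF).continuousOn
    have h2 : ContinuousOn (fun s : ℝ => F s (mer u)) (timeDomain T) :=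
      h1.comp (f := fun s : ℝ => (s, u)) (by fun_prop) (fun s hs => ⟨hs, mem_univ _⟩)
    exact ((EuclideanSpace.proj (𝕜 := ℝ) 2 : Euc 4 →L[ℝ] ℝ).continuous.comp_continuousOn
      h2).mono (timeDomain_Icc ht)
  · intro s hs'
    have hs'' := timeDomain_Icc ht hs'
    exact mer_two_ne_zero (hs s hs'') (hF.immersion s hs'') hu.ne'
  · rw [hF.initial]
    have h2 : F0 δ (mer u) 2 = amp δ * Real.cos u := by simp [F0, Phi_two, coe_mer]
    rw [h2]
    exact mul_pos (amp_pos δ) hu

/-- At the equator the meridian is parallel to the second coordinate axis. -/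
lemma equator {t : ℝ} (ht : t ∈ timeDomain T) :
    deriv (fun u => F t (mer u)) 0 1 = ‖deriv (fun u => F t (mer u)) 0‖ ∧ F t (mer 0) 1 = 0 := by
  have hform : ∀ s ∈ timeDomain T, deriv (fun u => F s (mer u)) 0 =
      deriv (fun u => F s (mer u)) 0 1 • bb 1 := by
    intro s hs'
    have hI := hF.immersion s hs'
    have hS := hs s hs'
    have e0 := deriv_even (hasDerivAt_mer_coord hI 0 0) (fun u => mer_neg_zero hS u)
    have e2 := deriv_even (hasDerivAt_mer_coord hI 0 2) (fun u => mer_neg_two hS u)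
    have e3 := deriv_mer_three hS hI 0
    ext i
    fin_cases i
    · simpa using e0
    · simp
    · simpa using e2
    · simpa using e3
  have hpos : 0 < deriv (fun u => F t (mer u)) 0 1 := by
    refine pos_of_ne_zero (f := fun t => deriv (fun u => F t (mer u)) 0 1) ht.1 ?_ ?_ ?_
    · have h1 := continuousOn_deriv_u hF
      have h2 : ContinuousOn (fun s : ℝ => deriv (fun u => F s (mer u)) 0) (timeDomain T) :=
        h1.comp (f := fun s : ℝ => (s, (0 : ℝ))) (by fun_prop) (fun s hs => ⟨hs, mem_univ _⟩)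
      exact ((EuclideanSpace.proj (𝕜 := ℝ) 1 : Euc 4 →L[ℝ] ℝ).continuous.comp_continuousOn
        h2).mono (timeDomain_Icc ht)
    · intro s hs' h0
      have hs'' := timeDomain_Icc ht hs'
      have h1 := hform s hs''
      rw [h0, zero_smul] at h1
      exact deriv_mer_ne_zero (hF.immersion s hs'') 0 h1
    · simp only [hF.initial]
      rw [(hasDerivAt_F0_mer hδ 0).deriv]
      have ha := amp_pos δ
      simp [dZ2]
      have : 4 * δ ^ 2 * δ ^ 2 / (δ ^ 2) ^ 2 = 4 := by field_simp
      rw [this]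
      nlinarith
  constructor
  · conv_rhs => rw [hform t ht]
    rw [norm_smul, Real.norm_eq_abs, abs_of_pos hpos]
    simp
  · have := mer_neg_one (hs t ht) 0
    simp at this
    linarith

omit hδ in
lemma area_pos {t : ℝ} (ht : t ∈ timeDomain T) : 0 < area F t := by
  have hpi := Real.pi_pos
  unfold area
  have hc := continuousOn_density hF
  apply intervalIntegral.intervalIntegral_pos_of_pos_on _ _ (by positivity)
  · have h2 : Continuous (fun u : ℝ => F t (mer u) 2 * ‖deriv (fun u => F t (mer u)) u‖) := by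
      rw [← continuousOn_univ]
      exact hc.comp (f := fun u : ℝ => (t, u)) (by fun_prop) (fun u _ => ⟨ht, mem_univ _⟩)
    exact h2.intervalIntegrable _ _
  · intro u hu
    have hcos : 0 < Real.cos u := Real.cos_pos_of_mem_Ioo ⟨by linarith [hu.1], hu.2⟩
    have h1 := z_pos hF hs ht hcos
    have h2 : 0 < ‖deriv (fun u => F t (mer u)) u‖ :=
      norm_pos_iff.2 (deriv_mer_ne_zero (hF.immersion t ht) u)
    positivity

/-- The decay of the area. -/
lemma area_decay {t : ℝ} (ht : t ∈ timeInt T) (ht1 : t ≤ 1) (hδ1 : δ ≤ 1 / 1000)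
    (ha : area F t ≤ 101 / 100) :
    9 / 10 ≤ area F t * ∫ u in (0 : ℝ)..(Real.pi / 2), (F t (mer u) 2 *
      ‖deriv (fun u => F t (mer u)) u‖ * ‖meanCurvature 2 (F t) (mer u)‖ ^ 2) := by
  have hpi := Real.pi_pos
  have htd := timeInt_subset T ht
  have hI := hF.immersion t htd
  have hS := hs t htd
  have hapos := area_pos hF hs htd
  -- the weight and the two functions
  set p : ℝ → ℝ := fun u => F t (mer u) 2 * ‖deriv (fun u => F t (mer u)) u‖ with hp
  set H1 : ℝ → ℝ := fun u => meanCurvature 2 (F t) (mer u) 1 with hH1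
  have hpc : Continuous p := by
    rw [← continuousOn_univ]
    exact (continuousOn_density hF).comp (f := fun u : ℝ => (t, u)) (by fun_prop)
      (fun u _ => ⟨htd, mem_univ _⟩)
  have hHc : Continuous (fun u => meanCurvature 2 (F t) (mer u)) := by
    rw [← continuousOn_univ]
    exact (continuousOn_H hF).comp (f := fun u : ℝ => (t, u)) (by fun_prop)
      (fun u _ => ⟨ht, mem_univ _⟩)
  have hH1c : Continuous H1 :=
    (EuclideanSpace.proj (𝕜 := ℝ) 1 : Euc 4 →L[ℝ] ℝ).continuous.comp hHc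
  have hx2c : Continuous (fun u => F t (mer u) 1) :=
    (EuclideanSpace.proj (𝕜 := ℝ) 1 : Euc 4 →L[ℝ] ℝ).continuous.comp (contDiff_mer hI).continuous
  have hp0 : ∀ u ∈ Icc 0 (Real.pi / 2), 0 ≤ p u := by
    intro u hu
    rcases lt_or_eq_of_le (Real.cos_nonneg_of_mem_Icc
      (show u ∈ Icc (-(Real.pi / 2)) (Real.pi / 2) from ⟨by linarith [hu.1], hu.2⟩)) with h | h
    · have h1 := z_pos hF hs htd h
      positivity
    · simp only [hp]
      rw [pole_two hS h.symm, zero_mul]
  -- the flux identity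
  have hflux : (∫ u in (0 : ℝ)..(Real.pi / 2), (p u * H1 u - 2 * (p u * F t (mer u) 1))) =
      - F t (mer 0) 2 := by
    have hcont : ContinuousOn (fun u => F t (mer u) 2 * deriv (fun u => F t (mer u)) u 1 /
        ‖deriv (fun u => F t (mer u)) u‖) (Icc 0 (Real.pi / 2)) := by
      have c1 : Continuous (fun u => F t (mer u) 2) :=
        (EuclideanSpace.proj (𝕜 := ℝ) 2 : Euc 4 →L[ℝ] ℝ).continuous.comp
          (contDiff_mer hI).continuous
      have c0 : Continuous (deriv (fun u => F t (mer u))) :=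
        ((contDiff_mer hI).of_le (m := 1) (by simp)).continuous_deriv le_rfl
      have c2 : Continuous (fun u => deriv (fun u => F t (mer u)) u 1) :=
        (EuclideanSpace.proj (𝕜 := ℝ) 1 : Euc 4 →L[ℝ] ℝ).continuous.comp c0
      have c3 : Continuous (fun u => F t (mer u) 2 * deriv (fun u => F t (mer u)) u 1 /
        ‖deriv (fun u => F t (mer u)) u‖) :=
        (c1.mul c2).div c0.norm (fun u => norm_ne_zero_iff.2 (deriv_mer_ne_zero hI u))
      exact c3.continuousOn
    have h := intervalIntegral.integral_eq_sub_of_hasDerivAt_of_le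
      (f := fun u => F t (mer u) 2 * deriv (fun u => F t (mer u)) u 1 /
        ‖deriv (fun u => F t (mer u)) u‖)
      (f' := fun u => p u * H1 u - 2 * (p u * F t (mer u) 1))
      (a := 0) (b := Real.pi / 2) (by positivity) hcont
      (fun u hu => hasDerivAt_flux hI hS
        (Real.cos_pos_of_mem_Ioo ⟨by linarith [hu.1], hu.2⟩).ne')
      (((hpc.mul hH1c).sub (continuous_const.mul (hpc.mul hx2c))).intervalIntegrable _ _)
    rw [h]
    have h1 : F t (mer (Real.pi / 2)) 2 = 0 := pole_two hS (by simp)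
    obtain ⟨h2, -⟩ := equator hδ hF hs htd
    have h3 : ‖deriv (fun u => F t (mer u)) 0‖ ≠ 0 :=
      norm_ne_zero_iff.2 (deriv_mer_ne_zero hI 0)
    simp only []
    rw [h1, h2]
    field_simp
    ring
  have hsplit : (∫ u in (0 : ℝ)..(Real.pi / 2), (p u * H1 u - 2 * (p u * F t (mer u) 1))) =
      (∫ u in (0 : ℝ)..(Real.pi / 2), p u * H1 u) -
        2 * ∫ u in (0 : ℝ)..(Real.pi / 2), p u * F t (mer u) 1 := by
    have i1 : IntervalIntegrable (fun u => p u * H1 u) MeasureTheory.volume 0 (Real.pi / 2) :=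
      (hpc.mul hH1c).intervalIntegrable _ _
    have i2 : IntervalIntegrable (fun u => 2 * (p u * F t (mer u) 1)) MeasureTheory.volume 0
        (Real.pi / 2) := (continuous_const.mul (hpc.mul hx2c)).intervalIntegrable _ _
    rw [intervalIntegral.integral_sub i1 i2, intervalIntegral.integral_const_mul]
  have hexp : Real.exp (2 * t) ≤ 7.5 := by
    have h1 : Real.exp (2 * t) ≤ Real.exp 2 := Real.exp_le_exp.2 (by linarith)
    have h2 : Real.exp 2 = Real.exp 1 * Real.exp 1 := by rw [← Real.exp_add]; norm_num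
    have h3 := Real.exp_one_lt_d9
    have h4 := Real.exp_pos 1
    nlinarith
  have hexp0 := Real.exp_pos (2 * t)
  have hδe : δ * Real.exp (2 * t) ≤ 0.0075 := by nlinarith
  -- the second coordinate is small on the upper half
  have hx2 : (∫ u in (0 : ℝ)..(Real.pi / 2), p u * F t (mer u) 1) ≤
      3 / 2 * (δ * Real.exp (2 * t)) * area F t := by
    have h1 : (∫ u in (0 : ℝ)..(Real.pi / 2), p u * F t (mer u) 1) ≤
        ∫ u in (0 : ℝ)..(Real.pi / 2), p u * (3 / 2 * δ * Real.exp (2 * t)) := by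
      apply intervalIntegral.integral_mono_on (by positivity)
        ((hpc.mul hx2c).intervalIntegrable _ _)
        ((hpc.mul continuous_const).intervalIntegrable _ _)
      intro u hu
      apply mul_le_mul_of_nonneg_left _ (hp0 u hu)
      apply x2_bound hδ hF hs htd
      simp only [coe_mer]
      have := Real.sin_nonneg_of_nonneg_of_le_pi hu.1 (by linarith [hu.2])
      simpa using this
    rw [intervalIntegral.integral_mul_const] at h1
    have h2 : area F t = ∫ u in (0 : ℝ)..(Real.pi / 2), p u := rfl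
    rw [h2]
    linarith
  -- the third coordinate at the equator is close to one
  have hz0 : 0.98 ≤ F t (mer 0) 2 := by
    have h1 := hI.norm_eq_one (mer 0)
    have h2 : ‖F t (mer 0)‖ ^ 2 = 1 := by rw [h1]; norm_num
    rw [norm_sq4, mer_three hS, (equator hδ hF hs htd).2] at h2
    have h3 := abs_le.1 (x1_bound hδ hF htd (mer 0))
    have h4 := z_pos hF hs htd (u := 0) (by simp)
    nlinarith
  set B := ∫ u in (0 : ℝ)..(Real.pi / 2), p u * H1 u with hB
  have hBneg : B ≤ -0.95 := by
    have h1 : B = - F t (mer 0) 2 + 2 * ∫ u in (0 : ℝ)..(Real.pi / 2), p u * F t (mer u) 1 := by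
      linarith [hflux.symm.trans hsplit]
    have h2 : 0 ≤ δ * Real.exp (2 * t) := by positivity
    nlinarith
  have hCS := cauchy_schwarz_weight (p := p) (h := H1) (a := 0) (b := Real.pi / 2)
    (by positivity) hpc.continuousOn hH1c.continuousOn hp0 hapos
  rw [← hB] at hCS
  have hle : (∫ u in (0 : ℝ)..(Real.pi / 2), p u * H1 u ^ 2) ≤
      ∫ u in (0 : ℝ)..(Real.pi / 2), (p u * ‖meanCurvature 2 (F t) (mer u)‖ ^ 2) := by
    apply intervalIntegral.integral_mono_on (by positivity)
      ((hpc.mul (hH1c.pow 2)).intervalIntegrable _ _)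
      ((hpc.mul (hHc.norm.pow 2)).intervalIntegrable _ _)
    intro u hu
    apply mul_le_mul_of_nonneg_left _ (hp0 u hu)
    show meanCurvature 2 (F t) (mer u) 1 ^ 2 ≤ ‖meanCurvature 2 (F t) (mer u)‖ ^ 2
    rw [norm_sq4]
    have a0 := sq_nonneg (meanCurvature 2 (F t) (mer u) 0)
    have a2 := sq_nonneg (meanCurvature 2 (F t) (mer u) 2)
    have a3 := sq_nonneg (meanCurvature 2 (F t) (mer u) 3)
    linarith
  have h2 : area F t = ∫ u in (0 : ℝ)..(Real.pi / 2), p u := rfl
  calc (9 : ℝ) / 10 ≤ B ^ 2 := by nlinarith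
    _ ≤ (∫ u in (0 : ℝ)..(Real.pi / 2), p u) * ∫ u in (0 : ℝ)..(Real.pi / 2), p u * H1 u ^ 2 :=
        hCS
    _ ≤ area F t * ∫ u in (0 : ℝ)..(Real.pi / 2),
        (p u * ‖meanCurvature 2 (F t) (mer u)‖ ^ 2) := by
        rw [← h2]
        exact mul_le_mul_of_nonneg_left hle hapos.le

lemma T_le_one (hδ1 : δ ≤ 1 / 1000) : T ≤ 1 := by
  by_contra hT
  push Not at hT
  have h1mem : (1 : ℝ) ∈ timeDomain T := ⟨by norm_num, by simpa using hT⟩
  have hsub := timeDomain_Icc h1mem
  have hint : ∀ t ∈ Ioo (0 : ℝ) 1, t ∈ timeInt T := fun t ht =>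
    ⟨ht.1, (hsub ⟨ht.1.le, ht.2.le⟩).2⟩
  have hpi := Real.pi_pos
  have hcont : ContinuousOn (area F) (Icc 0 1) := (continuousOn_area hF).mono hsub
  -- sign of the integral
  have hI0 : ∀ t ∈ Ioo (0 : ℝ) 1, 0 ≤ ∫ u in (0 : ℝ)..(Real.pi / 2), (F t (mer u) 2 *
      ‖deriv (fun u => F t (mer u)) u‖ * ‖meanCurvature 2 (F t) (mer u)‖ ^ 2) := by
    intro t ht
    apply intervalIntegral.integral_nonneg (by positivity)
    intro u hu
    have htd := timeInt_subset T (hint t ht)
    rcases lt_or_eq_of_le (Real.cos_nonneg_of_mem_Icc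
      (show u ∈ Icc (-(Real.pi / 2)) (Real.pi / 2) from ⟨by linarith [hu.1], hu.2⟩)) with h | h
    · have h1 := z_pos hF hs htd h
      positivity
    · rw [pole_two (hs t htd) h.symm]
      simp
  have hderiv : ∀ t ∈ Ioo (0 : ℝ) 1, HasDerivAt (area F)
      (-∫ u in (0 : ℝ)..(Real.pi / 2), (F t (mer u) 2 *
        ‖deriv (fun u => F t (mer u)) u‖ * ‖meanCurvature 2 (F t) (mer u)‖ ^ 2)) t := by
    intro t ht
    have h := hasDerivAt_area hF hs (hint t ht)
    rwa [intervalIntegral.integral_neg] at h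
  have hanti : AntitoneOn (area F) (Icc 0 1) := by
    apply antitoneOn_of_deriv_nonpos (convex_Icc 0 1) hcont
    · rw [interior_Icc]
      exact fun t ht => (hderiv t ht).differentiableAt.differentiableWithinAt
    · rw [interior_Icc]
      intro t ht
      rw [(hderiv t ht).deriv]
      linarith [hI0 t ht]
  have ha0 : area F 0 ≤ 101 / 100 := by
    have h := area_F0_le hδ
    have h2 : area F 0 = ∫ u in (0 : ℝ)..(Real.pi / 2), F0 δ (mer u) 2 *
        ‖deriv (fun u => F0 δ (mer u)) u‖ := by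
      unfold area
      rw [hF.initial]
    rw [h2]
    have h3 := Real.pi_lt_d2
    nlinarith
  have hle : ∀ t ∈ Icc (0 : ℝ) 1, area F t ≤ 101 / 100 := fun t ht =>
    (hanti ⟨le_rfl, by norm_num⟩ ht ht.1).trans ha0
  have hanti2 : AntitoneOn (fun t => area F t ^ 2 + 1.8 * t) (Icc 0 1) := by
    have hd : ∀ t ∈ Ioo (0 : ℝ) 1, HasDerivAt (fun t => area F t ^ 2 + 1.8 * t)
        (2 * area F t * (-∫ u in (0 : ℝ)..(Real.pi / 2), (F t (mer u) 2 *
        ‖deriv (fun u => F t (mer u)) u‖ * ‖meanCurvature 2 (F t) (mer u)‖ ^ 2)) + 1.8) t := by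
      intro t ht
      have h := ((hderiv t ht).pow 2).add ((hasDerivAt_id t).const_mul (1.8 : ℝ))
      have h' : HasDerivAt (fun t => area F t ^ 2 + 1.8 * t) _ t := h
      refine h'.congr_deriv ?_
      simp
    apply antitoneOn_of_deriv_nonpos (convex_Icc 0 1)
    · exact (hcont.pow 2).add (by fun_prop)
    · rw [interior_Icc]
      exact fun t ht => (hd t ht).differentiableAt.differentiableWithinAt
    · rw [interior_Icc]
      intro t ht
      rw [(hd t ht).deriv]
      have h := area_decay hδ hF hs (hint t ht) ht.2.le hδ1 (hle t ⟨ht.1.le, ht.2.le⟩)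
      linarith
  have h := hanti2 (show (0 : ℝ) ∈ Icc 0 1 from ⟨le_rfl, by norm_num⟩)
    (show (1 : ℝ) ∈ Icc 0 1 from ⟨by norm_num, le_rfl⟩) (by norm_num)
  have h2 := (area_pos hF hs (zero_mem_timeDomain hF.pos)).le
  have h3 := sq_nonneg (area F 1)
  simp only at h
  nlinarith

/-- The images of the poles stay far apart. -/
lemma poles_apart (hδ1 : δ ≤ 1 / 1000) {t : ℝ} (ht : t ∈ timeDomain T) :
    1 ≤ dist (F t (mer (Real.pi / 2))) (F t (mer (-(Real.pi / 2)))) := by
  have hT := T_le_one hδ hF hs hδ1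
  have ht1 : t < 1 := by
    have := ht.2.trans_le hT
    exact_mod_cast this
  have hexp : Real.exp (2 * t) ≤ 7.5 := by
    have h1 : Real.exp (2 * t) ≤ Real.exp 2 := Real.exp_le_exp.2 (by linarith)
    have h2 : Real.exp 2 = Real.exp 1 * Real.exp 1 := by rw [← Real.exp_add]; norm_num
    have h3 := Real.exp_one_lt_d9
    have h4 := Real.exp_pos 1
    nlinarith
  have hexp0 := Real.exp_pos (2 * t)
  have hδe : δ * Real.exp (2 * t) ≤ 0.0075 := by nlinarith
  have hI := hF.immersion t ht
  have hS := hs t ht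
  have h1 := hI.norm_eq_one (mer (Real.pi / 2))
  have h2 : ‖F t (mer (Real.pi / 2))‖ ^ 2 = 1 := by rw [h1]; norm_num
  rw [norm_sq4, mer_three hS, pole_two hS (by simp)] at h2
  have h3 := abs_le.1 (x1_bound hδ hF ht (mer (Real.pi / 2)))
  have h4 := mer_neg_one hS (Real.pi / 2)
  have h5 : dist (F t (mer (Real.pi / 2))) (F t (mer (-(Real.pi / 2)))) ^ 2 ≥
      (2 * F t (mer (Real.pi / 2)) 1) ^ 2 := by
    rw [dist_eq_norm, norm_sq4]
    simp only [PiLp.sub_apply]
    rw [h4]
    have a0 := sq_nonneg (F t (mer (Real.pi / 2)) 0 - F t (mer (-(Real.pi / 2))) 0)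
    have a2 := sq_nonneg (F t (mer (Real.pi / 2)) 2 - F t (mer (-(Real.pi / 2))) 2)
    have a3 := sq_nonneg (F t (mer (Real.pi / 2)) 3 - F t (mer (-(Real.pi / 2))) 3)
    nlinarith
  have h6 : 0 ≤ dist (F t (mer (Real.pi / 2))) (F t (mer (-(Real.pi / 2)))) := dist_nonneg
  nlinarith

end

end Pool.Agent.H15.MCF
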