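import Mathlib
import Pool.Agent.H15.MCF.Coincide
import Pool.Agent.H15.MCF.Curv

/-!
# Two close solutions with the same initial value are equal
-/

namespace Pool.Agent.H15.MCF

open scoped Manifold ContDiff RealInnerProductSpace Topology
open Set Filter

lemma exists_unit_normal {F : S2 → Euc 4} {z : Euc 3} :
    ∃ η : Euc 4, ‖η‖ = 1 ∧ ∀ w, ⟪η, fderiv ℝ (cone F) z w⟫ = 0 := by
  let L : Euc 3 →ₗ[ℝ] Euc 4 := (fderiv ℝ (cone F) z : Euc 3 →ₗ[ℝ] Euc 4)
  have hr : Module.finrank ℝ (LinearMap.range L) ≤ 3 := by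
    have := LinearMap.finrank_range_le L
    simpa using this
  have hne : (LinearMap.range L)ᗮ ≠ ⊥ := by
    intro h
    rw [Submodule.orthogonal_eq_bot_iff] at h
    rw [h, finrank_top] at hr
    simp at hr
  obtain ⟨ν, hν, hν0⟩ := Submodule.exists_mem_ne_zero_of_ne_bot hne
  refine ⟨‖ν‖⁻¹ • ν, ?_, fun w => ?_⟩
  · rw [norm_smul, norm_inv, norm_norm]
    exact inv_mul_cancel₀ (norm_ne_zero_iff.2 hν0)
  · rw [inner_smul_left]
    have h1 : ⟪ν, fderiv ℝ (cone F) z w⟫ = 0 := by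
      rw [real_inner_comm]
      exact (Submodule.mem_orthogonal _ _).1 hν _ ⟨w, rfl⟩
    rw [h1, mul_zero]

lemma same_meanCurvature {F G : S2 → Euc 4} (hF : IsSphereImmersion 2 F)
    (hG : IsSphereImmersion 2 G) {p : S2} {r c K : ℝ} (hb : BallEst (cone F) p r c K)
    (hc : 0 < c) (hK : 0 < K) {z : Euc 3} (hz : z ∈ Metric.closedBall (p : Euc 3) r)
    (hz0 : z ≠ 0) (hP : G p = cone F z)
    (h3 : ∀ U ∈ 𝓝 z, ∀ᶠ p' in 𝓝 p, ∃ y ∈ U, G p' = cone F y) :
    ‖z‖ = 1 ∧ meanCurvature 2 G p = meanCurvature 2 F (nrm z) := by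
  obtain ⟨η, hη, h1⟩ := exists_unit_normal (F := F) (z := z)
  have hη0 : η ≠ 0 := by
    intro h; rw [h, norm_zero] at hη; norm_num at hη
  have hPη : G p - cone F z = (0 : ℝ) • η := by rw [hP, sub_self, zero_smul]
  have hn : ‖z‖ = 1 := by
    have h6 := norm_sq_add_sq hF hz0 h1 hη hG hPη
    have := norm_nonneg z
    nlinarith
  refine ⟨hn, ?_⟩
  have hη' : ‖-η‖ = 1 := by rw [norm_neg, hη]
  have h1' : ∀ w, ⟪-η, fderiv ℝ (cone F) z w⟫ = 0 := fun w => by
    rw [inner_neg_left, h1, neg_zero]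
  have hPη' : G p - cone F z = (0 : ℝ) • (-η) := by rw [hP, sub_self, zero_smul]
  have e1 := space_eq hF hG hb hc hz hη hPη h1 rfl hz0 hK h3
  have e2 := space_eq hF hG hb hc hz hη' hPη' h1' rfl hz0 hK h3
  rw [inner_neg_left, inner_neg_left] at e2
  have e3 : ⟪η, meanCurvature 2 G p⟫ = ⟪η, meanCurvature 2 F (nrm z)⟫ := by linarith
  have e4 : η ∈ normalSpace 2 F (nrm z) := by
    rw [mem_normalSpace]
    refine ⟨?_, fun v => ?_⟩
    · rw [real_inner_comm]; exact inner_eta_F hF hz0 h1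
    · rw [real_inner_comm]; exact inner_eta_diff1 hF hz0 h1 v
  have hpos : 0 < c ^ 2 / 2 / K := by positivity
  have ht := touch_surface hG hb hc hz hη hPη h1 (e := c ^ 2 / 2 / K) (by rw [zero_add]; exact hpos)
    (by rw [zero_add, div_mul_cancel₀ _ hK.ne']) (by
      intro U hU
      filter_upwards [h3 U hU] with p' hp'
      obtain ⟨y, hy, h8⟩ := hp'
      refine ⟨y, hy, ?_⟩
      rw [h8, zero_add, add_sub_cancel_left, norm_smul, hη, mul_one, Real.norm_eq_abs,
        abs_of_pos hpos])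
  have e5 : η ∈ normalSpace 2 G p := by
    rw [mem_normalSpace]
    refine ⟨?_, fun v => ?_⟩
    · rw [real_inner_comm, hP]
      unfold cone
      rw [inner_smul_right, inner_eta_F hF hz0 h1, mul_zero]
    · rw [real_inner_comm]; exact (ht v).1
  have e6 := nproj_hypersurface hG e5 hη0 (meanCurvature 2 G p)
  have e7 := nproj_hypersurface hF e4 hη0 (meanCurvature 2 F (nrm z))
  rw [Submodule.starProjection_eq_self_iff.2 (meanCurvature_mem G p)] at e6
  rw [Submodule.starProjection_eq_self_iff.2 (meanCurvature_mem F (nrm z))] at e7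
  rw [e6, e7, e3]

section

variable {F₀ G₀ : S2 → Euc 4} {T T' : EReal} {F G : ℝ → S2 → Euc 4} {a b r c K ρ : ℝ}
  (h : Close F G a b r c K ρ) (hF : IsMCF 2 F₀ T F) (hG : IsMCF 2 G₀ T' G)
  (hI : Icc a b ⊆ timeDomain T) (hI' : Icc a b ⊆ timeDomain T')
include h hF hG hI hI'

lemma Close.same_curv (hab : a ≤ b) (ha : F a = G a) {t : ℝ} (ht : t ∈ Icc a b) {p : S2}
    {z : Euc 3} (hz : IsArgmin F G r t p z) :
    ‖z‖ = 1 ∧ meanCurvature 2 (G t) p = meanCurvature 2 (F t) (nrm z) := by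
  have hIF := hF.immersion t (hI ht)
  have hIG := hG.immersion t (hI' ht)
  refine same_meanCurvature hIF hIG (h.ball t ht p) h.hc h.hK hz.mem (ne_zero_of_mem h.hr' hz.mem)
    (h.coincide hF hG hI hI' hab ha ht hz) ?_
  intro U hU
  filter_upwards [h.argmin_near_space ht hIG.smooth.continuous hz hU] with p' hp'
  obtain ⟨z', hz'⟩ := h.exists_argmin ht p'
  exact ⟨z', hp' z' hz', h.coincide hF hG hI hI' hab ha ht hz'⟩

lemma Close.hasDerivAt_argmin (ha : F a = G a) {t : ℝ} (ht : t ∈ Ioo a b)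
    {p : S2} {Z : ℝ → Euc 3} (hZ : ∀ s ∈ Icc a b, IsArgmin F G r s p (Z s)) :
    HasDerivAt Z 0 t := by
  have hab : a ≤ b := (ht.1.trans ht.2).le
  have htI : t ∈ Icc a b := Ioo_subset_Icc_self ht
  have haI : a ∈ Icc a b := ⟨le_rfl, hab⟩
  have htT : t ∈ timeInt T := ⟨lt_of_le_of_lt (hI haI).1 ht.1, (hI htI).2⟩
  have htT' : t ∈ timeInt T' := ⟨lt_of_le_of_lt (hI' haI).1 ht.1, (hI' htI).2⟩
  have hz := hZ t htI
  have hz0 := ne_zero_of_mem h.hr' hz.mem
  have hnear : ∀ᶠ s in 𝓝 t, s ∈ Icc a b := Icc_mem_nhds ht.1 ht.2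
  -- continuity of the minimiser
  have hcF : ∀ y, y ≠ 0 → ContDiffAt ℝ ∞ (fun q : ℝ × Euc 3 => cone (F q.1) q.2) (t, y) :=
    fun y hy => contDiffAt_Theta hF htT hy
  have hZc : ContinuousAt Z t := by
    intro U hU
    show ∀ᶠ s in 𝓝 t, Z s ∈ U
    filter_upwards [h.argmin_near_time htI (contDiffAt_time hG htT' p).continuousAt
      (fun y hy => (hcF y hy).continuousAt) hz hU, hnear] with s hs hsI
    exact hs _ (hZ s hsI)
  obtain ⟨hn, hH⟩ := h.same_curv hF hG hI hI' hab ha htI hz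
  -- strict differentiability of the cone
  set Φ : ℝ × Euc 3 → Euc 4 := fun q => cone (F q.1) q.2 with hΦ
  have hs : HasStrictFDerivAt Φ (fderiv ℝ Φ (t, Z t)) (t, Z t) :=
    (hcF _ hz0).hasStrictFDerivAt (by simp)
  have hder : fderiv ℝ Φ (t, Z t) (1, 0) = meanCurvature 2 (F t) (nrm (Z t)) := by
    have e1 := hs.hasFDerivAt
    have e2 : HasDerivAt (fun s : ℝ => (s, Z t)) ((1 : ℝ), (0 : Euc 3)) t :=
      (hasDerivAt_id t).prodMk (hasDerivAt_const t (Z t))
    have e3 : HasDerivAt (fun s => Φ (s, Z t)) (fderiv ℝ Φ (t, Z t) (1, 0)) t :=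
      HasFDerivAt.comp_hasDerivAt (l := Φ) (f := fun s : ℝ => (s, Z t)) t e1 e2
    have e4 : HasDerivAt (fun s => Φ (s, Z t)) (‖Z t‖ • meanCurvature 2 (F t) (nrm (Z t))) t :=
      (hasDerivAt_flow hF htT (nrm (Z t))).const_smul ‖Z t‖
    rw [e3.unique e4, hn, one_smul]
  rw [hasDerivAt_iff_isLittleO]
  simp only [smul_zero, sub_zero]
  rw [Asymptotics.isLittleO_iff]
  intro ε hε
  have hc := h.hc
  have hs1 := hs.isLittleO.def (c := c / 4 * ε) (by positivity)
  have hG1 := ((hasDerivAt_iff_isLittleO.1 (hasDerivAt_flow hG htT' p))).def (c := c / 4 * ε)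
    (by positivity)
  have htend : Tendsto (fun s : ℝ => ((t, Z s), (s, Z s))) (𝓝 t) (𝓝 ((t, Z t), (t, Z t))) := by
    have e1 : ContinuousAt (fun s : ℝ => ((t, Z s), (s, Z s))) t :=
      (continuousAt_const.prodMk hZc).prodMk (continuousAt_id.prodMk hZc)
    exact e1
  have hs2 := htend.eventually hs1
  filter_upwards [hs2, hG1, hnear] with s hs3 hs4 hsI
  have e1 : Φ (s, Z s) = G s p := (h.coincide hF hG hI hI' hab ha hsI (hZ s hsI)).symm
  have e2 : Φ (t, Z t) = G t p := (h.coincide hF hG hI hI' hab ha htI hz).symm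
  simp only [Prod.mk_sub_mk, sub_self] at hs3
  have h6 : ((t - s, (0 : Euc 3)) : ℝ × Euc 3) = (t - s) • ((1 : ℝ), (0 : Euc 3)) := by simp
  rw [h6, map_smul, hder, e1, norm_smul] at hs3
  have h7 : ‖((1 : ℝ), (0 : Euc 3))‖ = 1 := by simp [Prod.norm_def]
  rw [h7, mul_one, ← hH] at hs3
  have h8 := (h.ball t htI p).lower_lip h.hr.le h.hKr hz.mem (hZ s hsI).mem
  have h9 : cone (F t) (Z s) - cone (F t) (Z t) =
      (Φ (t, Z s) - G s p - (t - s) • meanCurvature 2 (G t) p) +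
        (G s p - G t p - (s - t) • meanCurvature 2 (G t) p) := by
    rw [← e2]
    show Φ (t, Z s) - Φ (t, Z t) = _
    module
  rw [h9] at h8
  have h10 := norm_add_le (Φ (t, Z s) - G s p - (t - s) • meanCurvature 2 (G t) p)
    (G s p - G t p - (s - t) • meanCurvature 2 (G t) p)
  rw [norm_sub_rev t s] at hs3
  have h11 : c / 2 * ‖Z s - Z t‖ ≤ c / 2 * (ε * ‖s - t‖) := by
    have : c / 2 * (ε * ‖s - t‖) = c / 4 * ε * ‖s - t‖ + c / 4 * ε * ‖s - t‖ := by ring
    rw [this]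
    linarith
  exact le_of_mul_le_mul_left h11 (by positivity)

lemma Close.eq (ha : F a = G a) {t : ℝ} (ht : t ∈ Ioo a b) (p : S2) : F t p = G t p := by
  have hab : a ≤ b := (ht.1.trans ht.2).le
  have haI : a ∈ Icc a b := ⟨le_rfl, hab⟩
  choose! Z hZ using fun (s : ℝ) (hs : s ∈ Icc a b) => h.exists_argmin hs p
  have hd := fun s (hs : s ∈ Ioo a b) => h.hasDerivAt_argmin hF hG hI hI' ha hs hZ
  have hconst : ∀ s ∈ Ioo a b, Z s = Z t := fun s hs =>
    isOpen_Ioo.is_const_of_deriv_eq_zero isPreconnected_Ioo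
      (fun s hs => (hd s hs).differentiableAt.differentiableWithinAt)
      (fun s hs => (hd s hs).deriv) hs ht
  have hzt := hZ t (Ioo_subset_Icc_self ht)
  -- letting the time tend to the initial time
  have hG1 : Tendsto (fun s => G s p) (𝓝[Ioo a b] a) (𝓝 (G a p)) :=
    ((hG.flow a (hI' haI) p).continuousWithinAt).mono (Ioo_subset_Icc_self.trans hI')
  have hF1 : Tendsto (fun s => cone (F s) (Z t)) (𝓝[Ioo a b] a) (𝓝 (cone (F a) (Z t))) :=
    ((((hF.flow a (hI haI) (nrm (Z t))).continuousWithinAt).mono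
      (Ioo_subset_Icc_self.trans hI)).const_smul ‖Z t‖)
  have hne : (𝓝[Ioo a b] a).NeBot := by
    rw [← mem_closure_iff_nhdsWithin_neBot, closure_Ioo (ht.1.trans ht.2).ne]
    exact haI
  have heq : (fun s => G s p) =ᶠ[𝓝[Ioo a b] a] fun s => cone (F s) (Z t) := by
    filter_upwards [self_mem_nhdsWithin] with s hs
    have := h.coincide hF hG hI hI' hab ha (Ioo_subset_Icc_self hs) (hZ s (Ioo_subset_Icc_self hs))
    rw [hconst s hs] at this
    exact this
  have h1 : G a p = cone (F a) (Z t) := tendsto_nhds_unique (hG1.congr' heq) hF1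
  have h2 := (h.ball a haI p).lower_lip h.hr.le h.hKr (Metric.mem_closedBall_self h.hr.le)
    (hZ t (Ioo_subset_Icc_self ht)).mem
  rw [cone_coe, ← h1, ha, sub_self, norm_zero] at h2
  have hc := h.hc
  have h3 : ‖Z t - (p : Euc 3)‖ ≤ 0 := by
    by_contra hcon
    push Not at hcon
    have : 0 < c / 2 * ‖Z t - (p : Euc 3)‖ := by positivity
    linarith
  have h4 : Z t = (p : Euc 3) := sub_eq_zero.1 (norm_le_zero_iff.1 h3)
  have h5 := h.coincide hF hG hI hI' hab ha (Ioo_subset_Icc_self ht) hzt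
  rw [h5, h4, cone_coe]

end

end Pool.Agent.H15.MCF
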