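import Mathlib
import Pool.Agent.H15.MCF.Same

/-!
# Uniqueness of the mean curvature flow of the two-sphere in the three-sphere
-/

namespace Pool.Agent.H15.MCF

open scoped Manifold ContDiff RealInnerProductSpace Topology
open Set Filter

section

variable {F₀ G₀ : S2 → Euc 4} {T T' : EReal} {F G : ℝ → S2 → Euc 4}
  (hF : IsMCF 2 F₀ T F) (hG : IsMCF 2 G₀ T' G)
include hF hG

/-- If two solutions coincide at time `a`, then they coincide a little later. -/
lemma exists_later {a b : ℝ} (hab : a < b) (hI : Icc a b ⊆ timeDomain T)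
    (hI' : Icc a b ⊆ timeDomain T') (ha : F a = G a) : ∃ s, a < s ∧ s ≤ b ∧ F s = G s := by
  obtain ⟨c, hc, K, hK, hest⟩ := exists_constants hF hab.le hI
  set r := min (1 / 2) (c / (2 * K)) with hr
  have hr0 : 0 < r := by rw [hr]; positivity
  have hr1 : r ≤ 1 / 2 := min_le_left _ _
  have hr2 : K * r ≤ c / 2 := by
    have : r ≤ c / (2 * K) := min_le_right _ _
    calc K * r ≤ K * (c / (2 * K)) := mul_le_mul_of_nonneg_left this hK.le
      _ = c / 2 := by field_simp
  set ρ := min (c * r / 8) (c ^ 2 / (16 * K)) with hρ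
  have hρ0 : 0 < ρ := by rw [hρ]; positivity
  have hρ1 : 2 * ρ < c / 2 * r := by
    have h1 : ρ ≤ c * r / 8 := min_le_left _ _
    have h2 : 0 < c * r := by positivity
    linarith
  have hρ2 : 2 * ρ * K < (c / 2) ^ 2 := by
    have h1 : ρ ≤ c ^ 2 / (16 * K) := min_le_right _ _
    have h2 : ρ * K ≤ c ^ 2 / (16 * K) * K := mul_le_mul_of_nonneg_right h1 hK.le
    have h3 : c ^ 2 / (16 * K) * K = c ^ 2 / 16 := by field_simp
    have h4 : 0 < c ^ 2 := by positivity
    nlinarith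
  have hball : ∀ t ∈ Icc a b, ∀ p : S2, BallEst (cone (F t)) p r c K := by
    intro t ht p
    have h1 : ∀ x ∈ Metric.closedBall (p : Euc 3) r, 1 / 2 ≤ ‖x‖ ∧ ‖x‖ ≤ 2 := by
      intro x hx
      refine ⟨half_le_norm hr1 hx, ?_⟩
      rw [mem_closedBall_iff_norm] at hx
      have h2 := norm_coe p
      have h3 : ‖x‖ ≤ ‖(p : Euc 3)‖ + ‖x - p‖ := by
        have : x = (p : Euc 3) + (x - p) := by abel
        conv_lhs => rw [this]
        exact norm_add_le _ _
      linarith
    exact ⟨fun x hx => (contDiffAt_cone (hF.immersion t (hI ht))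
        (ne_zero_of_mem hr1 hx)).of_le two_le_infty,
      fun x hx => (hest t ht x (h1 x hx).1 (h1 x hx).2).1,
      fun x hx => (hest t ht x (h1 x hx).1 (h1 x hx).2).2⟩
  -- the solutions are close for a short time
  have hcont : Continuous (fun q : (Icc a b) × S2 => ‖G q.1 q.2 - F q.1 q.2‖) := by
    have h1 : ContinuousOn (fun q : ℝ × S2 => G q.1 q.2) (timeDomain T' ×ˢ univ) :=
      hG.smooth.continuousOn
    have h2 : ContinuousOn (fun q : ℝ × S2 => F q.1 q.2) (timeDomain T ×ˢ univ) :=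
      hF.smooth.continuousOn
    have h3 : Continuous (fun q : (Icc a b) × S2 => G q.1 q.2) :=
      h1.comp_continuous (f := fun q : (Icc a b) × S2 => ((q.1 : ℝ), q.2)) (by fun_prop)
        (fun q => ⟨hI' q.1.2, mem_univ _⟩)
    have h4 : Continuous (fun q : (Icc a b) × S2 => F q.1 q.2) :=
      h2.comp_continuous (f := fun q : (Icc a b) × S2 => ((q.1 : ℝ), q.2)) (by fun_prop)
        (fun q => ⟨hI q.1.2, mem_univ _⟩)
    exact (h3.sub h4).norm
  have hev : ∀ᶠ s : Icc a b in 𝓝 (⟨a, le_rfl, hab.le⟩ : Icc a b), ∀ p ∈ (univ : Set S2),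
      ‖G (s : ℝ) p - F (s : ℝ) p‖ < ρ := by
    apply isCompact_univ.eventually_forall_of_forall_eventually
    intro p _
    have h1 : ‖G a p - F a p‖ < ρ := by rw [ha, sub_self, norm_zero]; exact hρ0
    exact (hcont.continuousAt (x := ((⟨a, le_rfl, hab.le⟩ : Icc a b), p))).eventually_lt
      continuousAt_const h1
  obtain ⟨δ, hδ, hδ2⟩ := Metric.eventually_nhds_iff.1 hev
  set b' := min b (a + δ / 2) with hb'
  have hab' : a < b' := by rw [hb']; exact lt_min hab (by linarith)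
  have hbb : b' ≤ b := min_le_left _ _
  have hsub : Icc a b' ⊆ Icc a b := Icc_subset_Icc_right hbb
  have hclose : ∀ t ∈ Icc a b', ∀ p, ‖G t p - F t p‖ ≤ ρ := by
    intro t ht p
    have h1 : dist (⟨t, hsub ht⟩ : Icc a b) ⟨a, le_rfl, hab.le⟩ < δ := by
      rw [Subtype.dist_eq, Real.dist_eq, abs_of_nonneg (sub_nonneg.2 ht.1)]
      have : t ≤ a + δ / 2 := ht.2.trans (min_le_right _ _)
      linarith
    exact (hδ2 h1 p (mem_univ _)).le
  have hC : Close F G a b' r c K ρ :=
    ⟨fun t ht => hball t (hsub ht), hclose, hr0, hr1, hc, hK, hr2, hρ1, hρ2⟩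
  refine ⟨(a + b') / 2, by linarith, by linarith, ?_⟩
  funext p
  exact hC.eq hF hG (hsub.trans hI) (hsub.trans hI') ha ⟨by linarith, by linarith⟩ p

/-- Two solutions of the mean curvature flow with the same initial immersion coincide. -/
theorem mcf_unique (h0 : F₀ = G₀) {t : ℝ} (ht : t ∈ timeDomain T) (ht' : t ∈ timeDomain T') :
    F t = G t := by
  have hsub := timeDomain_Icc ht
  have hsub' := timeDomain_Icc ht'
  let s : Set ℝ := {u | F u = G u}
  have hcl : IsClosed (s ∩ Icc 0 t) := by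
    have hc1 : ∀ p : S2, ContinuousOn (fun u => F u p) (Icc 0 t) := fun p u hu =>
      ((hF.flow u (hsub hu) p).continuousWithinAt).mono hsub
    have hc2 : ∀ p : S2, ContinuousOn (fun u => G u p) (Icc 0 t) := fun p u hu =>
      ((hG.flow u (hsub' hu) p).continuousWithinAt).mono hsub'
    rw [← isSeqClosed_iff_isClosed]
    intro x u hx hxu
    have hu : u ∈ Icc 0 t := isClosed_Icc.mem_of_tendsto hxu
      (Eventually.of_forall fun n => (hx n).2)
    refine ⟨?_, hu⟩
    funext p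
    have ht1 : Tendsto x atTop (𝓝[Icc 0 t] u) :=
      tendsto_nhdsWithin_iff.2 ⟨hxu, Eventually.of_forall fun n => (hx n).2⟩
    have h1 := (hc1 p u hu).tendsto.comp ht1
    have h2 := (hc2 p u hu).tendsto.comp ht1
    have h3 : ((fun u => F u p) ∘ x) = ((fun u => G u p) ∘ x) := by
      funext n
      exact congrFun (hx n).1 p
    rw [h3] at h1
    exact tendsto_nhds_unique h1 h2
  have hmain : Icc 0 t ⊆ s := by
    apply hcl.Icc_subset_of_forall_exists_gt
    · show F 0 = G 0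
      rw [hF.initial, hG.initial, h0]
    · rintro u ⟨hu, hu1, hu2⟩ y hy
      have hy' : u < y := hy
      obtain ⟨v, hv1, hv2, hv3⟩ := exists_later hF hG (a := u) (b := min t y)
        (lt_min hu2 hy') (fun w hw => hsub ⟨hu1.trans hw.1, hw.2.trans (min_le_left _ _)⟩)
        (fun w hw => hsub' ⟨hu1.trans hw.1, hw.2.trans (min_le_left _ _)⟩) hu
      exact ⟨v, hv3, hv1, hv2.trans (min_le_right _ _)⟩
  exact hmain ⟨ht.1, le_rfl⟩

end

/-- Symmetries of the initial immersion are preserved. -/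
lemma IsMCF.linear_symm {F₀ : S2 → Euc 4} {T : EReal} {F : ℝ → S2 → Euc 4}
    (hF : IsMCF 2 F₀ T F) (L : Euc 3 ≃ₗᵢ[ℝ] Euc 3) (σ : Euc 4 ≃ₗᵢ[ℝ] Euc 4)
    (h0 : ∀ y, F₀ (sphMap L y) = σ (F₀ y)) {t : ℝ} (ht : t ∈ timeDomain T) (y : S2) :
    F t (sphMap L y) = σ (F t y) := by
  have h1 := isMCF_comp σ.symm hF (contMDiff_sphMap L)
    (contMDiff_sphMap L.symm) (sphMap_symm_right L) (sphMap_symm_left L)
  have h2 : F₀ = fun y => σ.symm (F₀ (sphMap L y)) := by
    funext y
    rw [h0, σ.symm_apply_apply]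
  have h3 := congrFun (mcf_unique hF h1 h2 ht ht) y
  rw [h3, σ.apply_symm_apply]

lemma IsMCF.isSymm {F₀ : S2 → Euc 4} {T : EReal} {F : ℝ → S2 → Euc 4}
    (hF : IsMCF 2 F₀ T F) (h0 : IsSymm F₀) {t : ℝ} (ht : t ∈ timeDomain T) :
    IsSymm (F t) :=
  ⟨fun φ y => hF.linear_symm _ _ (h0.rot φ) ht y, fun y => hF.linear_symm _ _ h0.refY ht y,
    fun y => hF.linear_symm _ _ h0.refW ht y⟩

end Pool.Agent.H15.MCF
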