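import Mathlib
import Pool.Agent.H15.MCF.Unique

/-!
# The maximal solution
-/

namespace Pool.Agent.H15.MCF

open scoped Manifold ContDiff RealInnerProductSpace Topology
open Set Filter

lemma timeDomain_mono {T T' : EReal} (h : T' ≤ T) : timeDomain T' ⊆ timeDomain T :=
  fun _ ht => ⟨ht.1, ht.2.trans_le h⟩

lemma timeDomain_mem_nhdsWithin {T T' : EReal} {t : ℝ} (ht : t ∈ timeDomain T') :
    timeDomain T' ∈ 𝓝[timeDomain T] t := by
  have h1 : {s : ℝ | (s : EReal) < T'} ∈ 𝓝 t :=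
    (isOpen_Iio.preimage continuous_coe_real_ereal).mem_nhds ht.2
  filter_upwards [mem_nhdsWithin_of_mem_nhds h1, self_mem_nhdsWithin] with s hs1 hs2
  exact ⟨hs2.1, hs1⟩

/-- If there is a solution at all, then there is a unique maximal one. -/
theorem exists_maximal {F₀ : S2 → Euc 4} (h : ∃ T F, IsMCF 2 F₀ T F) :
    ∃ T F, IsUniqueMaximalMCF 2 F₀ T F := by
  let S : Set EReal := {T | ∃ F, IsMCF 2 F₀ T F}
  set T := sSup S with hT
  have h1 : ∀ t : ℝ, (t : EReal) < T → ∃ (T' : EReal) (F' : ℝ → S2 → Euc 4),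
      IsMCF 2 F₀ T' F' ∧ (t : EReal) < T' := by
    intro t ht
    obtain ⟨T', ⟨F', hF'⟩, hlt⟩ := lt_sSup_iff.1 ht
    exact ⟨T', F', hF', hlt⟩
  choose! τ Φ hΦ hτ using h1
  have hle : ∀ (T' : EReal) (F' : ℝ → S2 → Euc 4), IsMCF 2 F₀ T' F' → T' ≤ T :=
    fun T' F' hF' => le_sSup ⟨F', hF'⟩
  let F : ℝ → S2 → Euc 4 := fun t => Φ t t
  have hF : ∀ (T' : EReal) (F' : ℝ → S2 → Euc 4), IsMCF 2 F₀ T' F' → ∀ t ∈ timeDomain T',
      F' t = F t := by
    intro T' F' hF' t ht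
    have ht2 : (t : EReal) < T := ht.2.trans_le (hle T' F' hF')
    exact mcf_unique hF' (hΦ t ht2) rfl ht ⟨ht.1, hτ t ht2⟩
  refine ⟨T, F, ⟨?_, ?_, ?_, ?_, ?_⟩, fun T' F' hF' => ⟨hle T' F' hF', hF T' F' hF'⟩⟩
  · obtain ⟨T', F', hF'⟩ := h
    exact hF'.pos.trans_le (hle T' F' hF')
  · obtain ⟨T', F', hF'⟩ := h
    rw [← hF T' F' hF' 0 (zero_mem_timeDomain hF'.pos), hF'.initial]
  · rintro ⟨t, x⟩ ⟨ht, -⟩
    have hs := hΦ t ht.2
    have htt : t ∈ timeDomain (τ t) := ⟨ht.1, hτ t ht.2⟩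
    have h2 : timeDomain (τ t) ×ˢ (univ : Set S2) ∈ 𝓝[timeDomain T ×ˢ univ] (t, x) := by
      rw [nhdsWithin_prod_eq]
      exact prod_mem_prod (timeDomain_mem_nhdsWithin htt) (by simp)
    have h3 : ContMDiffWithinAt (𝓘(ℝ, ℝ).prod (𝓡 2)) 𝓘(ℝ, Euc 4) ∞
        (fun p : ℝ × S2 => Φ t p.1 p.2) (timeDomain T ×ˢ univ) (t, x) :=
      (hs.smooth (t, x) ⟨htt, mem_univ _⟩).mono_of_mem_nhdsWithin h2
    refine h3.congr_of_eventuallyEq ?_ ?_
    · filter_upwards [h2] with q hq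
      exact (congrFun (hF _ _ hs q.1 hq.1) q.2).symm
    · exact (congrFun (hF _ _ hs t htt) x).symm
  · intro t ht
    have htt : t ∈ timeDomain (τ t) := ⟨ht.1, hτ t ht.2⟩
    rw [← hF _ _ (hΦ t ht.2) t htt]
    exact (hΦ t ht.2).immersion t htt
  · intro t ht x
    have hs := hΦ t ht.2
    have htt : t ∈ timeDomain (τ t) := ⟨ht.1, hτ t ht.2⟩
    have h2 := timeDomain_mem_nhdsWithin (T := T) htt
    have h3 := (hs.flow t htt x).mono_of_mem_nhdsWithin h2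
    rw [hF _ _ hs t htt] at h3
    refine h3.congr_of_eventuallyEq ?_ ?_
    · filter_upwards [h2] with s hs'
      exact (congrFun (hF _ _ hs s hs') x).symm
    · exact (congrFun (hF _ _ hs t htt) x).symm

end Pool.Agent.H15.MCF
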